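import Pool.Agent.V8H6.RW.Asm2

set_option autoImplicit false

/-! Weighted moments: assembly. -/

namespace Pool.Agent.V8H6.RW

open Complex hiding im
open Filter Topology MeasureTheory Set
open Pool.Agent.N879.QM
open scoped BigOperators

noncomputable section

variable {k a b r : ℕ}

/-- Chebyshev for mean squares -/
lemma ch5 {A X δ c θ C : ℝ} {F : (Fin k → ℝ) → ℂ} (hF : Measurable F) (hX : 1 ≤ X) (hC : 0 ≤ C)
    (hc : 4 * δ ≤ c)
    (h : ∫⁻ β, ENNReal.ofReal (‖F β‖ ^ 2) ∂(mS k A) ≤ ENNReal.ofReal (C * X ^ (k * θ + 2 - c))) :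
    mS k A {β | X ^ (1 - δ) / 5 < ‖F β‖} ≤ ENNReal.ofReal (25 * C * X ^ (k * θ - 2 * δ)) := by
  have hX0 : 0 < X := by linarith
  have hXδ : 0 < X ^ (1 - δ) / 5 := by positivity
  refine (cheb (g := fun β => ‖F β‖) hF.norm.aemeasurable hXδ h).trans (ENNReal.ofReal_le_ofReal ?_)
  have esq : (X ^ (1 - δ) / 5) ^ 2 = X ^ (2 - 2 * δ) / 25 := by
    rw [div_pow, ← Real.rpow_natCast, ← Real.rpow_mul hX0.le]
    norm_num
    congr 1; ring
  rw [esq]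
  have hXd2 : 0 < X ^ (2 - 2 * δ) := by positivity
  have e2 : X ^ (k * θ + 2 - c) ≤ X ^ (k * θ - 2 * δ) * X ^ (2 - 2 * δ) := by
    rw [← Real.rpow_add hX0]
    apply Real.rpow_le_rpow_of_exponent_le hX
    linarith
  rw [div_le_iff₀ (by positivity)]
  calc C * X ^ (k * θ + 2 - c) ≤ C * (X ^ (k * θ - 2 * δ) * X ^ (2 - 2 * δ)) :=
        mul_le_mul_of_nonneg_left e2 hC
    _ = 25 * C * X ^ (k * θ - 2 * δ) * (X ^ (2 - 2 * δ) / 25) := by ring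

lemma ar2 {C p l S p' l' T : ℝ} (hC : 0 ≤ C) (hp : p = p') (hp0 : 0 ≤ p') (hl : l ≤ l') (hl0 : 0 ≤ l)
    (hS0 : 0 ≤ S) (hS : S ≤ T) : C * p * l * S ≤ C * p' * l' * T := by
  rw [hp]
  have h1 : C * p' * l ≤ C * p' * l' := mul_le_mul_of_nonneg_left hl (mul_nonneg hC hp0)
  exact mul_le_mul h1 hS hS0 (mul_nonneg (mul_nonneg hC hp0) (hl0.trans hl))

theorem mainW (k a b : ℕ) (hk : 1 ≤ k) (s : ℤ) (hs : s = 1 ∨ s = -1) {θ : ℝ} (hθ : 0 < θ) (hθ1 : θ ≤ 1)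
    {τ : ℝ} (hτ : 0 < τ) (hτ1 : τ ≤ 1 / 8) : ∃ δ X₀ : ℝ, 0 < δ ∧ ∀ X : ℝ, X₀ ≤ X →
    ∀ (u : Fin a → ℂ) (v : Fin b → ℂ), (∀ i, 1 / 2 + 2 * τ ≤ (u i).re) → (∀ i, 1 / 2 + 2 * τ ≤ (v i).re) →
      (∀ i, ‖u i‖ ≤ X ^ δ) → (∀ i, ‖v i‖ ≤ X ^ δ) →
      ∃ E : Finset ℕ, E ⊆ Q s X ∧ (E.card : ℝ) ≤ X ^ (1 - δ) ∧
        (∀ q ∈ Q s X \ E, ∀ l, LL s q (v l) ≠ 0) ∧
        mS k (X ^ θ) {β | X ^ (1 - δ) < ‖(∑ q ∈ Q s X \ E, WW s q u v * ∏ j, LL s q (pt (β j))) -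
          ((c0 * X : ℝ) : ℂ) * MTW (im β) u v‖} ≤ ENNReal.ofReal (X ^ (k * θ - δ)) := by
  classical
  have hO2 : S_MB := t_MB t_HBG (t_BIG1P (t_BLK t_MVG) t_ONE t_PVI) t_AFS t_CTS
  obtain ⟨CN, hCN, hNS⟩ := t_NS k
  obtain ⟨m₀, hE3⟩ := e3G t_FL k a b hk hτ hτ1
  obtain ⟨r, hr⟩ : ∃ r : ℕ, r = a + b := ⟨_, rfl⟩
  obtain ⟨m, hm⟩ : ∃ m : ℕ, m = m₀ + 8 * (k + r) + ⌈1 / τ⌉₊ + 9 := ⟨_, rfl⟩
  have hm1 : 1 ≤ m := by omega
  have hm0 : (0 : ℝ) < m := by exact_mod_cast hm1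
  obtain ⟨C3, X3, hC3, hE3⟩ := hE3 m (by omega) hm1
  have hm9 : (9 : ℝ) ≤ m := by
    have : 9 ≤ m := by omega
    exact_mod_cast this
  obtain ⟨η, hη⟩ : ∃ η : ℝ, η = θ * (1 / m) := ⟨_, rfl⟩
  have hη0 : 0 < η := by rw [hη]; positivity
  have hηθ : η ≤ θ / 4 := by
    rw [hη, mul_one_div]
    exact div_le_div_of_nonneg_left hθ.le (by norm_num) (by linarith)
  have hη1 : η ≤ 1 / m := by
    rw [hη]
    have : 0 ≤ (1 / m : ℝ) := by positivity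
    nlinarith
  have hητ : η ≤ τ := by
    refine hη1.trans ?_
    rw [div_le_iff₀ hm0]
    have h1 : 1 / τ ≤ m := by
      refine (Nat.le_ceil _).trans ?_
      have : ⌈1 / τ⌉₊ ≤ m := by omega
      exact_mod_cast this
    rw [div_le_iff₀ hτ] at h1
    linarith
  have hk0 : (0 : ℝ) < k := by exact_mod_cast hk
  have hk1 : (1 : ℝ) ≤ k := by exact_mod_cast hk
  have hkη : (k + r : ℝ) * η ≤ 1 / 8 := by
    have h2 : (k + r : ℝ) * (1 / m) ≤ 1 / 8 := by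
      rw [mul_one_div, div_le_div_iff₀ hm0 (by norm_num)]
      have : (k + r) * 8 ≤ 1 * m := by omega
      exact_mod_cast this
    exact (mul_le_mul_of_nonneg_left hη1 (by positivity)).trans h2
  obtain ⟨ρ, hρ⟩ : ∃ ρ : ℝ, ρ = η / (8 * k) := ⟨_, rfl⟩
  have hρ0 : 0 < ρ := by rw [hρ]; positivity
  have hητ0 : 0 < η * τ := by positivity
  obtain ⟨C1, X1, hC1, hE1⟩ := e1W (k := k) hk hθ hθ1 hη0 hηθ
  obtain ⟨C2, hC2, hE2⟩ := rmvW k
  obtain ⟨CE, hCE, hEx⟩ := Ex_card hO2 hρ0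
  obtain ⟨CW, ν, XW, hCW, hν0, hν1, hW⟩ := approxW a b hτ hτ1 hη0 hητ
  obtain ⟨CD, hCD, hD⟩ := diagW k (a + b)
  obtain ⟨ν', hν'⟩ : ∃ ν' : ℝ, ν' = min ν (ρ / 2) := ⟨_, rfl⟩
  have hν'0 : 0 < ν' := by rw [hν']; exact lt_min hν0 (by positivity)
  have hν'1 : ν' ≤ ν := by rw [hν']; exact min_le_left _ _
  have hν'2 : ν' ≤ ρ / 2 := by rw [hν']; exact min_le_right _ _
  obtain ⟨CP, hCP, hP⟩ := ms_prod (a + b) (ε := ν' / 2) hτ (by positivity)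
  obtain ⟨δ, hδ⟩ : ∃ δ : ℝ, δ = ν' / 64 := ⟨_, rfl⟩
  have hδ0 : 0 < δ := by rw [hδ]; positivity
  have hρη : ρ ≤ η / 8 := by
    rw [hρ]
    exact div_le_div_of_nonneg_left hη0.le (by norm_num) (by linarith)
  have hτη : η * τ ≤ η / 8 := by nlinarith
  have hητ8 : η * τ ≤ τ := by nlinarith
  have hc0 : 0 < c0 := by unfold c0; positivity
  have hη18 : η ≤ 1 / 8 := by
    have : (0 : ℝ) ≤ r := Nat.cast_nonneg r
    nlinarith
  -- large X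
  have ev1 : ∀ᶠ X : ℝ in atTop, 5 * CD ≤ X ^ (3 / 8 - δ : ℝ) :=
    (tendsto_rpow_atTop (by linarith)).eventually_ge_atTop _
  have ev2 : ∀ᶠ X : ℝ in atTop, CN + 25 * C1 + 25 * C2 + 25 * (C2 * ((CE + CW) * CP)) + 25 * c0 ^ 2 * C3 ≤
      X ^ δ :=
    (tendsto_rpow_atTop hδ0).eventually_ge_atTop _
  have ev3 : ∀ᶠ X : ℝ in atTop, CE + CW ≤ X ^ (ν' - δ) :=
    (tendsto_rpow_atTop (by linarith)).eventually_ge_atTop _
  have ev4 : ∀ᶠ X : ℝ in atTop, max X3 2 ≤ X ^ θ :=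
    (tendsto_rpow_atTop hθ).eventually_ge_atTop _
  have ev5 := log_small k hθ (show 0 < ν' / 4 by positivity)
  obtain ⟨X₀, hX₀⟩ := eventually_atTop.1 ((((ev1.and ev2).and (ev3.and ev4)).and
    ((eventually_ge_atTop X1).and (eventually_ge_atTop XW))).and ((eventually_ge_atTop 2).and ev5))
  refine ⟨δ, X₀, hδ0, ?_⟩
  intro X hX u w hu hw hu2 hw2
  obtain ⟨⟨⟨⟨v1, v2⟩, v3, v4⟩, v5, v6⟩, v7, v8⟩ := hX₀ X hX
  have hX0 : 0 < X := by linarith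
  have hX1 : 1 ≤ X := by linarith
  obtain ⟨A, hA⟩ : ∃ A : ℝ, A = X ^ θ := ⟨_, rfl⟩
  have hAX : A ≤ X := by
    rw [hA]
    calc X ^ θ ≤ X ^ (1 : ℝ) := Real.rpow_le_rpow_of_exponent_le hX1 hθ1
      _ = X := Real.rpow_one X
  have hA2 : 2 ≤ A := by rw [hA]; exact (le_max_right _ _).trans v4
  have hA3 : X3 ≤ A := by rw [hA]; exact (le_max_left _ _).trans v4
  have hA1 : 1 ≤ A := by linarith
  have hAη : A ^ (1 / m : ℝ) = X ^ η := by
    rw [hA, hη, ← Real.rpow_mul hX0.le]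
  have hAk : A ^ k = X ^ (k * θ) := by
    rw [hA, ← Real.rpow_natCast, ← Real.rpow_mul hX0.le]
    congr 1; ring
  have hlogA : Real.log A ^ k ≤ X ^ (ν' / 4) := by
    rw [hA, Real.log_rpow hX0]
    exact v8
  have hlogA0 : 0 ≤ Real.log A := Real.log_nonneg hA1
  obtain ⟨N, hNd⟩ : ∃ N : ℕ, N = ⌊X ^ η⌋₊ := ⟨_, rfl⟩
  obtain ⟨f1, f2, f3⟩ := floor_half (Real.one_le_rpow hX1 hη0.le : 1 ≤ X ^ η)
  rw [← hNd] at f1 f2 f3
  have hN0 : (0 : ℝ) < N := by exact_mod_cast f3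
  have hNA : (N : ℝ) ≤ A := by
    refine f2.trans ?_
    rw [hA]
    apply Real.rpow_le_rpow_of_exponent_le hX1
    linarith
  have hδτ : X ^ δ ≤ X ^ (τ / 8) := by
    apply Real.rpow_le_rpow_of_exponent_le hX1
    linarith
  obtain ⟨EW, hEW1, hEW2, hEW3⟩ := hW s X N u w hs v6 f1 f2 f3 hu hw (fun i => (hu2 i).trans hδτ)
    (fun i => (hw2 i).trans hδτ)
  obtain ⟨E, hE⟩ : ∃ E : Finset ℕ, E = Ex s X A ρ ∪ EW := ⟨_, rfl⟩
  have hEQ : E ⊆ Q s X := by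
    rw [hE]
    exact Finset.union_subset (Ex_sub _ _ _ _) hEW1
  have hEcard : (E.card : ℝ) ≤ (CE + CW) * X ^ (1 - ν') := by
    have h1 := hEx s X A hs hA2 hAX
    have h2 : X ^ (1 - ρ / 2) ≤ X ^ (1 - ν') := Real.rpow_le_rpow_of_exponent_le hX1 (by linarith)
    have h3 : X ^ (1 - ν) ≤ X ^ (1 - ν') := Real.rpow_le_rpow_of_exponent_le hX1 (by linarith)
    calc (E.card : ℝ) ≤ ((Ex s X A ρ).card : ℝ) + EW.card := by
          rw [hE]
          exact_mod_cast Finset.card_union_le _ _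
      _ ≤ CE * X ^ (1 - ρ / 2) + CW * X ^ (1 - ν) := add_le_add h1 hEW2
      _ ≤ CE * X ^ (1 - ν') + CW * X ^ (1 - ν') := by gcongr
      _ = _ := by ring
  obtain ⟨D, hDd⟩ : ∃ D : Finset ℕ, D = Q s X \ E := ⟨_, rfl⟩
  have hDQ : D ⊆ Q s X := by rw [hDd]; exact Finset.sdiff_subset
  have hDEx : D ⊆ Q s X \ Ex s X A ρ := by
    rw [hDd, hE]
    intro q hq
    rw [Finset.mem_sdiff, Finset.mem_union, not_or] at hq
    exact Finset.mem_sdiff.2 ⟨hq.1, hq.2.1⟩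
  have hDW : ∀ q ∈ D, (∀ l, LL s q (w l) ≠ 0) ∧ ‖WW s q u w - WP s q N u w‖ ≤ X ^ (-(η * τ / 16)) ∧
        ‖WW s q u w‖ ≤ X ^ (η * τ / 16) := by
    intro q hq
    rw [hDd, hE, Finset.mem_sdiff, Finset.mem_union, not_or] at hq
    exact hEW3 q hq.1 hq.2.2
  have hDcard : (D.card : ℝ) ≤ X := le_trans (by exact_mod_cast Finset.card_le_card hDQ) (Q_card hX1)
  refine ⟨E, hEQ, ?_, fun q hq => (hDW q (by rw [hDd]; exact hq)).1, ?_⟩
  · refine hEcard.trans ?_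
    calc (CE + CW) * X ^ (1 - ν') ≤ X ^ (ν' - δ) * X ^ (1 - ν') := by gcongr
      _ = X ^ (1 - δ) := by rw [← Real.rpow_add hX0]; congr 1; ring
  rw [← hDd]
  -- the mean squares
  have g1 := hE1 s X N D (fun q => WW s q u w) hs v5 f1 f2 f3 (by rw [← hA, ← hρ]; exact hDEx)
  rw [← hA] at g1
  have g1' : ∫⁻ β, ENNReal.ofReal (‖∑ q ∈ D, WW s q u w * (∏ j, LL s q (pt (β j)) - ∏ j, PN s q N (β j))‖ ^ 2)
      ∂(mS k A) ≤ ENNReal.ofReal (C1 * X ^ (k * θ + 2 - η / 8)) := by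
    refine g1.trans (ENNReal.ofReal_le_ofReal ?_)
    have h1 : ∑ q ∈ D, ‖WW s q u w‖ ^ 2 ≤ X * X ^ (η * τ / 8) := by
      calc ∑ q ∈ D, ‖WW s q u w‖ ^ 2 ≤ ∑ q ∈ D, X ^ (η * τ / 8) := by
            refine Finset.sum_le_sum fun q hq => ?_
            refine (pow_le_pow_left₀ (norm_nonneg _) (hDW q hq).2.2 2).trans (le_of_eq ?_)
            rw [← Real.rpow_natCast, ← Real.rpow_mul hX0.le]
            congr 1
            push_cast
            ring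
        _ = D.card * X ^ (η * τ / 8) := by rw [Finset.sum_const, nsmul_eq_mul]
        _ ≤ X * X ^ (η * τ / 8) := mul_le_mul_of_nonneg_right hDcard (by positivity)
    calc C1 * X ^ (k * θ + 1 - η / 4) * ∑ q ∈ D, ‖WW s q u w‖ ^ 2
        ≤ C1 * X ^ (k * θ + 1 - η / 4) * (X ^ (1 : ℝ) * X ^ (η * τ / 8)) := by
          rw [Real.rpow_one]
          exact mul_le_mul_of_nonneg_left h1 (mul_nonneg hC1.le (Real.rpow_nonneg hX0.le _))
      _ = C1 * X ^ (k * θ + 2 - η / 4 + η * τ / 8) := by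
          rw [mul_assoc, ← Real.rpow_add hX0, ← Real.rpow_add hX0]
          congr 2
          ring
      _ ≤ C1 * X ^ (k * θ + 2 - η / 8) := by
          apply mul_le_mul_of_nonneg_left _ hC1.le
          apply Real.rpow_le_rpow_of_exponent_le hX1
          linarith
  have g2 : ∫⁻ β, ENNReal.ofReal (‖∑ q ∈ D, (WW s q u w - WP s q N u w) * ∏ j, PN s q N (β j)‖ ^ 2)
      ∂(mS k A) ≤ ENNReal.ofReal (C2 * X ^ (k * θ + 2 - (η * τ / 8 - ν' / 4))) := by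
    refine (hE2 s A N D (fun q => WW s q u w - WP s q N u w) hA2 f3 hNA).trans (ENNReal.ofReal_le_ofReal ?_)
    have h1 : ∑ q ∈ D, ‖WW s q u w - WP s q N u w‖ ≤ X * X ^ (-(η * τ / 16)) := by
      calc ∑ q ∈ D, ‖WW s q u w - WP s q N u w‖ ≤ ∑ q ∈ D, X ^ (-(η * τ / 16)) :=
            Finset.sum_le_sum fun q hq => (hDW q hq).2.1
        _ = D.card * X ^ (-(η * τ / 16)) := by rw [Finset.sum_const, nsmul_eq_mul]
        _ ≤ _ := mul_le_mul_of_nonneg_right hDcard (by positivity)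
    have h0 : 0 ≤ ∑ q ∈ D, ‖WW s q u w - WP s q N u w‖ := Finset.sum_nonneg fun _ _ => norm_nonneg _
    calc C2 * A ^ k * Real.log A ^ k * (∑ q ∈ D, ‖WW s q u w - WP s q N u w‖) ^ 2
        ≤ C2 * X ^ (k * θ) * X ^ (ν' / 4) * (X ^ (1 : ℝ) * X ^ (-(η * τ / 16))) ^ 2 := by
          rw [Real.rpow_one]
          exact ar2 hC2.le hAk (Real.rpow_nonneg hX0.le _) hlogA (pow_nonneg hlogA0 _) (pow_nonneg h0 _)
            (pow_le_pow_left₀ h0 h1 2)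
      _ = C2 * (X ^ (k * θ) * (X ^ (ν' / 4) * (X ^ (1 : ℝ) * X ^ (-(η * τ / 16))) ^ 2)) := by ring
      _ = C2 * X ^ (k * θ + 2 - (η * τ / 8 - ν' / 4)) := by
          rw [← Real.rpow_add hX0, ← Real.rpow_natCast, ← Real.rpow_mul hX0.le, ← Real.rpow_add hX0,
            ← Real.rpow_add hX0]
          congr 2
          push_cast
          ring
  have g3 : ∫⁻ β, ENNReal.ofReal (‖∑ q ∈ E, WP s q N u w * ∏ j, PN s q N (β j)‖ ^ 2)
      ∂(mS k A) ≤ ENNReal.ofReal ((C2 * ((CE + CW) * CP)) * X ^ (k * θ + 2 - ν' / 4)) := by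
    refine (hE2 s A N E (fun q => WP s q N u w) hA2 f3 hNA).trans (ENNReal.ofReal_le_ofReal ?_)
    have h1 := hP s X N (gW u w) hs hX1 f3 (by
      calc (N : ℝ) ^ (a + b) ≤ (X ^ η) ^ (a + b) := pow_le_pow_left₀ hN0.le f2 _
        _ = X ^ (η * r) := by
            rw [← Real.rpow_natCast, ← Real.rpow_mul hX0.le, ← hr]
        _ ≤ X ^ (1 : ℝ) := by
            apply Real.rpow_le_rpow_of_exponent_le hX1
            nlinarith
        _ = X := Real.rpow_one X) (fun i m hm => EulG.gW_bd hu hw i hm)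
    have h2 : (∑ q ∈ E, ‖WP s q N u w‖) ^ 2 ≤ (E.card : ℝ) * ∑ q ∈ E, ‖WP s q N u w‖ ^ 2 :=
      sq_sum_le_card_mul_sum_sq
    have h3 : ∑ q ∈ E, ‖WP s q N u w‖ ^ 2 ≤ ∑ q ∈ Q s X, ‖WP s q N u w‖ ^ 2 :=
      Finset.sum_le_sum_of_subset_of_nonneg hEQ fun _ _ _ => by positivity
    have h4 : (∑ q ∈ E, ‖WP s q N u w‖) ^ 2 ≤ ((CE + CW) * X ^ (1 - ν')) * (CP * X ^ (1 + ν' / 2)) := by
      refine h2.trans ?_
      exact mul_le_mul hEcard (h3.trans h1) (Finset.sum_nonneg fun _ _ => by positivity) (by positivity)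
    calc C2 * A ^ k * Real.log A ^ k * (∑ q ∈ E, ‖WP s q N u w‖) ^ 2
        ≤ C2 * X ^ (k * θ) * X ^ (ν' / 4) * (((CE + CW) * X ^ (1 - ν')) * (CP * X ^ (1 + ν' / 2))) :=
          ar2 hC2.le hAk (Real.rpow_nonneg hX0.le _) hlogA (pow_nonneg hlogA0 _) (sq_nonneg _) h4
      _ = (C2 * ((CE + CW) * CP)) * (X ^ (k * θ) * (X ^ (ν' / 4) * (X ^ (1 - ν') * X ^ (1 + ν' / 2)))) := by
          ring
      _ = (C2 * ((CE + CW) * CP)) * X ^ (k * θ + 2 - ν' / 4) := by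
          rw [← Real.rpow_add hX0, ← Real.rpow_add hX0, ← Real.rpow_add hX0]
          congr 2
          ring
  have g5 := hE3 u w hu hw A N hA3 hA2 (by rw [hAη]; exact f1) (by rw [hAη]; exact f2) f3
  -- the diagonal error
  have g4 : ∀ β : Fin k → ℝ, ‖(∑ q ∈ Q s X, WP s q N u w * ∏ j, PN s q N (β j)) -
      ((c0 * X : ℝ) : ℂ) * SG (gW u w) N β‖ ≤ X ^ (1 - δ) / 5 := by
    intro β
    refine (hD s X N (gW u w) β hs hX1 f3 (fun i m hm => ?_)).trans ?_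
    · refine (EulG.gW_bd hu hw i hm).trans ?_
      exact Real.rpow_le_rpow_of_exponent_le (by exact_mod_cast hm) (by linarith)
    have h1 : (N : ℝ) ^ (k + (a + b)) ≤ X ^ (1 / 8 : ℝ) := by
      calc (N : ℝ) ^ (k + (a + b)) ≤ (X ^ η) ^ (k + (a + b)) := pow_le_pow_left₀ hN0.le f2 _
        _ = X ^ ((k + r) * η) := by
            rw [← Real.rpow_natCast, ← Real.rpow_mul hX0.le, ← hr]
            congr 1
            push_cast
            ring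
        _ ≤ X ^ (1 / 8 : ℝ) := Real.rpow_le_rpow_of_exponent_le hX1 hkη
    have h2 : √X = X ^ (1 / 2 : ℝ) := Real.sqrt_eq_rpow X
    have h3 : X ^ (1 - δ) = X ^ (3 / 8 - δ : ℝ) * (X ^ (1 / 2 : ℝ) * X ^ (1 / 8 : ℝ)) := by
      rw [← Real.rpow_add hX0, ← Real.rpow_add hX0]; congr 1; ring
    rw [h2, h3, le_div_iff₀ (by norm_num)]
    calc CD * X ^ (1 / 2 : ℝ) * (N : ℝ) ^ (k + (a + b)) * 5 ≤
        CD * X ^ (1 / 2 : ℝ) * X ^ (1 / 8 : ℝ) * 5 := by gcongr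
      _ = 5 * CD * (X ^ (1 / 2 : ℝ) * X ^ (1 / 8 : ℝ)) := by ring
      _ ≤ X ^ (3 / 8 - δ : ℝ) * (X ^ (1 / 2 : ℝ) * X ^ (1 / 8 : ℝ)) := by gcongr
  -- the sets
  obtain ⟨D1, hD1⟩ : ∃ D1 : (Fin k → ℝ) → ℂ, D1 = fun β =>
    ∑ q ∈ D, WW s q u w * (∏ j, LL s q (pt (β j)) - ∏ j, PN s q N (β j)) := ⟨_, rfl⟩
  obtain ⟨D2, hD2⟩ : ∃ D2 : (Fin k → ℝ) → ℂ, D2 = fun β =>
    ∑ q ∈ D, (WW s q u w - WP s q N u w) * ∏ j, PN s q N (β j) := ⟨_, rfl⟩
  obtain ⟨D3, hD3⟩ : ∃ D3 : (Fin k → ℝ) → ℂ, D3 = fun β =>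
    ∑ q ∈ E, WP s q N u w * ∏ j, PN s q N (β j) := ⟨_, rfl⟩
  obtain ⟨D5, hD5⟩ : ∃ D5 : (Fin k → ℝ) → ℂ, D5 = fun β => SG (gW u w) N β - MTW (im β) u w := ⟨_, rfl⟩
  have hPNc : ∀ q, Continuous fun β : Fin k → ℝ => ∏ j, PN s q N (β j) := fun q =>
    continuous_finset_prod _ fun j _ => (PN_cont s q N).comp (continuous_apply j)
  have c1 : Continuous D1 := by
    rw [hD1]
    refine continuous_finset_sum _ fun q hq => continuous_const.mul (Continuous.sub ?_ (hPNc q))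
    exact continuous_finset_prod _ fun j _ => (t_CTS s q (Q_is (hDQ hq)).1).comp (continuous_apply j)
  have c2 : Continuous D2 := by
    rw [hD2]
    exact continuous_finset_sum _ fun q _ => continuous_const.mul (hPNc q)
  have c3 : Continuous D3 := by
    rw [hD3]
    exact continuous_finset_sum _ fun q _ => continuous_const.mul (hPNc q)
  have hlam5 : 0 < X ^ (-δ) / (5 * c0) := by positivity
  have hsub : {β : Fin k → ℝ | X ^ (1 - δ) <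
      ‖(∑ q ∈ D, WW s q u w * ∏ j, LL s q (pt (β j))) - ((c0 * X : ℝ) : ℂ) * MTW (im β) u w‖} ⊆
      (Gd k A)ᶜ ∪ ({β | X ^ (1 - δ) / 5 < ‖D1 β‖} ∪ ({β | X ^ (1 - δ) / 5 < ‖D2 β‖} ∪
        ({β | X ^ (1 - δ) / 5 < ‖D3 β‖} ∪ ({β | X ^ (-δ) / (5 * c0) < ‖D5 β‖} ∩ Gd k A)))) := by
    intro β hβ
    by_contra hcon
    simp only [mem_union, mem_compl_iff, mem_inter_iff, not_or, not_and, not_not] at hcon
    obtain ⟨h1, h2, h3, h4, h5⟩ := hcon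
    have h2' : ‖D1 β‖ ≤ X ^ (1 - δ) / 5 := not_lt.1 h2
    have h3' : ‖D2 β‖ ≤ X ^ (1 - δ) / 5 := not_lt.1 h3
    have h4' : ‖D3 β‖ ≤ X ^ (1 - δ) / 5 := not_lt.1 h4
    have h5' : ‖D5 β‖ ≤ X ^ (-δ) / (5 * c0) := by
      by_contra hh
      exact (h5 (not_le.1 hh)) h1
    have e0 : ∑ q ∈ Q s X, WP s q N u w * ∏ j, PN s q N (β j) =
        (∑ q ∈ D, WP s q N u w * ∏ j, PN s q N (β j)) + D3 β := by
      rw [hDd, hD3]
      exact (Finset.sum_sdiff hEQ).symm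
    have e : (∑ q ∈ D, WW s q u w * ∏ j, LL s q (pt (β j))) - ((c0 * X : ℝ) : ℂ) * MTW (im β) u w =
        D1 β + D2 β + ((∑ q ∈ Q s X, WP s q N u w * ∏ j, PN s q N (β j)) -
          ((c0 * X : ℝ) : ℂ) * SG (gW u w) N β) + ((c0 * X : ℝ) : ℂ) * D5 β - D3 β := by
      have e6 : D1 β + D2 β + ∑ q ∈ D, WP s q N u w * ∏ j, PN s q N (β j) =
          ∑ q ∈ D, WW s q u w * ∏ j, LL s q (pt (β j)) := by
        rw [hD1, hD2, ← Finset.sum_add_distrib, ← Finset.sum_add_distrib]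
        exact Finset.sum_congr rfl fun q _ => by ring
      rw [e0, ← e6, hD5]
      ring
    have h6 : ‖((c0 * X : ℝ) : ℂ) * D5 β‖ ≤ X ^ (1 - δ) / 5 := by
      rw [norm_mul, Complex.norm_real, Real.norm_of_nonneg (by positivity)]
      calc c0 * X * ‖D5 β‖ ≤ c0 * X * (X ^ (-δ) / (5 * c0)) := by gcongr
        _ = X ^ (-δ) * X / 5 := by field_simp
        _ = X ^ (1 - δ) / 5 := by
            nth_rewrite 2 [← Real.rpow_one X]
            rw [← Real.rpow_add hX0]; congr 2; ring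
    have h7 : ‖(∑ q ∈ D, WW s q u w * ∏ j, LL s q (pt (β j))) -
        ((c0 * X : ℝ) : ℂ) * MTW (im β) u w‖ ≤ X ^ (1 - δ) := by
      rw [e]
      refine (norm_sub_le _ _).trans ?_
      have k1 := norm_add_le (D1 β + D2 β + ((∑ q ∈ Q s X, WP s q N u w * ∏ j, PN s q N (β j)) -
          ((c0 * X : ℝ) : ℂ) * SG (gW u w) N β)) (((c0 * X : ℝ) : ℂ) * D5 β)
      have k2 := norm_add_le (D1 β + D2 β) ((∑ q ∈ Q s X, WP s q N u w * ∏ j, PN s q N (β j)) -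
          ((c0 * X : ℝ) : ℂ) * SG (gW u w) N β)
      have k3 := norm_add_le (D1 β) (D2 β)
      linarith [g4 β]
    exact absurd h7 (not_le.2 hβ)
  rw [← hA]
  refine (measure_mono hsub).trans ?_
  refine (measure_union_le _ _).trans ((add_le_add_right ((measure_union_le _ _).trans
    (add_le_add_right ((measure_union_le _ _).trans (add_le_add_right (measure_union_le _ _) _)) _)) _).trans ?_)
  have m1 : mS k A (Gd k A)ᶜ ≤ ENNReal.ofReal (CN * X ^ (k * θ - 2 * δ)) := by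
    refine (hNS A hA1).trans (ENNReal.ofReal_le_ofReal ?_)
    apply mul_le_mul_of_nonneg_left _ hCN.le
    rw [hA, ← Real.rpow_mul hX0.le]
    apply Real.rpow_le_rpow_of_exponent_le hX1
    have : 4 * δ ≤ θ := by linarith
    nlinarith
  have m2 := ch5 (θ := θ) (δ := δ) (F := D1) c1.measurable hX1 hC1.le (c := η / 8) (by linarith)
    (by rw [hD1]; exact g1')
  have m3 := ch5 (θ := θ) (δ := δ) (F := D2) c2.measurable hX1 hC2.le (c := η * τ / 8 - ν' / 4) (by linarith)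
    (by rw [hD2]; exact g2)
  have m4 := ch5 (θ := θ) (δ := δ) (F := D3) c3.measurable hX1 (C := C2 * ((CE + CW) * CP)) (by positivity)
    (c := ν' / 4) (by linarith) (by rw [hD3]; exact g3)
  have m5 : mS k A ({β | X ^ (-δ) / (5 * c0) < ‖D5 β‖} ∩ Gd k A) ≤
      ENNReal.ofReal (25 * c0 ^ 2 * C3 * X ^ (k * θ - 2 * δ)) := by
    rw [← Measure.restrict_apply' (Gd_meas k A)]
    have hmD : Measurable D5 := by
      rw [hD5]
      exact (meas_SG _ N).sub (meas_MTW hτ hτ1 hu hw)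
    have g5' : ∫⁻ β in Gd k A, ENNReal.ofReal (‖D5 β‖ ^ 2) ∂(mS k A) ≤
        ENNReal.ofReal (C3 * A ^ (k - τ / m)) := by
      rw [hD5]
      exact g5
    refine (cheb (g := fun β => ‖D5 β‖) hmD.norm.aemeasurable hlam5 g5').trans
      (ENNReal.ofReal_le_ofReal ?_)
    have e1 : (X ^ (-δ) / (5 * c0)) ^ 2 = X ^ (-(2 * δ)) / (25 * c0 ^ 2) := by
      rw [div_pow, ← Real.rpow_natCast, ← Real.rpow_mul hX0.le]
      norm_num
      rw [mul_pow]; norm_num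
      congr 2; ring
    rw [e1]
    have e2 : A ^ ((k : ℝ) - τ / m) ≤ X ^ (k * θ - 2 * δ) * X ^ (-(2 * δ)) := by
      rw [← Real.rpow_add hX0, hA, ← Real.rpow_mul hX0.le]
      apply Real.rpow_le_rpow_of_exponent_le hX1
      have h1 : θ * ((k : ℝ) - τ / m) = k * θ - η * τ := by rw [hη]; field_simp
      rw [h1]
      linarith
    have e3 : 0 < X ^ (-(2 * δ)) := by positivity
    rw [div_le_iff₀ (by positivity)]
    calc C3 * A ^ ((k : ℝ) - τ / m) ≤ C3 * (X ^ (k * θ - 2 * δ) * X ^ (-(2 * δ))) := by gcongr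
      _ = 25 * c0 ^ 2 * C3 * X ^ (k * θ - 2 * δ) * (X ^ (-(2 * δ)) / (25 * c0 ^ 2)) := by
          field_simp
  refine (add_le_add m1 (add_le_add m2 (add_le_add m3 (add_le_add m4 m5)))).trans ?_
  rw [← ENNReal.ofReal_add (by positivity) (by positivity), ← ENNReal.ofReal_add (by positivity) (by positivity),
    ← ENNReal.ofReal_add (by positivity) (by positivity), ← ENNReal.ofReal_add (by positivity) (by positivity)]
  apply ENNReal.ofReal_le_ofReal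
  calc CN * X ^ (k * θ - 2 * δ) + (25 * C1 * X ^ (k * θ - 2 * δ) + (25 * C2 * X ^ (k * θ - 2 * δ) +
        (25 * (C2 * ((CE + CW) * CP)) * X ^ (k * θ - 2 * δ) + 25 * c0 ^ 2 * C3 * X ^ (k * θ - 2 * δ))))
      = (CN + 25 * C1 + 25 * C2 + 25 * (C2 * ((CE + CW) * CP)) + 25 * c0 ^ 2 * C3) *
          X ^ (k * θ - 2 * δ) := by ring
    _ ≤ X ^ δ * X ^ (k * θ - 2 * δ) := by gcongr
    _ = X ^ (k * θ - δ) := by rw [← Real.rpow_add hX0]; congr 1; ring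

end

end Pool.Agent.V8H6.RW
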