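import Pool.Agent.V8H6.RW.CoefB
import Pool.Agent.V8H6.RW.ZrG
import Pool.Agent.N879.QM.Asm2
import Pool.Agent.N879.QM.Asm3
import Pool.Agent.N879.QM.AsmB

set_option autoImplicit false

/-! Weighted moments: measurability, the mean square of the main term. -/

namespace Pool.Agent.V8H6.RW

open Complex hiding im
open Filter Topology MeasureTheory Set
open Pool.Agent.N879.QM

noncomputable section

variable {k a b r : ℕ}

lemma meas_pw (j : Fin k) (m : ℕ) : Measurable fun β : Fin k → ℝ => Eul.pw (Eul.sx β j) m := by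
  have e : (fun β : Fin k → ℝ => Eul.pw (Eul.sx β j) m) = fun β =>
      if m = 0 then 0 else (m : ℂ) ^ (Eul.sx β j) := by
    funext β
    rfl
  rw [e]
  by_cases h : m = 0
  · simp only [h, if_true]
    exact measurable_const
  · simp only [h, if_false]
    refine Measurable.pow measurable_const ?_
    unfold Eul.sx
    exact ((pt_cont.measurable.comp (measurable_pi_apply j)).neg)

open Classical in
lemma meas_pwprod (t : Finset (Fin k)) : ∀ m : ℕ, Measurable fun β : Fin k → ℝ =>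
    (∏ j ∈ t, Eul.pw (Eul.sx β j)) m := by
  induction t using Finset.induction_on with
  | empty =>
    intro m
    simp only [Finset.prod_empty]
    exact measurable_const
  | insert c t ha ih =>
    intro m
    simp only [Finset.prod_insert ha]
    exact meas_mul (meas_pw c) ih m

lemma meas_gG (g : Fin r → ArithmeticFunction ℂ) (m : ℕ) : Measurable fun β : Fin k → ℝ => gG g β m := by
  have e : (fun β : Fin k → ℝ => gG g β m) = fun β =>
      if m = 0 then 0 else (af m : ℂ) * ((∏ j, Eul.pw (Eul.sx β j)) * ∏ i, g i) (m ^ 2) := by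
    funext β
    rfl
  rw [e]
  by_cases h : m = 0
  · simp only [h, if_true]
    exact measurable_const
  · simp only [h, if_false]
    exact measurable_const.mul (meas_mul (meas_pwprod Finset.univ) (fun _ => measurable_const) _)

lemma meas_alG (g : Fin r → ArithmeticFunction ℂ) (m : ℕ) : Measurable fun β : Fin k → ℝ => alG g β m := by
  classical
  unfold alG
  exact meas_mul (meas_gG g) (meas_prod Finset.univ) m

lemma meas_AkW {τ : ℝ} (hτ : 0 < τ) (hτ1 : τ ≤ 1 / 8) {u : Fin a → ℂ} {v : Fin b → ℂ}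
    (hu : ∀ i, 1 / 2 + 2 * τ ≤ (u i).re) (hv : ∀ i, 1 / 2 + 2 * τ ≤ (v i).re) :
    Measurable fun β : Fin k → ℝ => AkW (im β) u v := by
  obtain ⟨C, hC, h⟩ := eulG k a b hτ hτ1
  refine measurable_of_tendsto_metrizable (f := fun (M : ℕ) (β : Fin k → ℝ) =>
    ∑ m ∈ Finset.Icc 1 M, alG (gW u v) β m)
    (fun M => Finset.measurable_sum _ fun m _ => meas_alG (gW u v) m) ?_
  rw [tendsto_pi_nhds]
  intro β
  rw [tendsto_iff_norm_sub_tendsto_zero]
  have h1 : Tendsto (fun M : ℕ => C * (M : ℝ) ^ (-τ)) atTop (𝓝 0) := by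
    have := (tendsto_rpow_neg_atTop (y := τ) hτ).comp tendsto_natCast_atTop_atTop
    simpa using this.const_mul C
  refine squeeze_zero' (Eventually.of_forall fun M => norm_nonneg _) ?_ h1
  filter_upwards [eventually_ge_atTop 1] with M hM
  rw [norm_sub_rev]
  exact (h u v hu hv β).2 M hM

lemma meas_MTW {τ : ℝ} (hτ : 0 < τ) (hτ1 : τ ≤ 1 / 8) {u : Fin a → ℂ} {v : Fin b → ℂ}
    (hu : ∀ i, 1 / 2 + 2 * τ ≤ (u i).re) (hv : ∀ i, 1 / 2 + 2 * τ ≤ (v i).re) :
    Measurable fun β : Fin k → ℝ => MTW (im β) u v := by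
  unfold MTW
  refine (meas_AkW hτ hτ1 hu hv).mul (Finset.measurable_prod _ fun r _ => meas_zeta.comp ?_)
  have : Continuous fun β : Fin k → ℝ => (1 + im β r.1.1 + im β r.1.2 : ℂ) := by
    unfold im
    fun_prop
  exact this.measurable

lemma meas_SG (g : Fin r → ArithmeticFunction ℂ) (N : ℕ) : Measurable fun β : Fin k → ℝ => SG g N β := by
  classical
  unfold SG
  refine Finset.measurable_sum _ fun n _ => Finset.measurable_sum _ fun m _ => ?_
  split_ifs
  · exact (measurable_const.mul (meas_cx n)).mul measurable_const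
  · exact measurable_const

/-- the mean square of the difference between the diagonal sum and the main term -/
theorem e3G (hfl : S_FL) (k a b : ℕ) (hk : 1 ≤ k) {τ : ℝ} (hτ : 0 < τ) (hτ1 : τ ≤ 1 / 8) :
    ∃ m₀ : ℕ, ∀ m : ℕ, m₀ ≤ m → 1 ≤ m → ∃ C A₀ : ℝ, 0 < C ∧
      ∀ (u : Fin a → ℂ) (w : Fin b → ℂ), (∀ i, 1 / 2 + 2 * τ ≤ (u i).re) →
      (∀ i, 1 / 2 + 2 * τ ≤ (w i).re) → ∀ (A : ℝ) (N : ℕ), A₀ ≤ A → 2 ≤ A →
      A ^ (1 / m : ℝ) / 2 ≤ N → (N : ℝ) ≤ A ^ (1 / m : ℝ) → 1 ≤ N →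
      ∫⁻ β in Gd k A, ENNReal.ofReal (‖SG (gW u w) N β - MTW (im β) u w‖ ^ 2) ∂(mS k A) ≤
        ENNReal.ofReal (C * A ^ (k - τ / m)) := by
  obtain ⟨C1, B1, hC1, hC⟩ := CoefG.coefG hfl k (a + b) hτ hτ1
  obtain ⟨C2, A₀, B2, hC2, hA₀, hZ⟩ := zrG k a b hτ hτ1
  refine ⟨B1 + 2, ?_⟩
  intro m hm hm1
  have hm0 : (0 : ℝ) < m := by exact_mod_cast hm1
  set η : ℝ := 1 / m with hη
  have hη0 : 0 < η := by positivity
  have hk1 : (1 : ℝ) ≤ k := by exact_mod_cast hk
  -- logarithms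
  have hlog := log_small B2 (θ := 1) one_pos (ρ := τ * η) (by positivity)
  obtain ⟨X1, hX1'⟩ := eventually_atTop.1 hlog
  refine ⟨2 * (C2 * (2 + 2)) + 2 * (C1 * 2), max X1 A₀, by positivity, ?_⟩
  intro u w hu hw A N hX hX2 hN1 hN2 hN
  have hA0 : 0 < A := by linarith
  have hA1 : 1 ≤ A := by linarith
  have hN0 : (0 : ℝ) < N := by exact_mod_cast hN
  have hN1' : (1 : ℝ) ≤ N := by exact_mod_cast hN
  have hη1 : η ≤ 1 / 2 := by
    rw [hη]
    apply one_div_le_one_div_of_le (by norm_num)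
    have : (2 : ℕ) ≤ m := by omega
    exact_mod_cast this
  -- sizes
  have hB : (N : ℝ) ^ B1 ≤ A := by
    calc (N : ℝ) ^ B1 ≤ (A ^ η) ^ B1 := pow_le_pow_left₀ hN0.le hN2 _
      _ = A ^ (η * B1) := by rw [← Real.rpow_natCast, ← Real.rpow_mul hA0.le]
      _ ≤ A ^ (1 : ℝ) := by
          apply Real.rpow_le_rpow_of_exponent_le hA1
          rw [hη, one_div, inv_mul_le_iff₀ hm0, mul_one]
          exact_mod_cast (by omega : B1 ≤ m)
      _ = A := Real.rpow_one A
  have hY : (N : ℝ) ≤ A ^ (1 / 2 : ℝ) :=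
    hN2.trans (Real.rpow_le_rpow_of_exponent_le hA1 hη1)
  have hneg : ∀ c : ℝ, 0 ≤ c → c ≤ 1 → (N : ℝ) ^ (-c) ≤ 2 * A ^ (-(c * η)) := by
    intro c hc hc1
    have h1 : (N : ℝ) ^ (-c) ≤ (A ^ η / 2) ^ (-c) :=
      Real.rpow_le_rpow_of_nonpos (by positivity) hN1 (by linarith)
    refine h1.trans ?_
    rw [Real.div_rpow (by positivity) (by norm_num), ← Real.rpow_mul hA0.le, div_eq_mul_inv,
      ← Real.rpow_neg (by norm_num), neg_neg, mul_comm]
    have h2 : (2 : ℝ) ^ c ≤ 2 := by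
      calc (2 : ℝ) ^ c ≤ 2 ^ (1 : ℝ) := Real.rpow_le_rpow_of_exponent_le (by norm_num) hc1
        _ = 2 := Real.rpow_one 2
    have h3 : η * -c = -(c * η) := by ring
    rw [h3]
    exact mul_le_mul_of_nonneg_right h2 (by positivity)
  have hM1 : 1 ≤ N ^ (k + (a + b)) := Nat.one_le_pow _ _ hN
  have z1 := hZ u w hu hw A N (N ^ (k + (a + b))) (le_trans (le_max_right _ _) hX) hN hM1 hY
  have z2 := hC A N (gW u w) (fun i m hm => EulG.gW_bd hu hw i hm) hN hB
  -- numbers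
  have hl0 : 0 ≤ Real.log A := Real.log_nonneg (by linarith)
  have n1 : Real.log A ^ B2 ≤ A ^ (τ * η) := by
    have := hX1' A (le_trans (le_max_left _ _) hX)
    rwa [one_mul] at this
  have n2 : (N : ℝ) ^ (-1 : ℝ) ≤ 2 * A ^ (-(2 * τ * η)) := by
    refine (hneg 1 (by norm_num) le_rfl).trans ?_
    apply mul_le_mul_of_nonneg_left _ (by norm_num)
    apply Real.rpow_le_rpow_of_exponent_le hA1
    nlinarith
  have n4 : (N : ℝ) ^ (-(2 * τ)) ≤ 2 * A ^ (-(2 * τ * η)) := hneg (2 * τ) (by linarith) (by linarith)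
  have n3 : (((N ^ (k + (a + b)) : ℕ)) : ℝ) ^ (-(2 * τ)) ≤ 2 * A ^ (-(2 * τ * η)) := by
    refine le_trans ?_ n4
    apply Real.rpow_le_rpow_of_nonpos hN0 _ (by linarith)
    push_cast
    exact le_self_pow₀ hN1' (by omega)
  have hXk : A ^ k * (A ^ (τ * η) * A ^ (-(2 * τ * η))) = A ^ (k - τ / m) := by
    rw [← Real.rpow_natCast, ← Real.rpow_add hA0, ← Real.rpow_add hA0]; congr 1; rw [hη]; field_simp
    ring
  have hXk2 : A ^ k * A ^ (-(2 * τ * η)) ≤ A ^ (k - τ / m) := by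
    rw [← Real.rpow_natCast, ← Real.rpow_add hA0]
    apply Real.rpow_le_rpow_of_exponent_le hA1
    have : τ / m = τ * η := by rw [hη]; ring
    rw [this]
    nlinarith [mul_pos hτ hη0]
  have b1 : C2 * Real.log A ^ B2 * A ^ k *
      ((N : ℝ) ^ (-1 : ℝ) + (((N ^ (k + (a + b)) : ℕ)) : ℝ) ^ (-(2 * τ))) ≤
      C2 * (2 + 2) * A ^ (k - τ / m) := by
    calc C2 * Real.log A ^ B2 * A ^ k *
        ((N : ℝ) ^ (-1 : ℝ) + (((N ^ (k + (a + b)) : ℕ)) : ℝ) ^ (-(2 * τ)))
        ≤ C2 * A ^ (τ * η) * A ^ k * (2 * A ^ (-(2 * τ * η)) + 2 * A ^ (-(2 * τ * η))) := by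
          gcongr
      _ = C2 * (2 + 2) * (A ^ k * (A ^ (τ * η) * A ^ (-(2 * τ * η)))) := by ring
      _ = _ := by rw [hXk]
  have b2 : C1 * A ^ k * (N : ℝ) ^ (-(2 * τ)) ≤ C1 * 2 * A ^ (k - τ / m) := by
    calc C1 * A ^ k * (N : ℝ) ^ (-(2 * τ)) ≤ C1 * A ^ k * (2 * A ^ (-(2 * τ * η))) := by
          gcongr
      _ = C1 * 2 * (A ^ k * A ^ (-(2 * τ * η))) := by ring
      _ ≤ _ := mul_le_mul_of_nonneg_left hXk2 (by positivity)
  set P : (Fin k → ℝ) → ℂ := fun β =>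
    (∑ m ∈ Finset.Icc 1 (N ^ (k + (a + b))), alG (gW u w) β m) * ∏ r : Pr k, zN N (pp β r) with hP
  have mP : Measurable P :=
    (Finset.measurable_sum _ fun m _ => meas_alG _ m).mul (Finset.measurable_prod _ fun r _ => meas_zN N r)
  have key := lint_add_sq (μ := (mS k A).restrict (Gd k A)) (f := fun β => -(MTW (im β) u w - P β))
    (g := fun β => -(P β - SG (gW u w) N β)) (h := fun β => SG (gW u w) N β - MTW (im β) u w)
    ((meas_MTW hτ hτ1 hu hw).sub mP).neg (mP.sub (meas_SG _ N)).neg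
    (a := C2 * (2 + 2) * A ^ (k - τ / m)) (b := C1 * 2 * A ^ (k - τ / m))
    (by positivity) (by positivity) (by
      simp only [norm_neg]
      exact z1.trans (ENNReal.ofReal_le_ofReal b1)) (by
      simp only [norm_neg]
      refine (lintegral_mono' Measure.restrict_le_self le_rfl).trans ?_
      exact z2.trans (ENNReal.ofReal_le_ofReal b2)) (fun β => by ring)
  refine key.trans (ENNReal.ofReal_le_ofReal (le_of_eq ?_))
  ring

end

end Pool.Agent.V8H6.RW
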