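import Pool.Agent.V8H6.RW.Off2

set_option autoImplicit false

/-! Weighted moments: replacement of the factors, diagonal terms. -/

namespace Pool.Agent.V8H6.RW

open Complex hiding im
open Filter Topology MeasureTheory Set
open Pool.Agent.N879.QM
open scoped BigOperators

noncomputable section

variable {k a b r : ℕ}

/-- replacement of all the factors, with weights -/
theorem telW (k : ℕ) (D : Finset ℕ) (c : ℕ → ℂ) (f g : ℕ → ℝ → ℂ) (A K V : ℝ) (hA : 0 < A) (hK : 0 ≤ K)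
    (hV : 0 ≤ V) (hf : ∀ q ∈ D, Continuous (f q)) (hg : ∀ q ∈ D, Continuous (g q))
    (h1 : ∀ c : ℕ → ℂ, ∫ α in (-A)..A, ‖∑ q ∈ D, c q * (f q α - g q α)‖ ^ 2 ≤ K * ∑ q ∈ D, ‖c q‖ ^ 2)
    (h2 : ∀ q ∈ D, ∫ α in (-A)..A, ‖f q α‖ ^ 2 ≤ V) (h3 : ∀ q ∈ D, ∫ α in (-A)..A, ‖g q α‖ ^ 2 ≤ V) :
    ∫⁻ β, ENNReal.ofReal (‖∑ q ∈ D, c q * (∏ j, f q (β j) - ∏ j, g q (β j))‖ ^ 2) ∂(mS k A) ≤
      ENNReal.ofReal (4 ^ k * K * V ^ (k - 1) * ∑ q ∈ D, ‖c q‖ ^ 2) := by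
  classical
  set f' : ℕ → ℝ → ℂ := fun q => if q ∈ D then f q else fun _ => 0 with hf'
  set g' : ℕ → ℝ → ℂ := fun q => if q ∈ D then g q else fun _ => 0 with hg'
  have ef : ∀ q ∈ D, f' q = f q := fun q hq => if_pos hq
  have eg : ∀ q ∈ D, g' q = g q := fun q hq => if_pos hq
  have cf : ∀ q, Continuous (f' q) := by
    intro q
    by_cases hq : q ∈ D
    · rw [ef q hq]
      exact hf q hq
    · rw [hf']
      simp only [if_neg hq]
      exact continuous_const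
  have cg : ∀ q, Continuous (g' q) := by
    intro q
    by_cases hq : q ∈ D
    · rw [eg q hq]
      exact hg q hq
    · rw [hg']
      simp only [if_neg hq]
      exact continuous_const
  have hAA : -A ≤ A := by linarith
  have h := Tel.core D f' g' A K V hK hV cf cg (fun c => by
      rw [Tel.lint1 hAA (by fun_prop) fun y => sq_nonneg _]
      apply ENNReal.ofReal_le_ofReal
      refine le_trans (le_of_eq ?_) (h1 c)
      congr 1
      funext α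
      congr 2
      refine Finset.sum_congr rfl fun q hq => ?_
      rw [ef q hq, eg q hq])
    (fun q hq => by
      have cfq := cf q
      rw [Tel.lint1 hAA (by fun_prop : Continuous fun y => ‖f' q y‖ ^ 2) fun y => sq_nonneg _, ef q hq]
      exact ENNReal.ofReal_le_ofReal (h2 q hq))
    (fun q hq => by
      have cgq := cg q
      rw [Tel.lint1 hAA (by fun_prop : Continuous fun y => ‖g' q y‖ ^ 2) fun y => sq_nonneg _, eg q hq]
      exact ENNReal.ofReal_le_ofReal (h3 q hq)) k c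
  refine le_trans (le_of_eq ?_) (h.trans (ENNReal.ofReal_le_ofReal ?_))
  · refine lintegral_congr fun β => ?_
    congr 3
    refine Finset.sum_congr rfl fun q hq => ?_
    rw [ef q hq, eg q hq]
  · refine mul_le_mul_of_nonneg_right ?_ (Finset.sum_nonneg fun _ _ => by positivity)
    unfold Tel.bb
    refine mul_le_mul_of_nonneg_right (mul_le_mul_of_nonneg_right ?_ hK) (pow_nonneg hV _)
    have e : (4 : ℝ) ^ k = (2 ^ k) ^ 2 := by
      rw [← pow_mul, mul_comm, pow_mul]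
      norm_num
    rw [e, pow_succ]
    nlinarith [sq_nonneg ((2 : ℝ) ^ k - 1)]

/-- the first mean square -/
lemma e1W (hk : 1 ≤ k) {θ η : ℝ} (hθ : 0 < θ) (hθ1 : θ ≤ 1)
    (hη : 0 < η) (hη1 : η ≤ θ / 4) :
    ∃ C X₀ : ℝ, 0 < C ∧ ∀ (s : ℤ) (X : ℝ) (N : ℕ) (D : Finset ℕ) (c : ℕ → ℂ), s = 1 ∨ s = -1 → X₀ ≤ X →
      X ^ η / 2 ≤ N → (N : ℝ) ≤ X ^ η → 1 ≤ N → D ⊆ Q s X \ Ex s X (X ^ θ) (η / (8 * k)) →
      ∫⁻ β, ENNReal.ofReal (‖∑ q ∈ D, c q * (∏ j, LL s q (pt (β j)) - ∏ j, PN s q N (β j))‖ ^ 2)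
        ∂(mS k (X ^ θ)) ≤ ENNReal.ofReal (C * X ^ (k * θ + 1 - η / 4) * ∑ q ∈ D, ‖c q‖ ^ 2) := by
  classical
  have hP := t_P1
  have hO : S_OPB := t_OPB (t_P2 (t_GK t_UNI)) (t_MID (t_BLK t_MVG) t_HBG t_WQ)
    (t_BIGP (t_BLK t_MVG) t_LSB t_PVI) t_AFS t_CTS
  have hc := t_CTS
  have hk0 : (0 : ℝ) < k := by exact_mod_cast hk
  set ρ : ℝ := η / (8 * k) with hρ
  have hρ0 : 0 < ρ := by positivity
  obtain ⟨CO, hCO, hO⟩ := hO ρ hρ0
  obtain ⟨CP, hCP, hP⟩ := hP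
  have ev1 := log_small 1 hθ hρ0
  have ev2 : ∀ᶠ X : ℝ in atTop, 2 ≤ X ^ θ := (tendsto_rpow_atTop hθ).eventually_ge_atTop _
  obtain ⟨X₀, hX₀⟩ := eventually_atTop.1 ((ev1.and ev2).and (eventually_ge_atTop 2))
  refine ⟨4 ^ k * CO * (1 + CP) ^ (k - 1) * 4, X₀, by positivity, ?_⟩
  intro s X N D c hs hX hN hNX hN1 hDE
  obtain ⟨⟨v1, v2⟩, v3⟩ := hX₀ X hX
  have hX0 : 0 < X := by linarith
  have hX1 : 1 ≤ X := by linarith
  set A : ℝ := X ^ θ with hA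
  have hAX : A ≤ X := by
    rw [hA]
    calc X ^ θ ≤ X ^ (1 : ℝ) := Real.rpow_le_rpow_of_exponent_le hX1 hθ1
      _ = X := Real.rpow_one X
  have hA0 : 0 < A := by linarith
  have hN0 : (0 : ℝ) < N := by exact_mod_cast hN1
  have hNA : (N : ℝ) ≤ A := by
    refine hNX.trans ?_
    apply Real.rpow_le_rpow_of_exponent_le hX1
    linarith
  set d : ℝ := θ / 6 with hd
  set K0 : ℝ := CO * X ^ ρ * A * (X / √N + X ^ (1 + d) * A ^ (-(1 / 3) : ℝ) + X ^ (1 - d)) with hK0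
  set V0 : ℝ := (1 + CP) * (A * X ^ ρ) with hV0
  have hK0' : 0 ≤ K0 := by positivity
  have hV0' : 0 ≤ V0 := by positivity
  have hDQ : D ⊆ Q s X := hDE.trans Finset.sdiff_subset
  have hlogA : Real.log A ≤ X ^ ρ := by
    rw [hA, Real.log_rpow hX0]
    simpa using v1
  have h1 := telW k D c (fun q α => LL s q (pt α)) (fun q => PN s q N) A K0 V0 hA0 hK0' hV0'
    (fun q hq => hc s q (Q_is (hDQ hq)).1) (fun q _ => PN_cont s q N)
    (fun c => by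
      have h2 := hO s X A d N (fun q => if q ∈ D then c q else 0) hs v2 hAX (by positivity) (by rw [hd]; linarith) hN1
      have e1 : ∀ α : ℝ, ∑ q ∈ Q s X, (if q ∈ D then c q else 0) * (LL s q (pt α) - PN s q N α) =
          ∑ q ∈ D, c q * (LL s q (pt α) - PN s q N α) := by
        intro α
        rw [← Finset.sum_subset hDQ (fun q _ hq => by rw [if_neg hq, zero_mul])]
        exact Finset.sum_congr rfl fun q hq => by rw [if_pos hq]
      have e2 : ∑ q ∈ Q s X, ‖(if q ∈ D then c q else 0)‖ ^ 2 = ∑ q ∈ D, ‖c q‖ ^ 2 := by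
        rw [← Finset.sum_subset hDQ (fun q _ hq => by rw [if_neg hq]; simp)]
        exact Finset.sum_congr rfl fun q hq => by rw [if_pos hq]
      simp only [e1, e2] at h2
      exact h2)
    (fun q hq => by
      have h2 : ¬ (A * X ^ ρ < ∫ α in (-A)..A, ‖LL s q (pt α)‖ ^ 2) := by
        intro h3
        exact (Finset.mem_sdiff.1 (hDE hq)).2 (Finset.mem_filter.2 ⟨hDQ hq, h3⟩)
      refine (not_lt.1 h2).trans ?_
      rw [hV0]
      have : 0 ≤ CP * (A * X ^ ρ) := by positivity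
      linarith)
    (fun q hq => by
      have h2 := (hP A N (fun n => vl s q n) v2 hNA (fun n => vl_le s q n)).2
      refine le_trans h2 ?_
      rw [hV0]
      have h3 : CP * A * Real.log A ≤ CP * A * X ^ ρ := mul_le_mul_of_nonneg_left hlogA (by positivity)
      have : 0 ≤ A * X ^ ρ := by positivity
      linarith)
  refine h1.trans (ENNReal.ofReal_le_ofReal ?_)
  refine mul_le_mul_of_nonneg_right ?_ (Finset.sum_nonneg fun _ _ => by positivity)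
  -- numbers
  have e1 : X / √N ≤ 2 * X ^ (1 - η / 2) := by
    have h2 : √(X ^ η / 2) ≤ √N := Real.sqrt_le_sqrt hN
    have h4 : X ^ (η / 2) / 2 ≤ √(X ^ η / 2) := by
      apply Real.le_sqrt_of_sq_le
      have h5 : (X ^ (η / 2)) ^ 2 = X ^ η := by
        rw [← Real.rpow_natCast, ← Real.rpow_mul hX0.le]
        congr 1
        push_cast; linarith
      have : (X ^ (η / 2) / 2) ^ 2 = (X ^ (η / 2)) ^ 2 / 4 := by ring
      rw [this, h5]
      have : 0 < X ^ η := by positivity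
      linarith
    have h3 : 0 < X ^ (η / 2) := by positivity
    rw [div_le_iff₀ (by linarith)]
    have h6 : X = X ^ (1 - η / 2) * X ^ (η / 2) := by
      rw [← Real.rpow_add hX0]; ring_nf; exact (Real.rpow_one X).symm
    have h7 : 0 < X ^ (1 - η / 2) := by positivity
    calc X = 2 * X ^ (1 - η / 2) * (X ^ (η / 2) / 2) := by rw [mul_assoc]; nth_rewrite 1 [h6]; ring
      _ ≤ 2 * X ^ (1 - η / 2) * √N := by
          apply mul_le_mul_of_nonneg_left _ (by positivity)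
          linarith
  have e2 : X ^ (1 + d) * A ^ (-(1 / 3) : ℝ) ≤ X ^ (1 - η / 2) := by
    rw [hA, ← Real.rpow_mul hX0.le, ← Real.rpow_add hX0]
    apply Real.rpow_le_rpow_of_exponent_le hX1
    rw [hd]; linarith
  have e3 : X ^ (1 - d) ≤ X ^ (1 - η / 2) := by
    apply Real.rpow_le_rpow_of_exponent_le hX1
    rw [hd]; linarith
  have e4 : X / √N + X ^ (1 + d) * A ^ (-(1 / 3) : ℝ) + X ^ (1 - d) ≤ 4 * X ^ (1 - η / 2) := by linarith
  have hAk : A ^ k = X ^ (k * θ) := by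
    rw [hA, ← Real.rpow_natCast, ← Real.rpow_mul hX0.le]
    congr 1; ring
  have e5 : K0 * V0 ^ (k - 1) ≤ CO * (1 + CP) ^ (k - 1) * (X ^ (k * θ) * (X ^ ρ) ^ k) * (4 * X ^ (1 - η / 2)) := by
    have h2 : X ^ (k * θ) * (X ^ ρ) ^ k = A * X ^ ρ * (A * X ^ ρ) ^ (k - 1) := by
      rw [← hAk, ← mul_pow, ← pow_succ']; congr 1; omega
    rw [hK0, hV0, mul_pow, h2]
    have : CO * X ^ ρ * A * (X / √N + X ^ (1 + d) * A ^ (-(1 / 3) : ℝ) + X ^ (1 - d)) *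
        ((1 + CP) ^ (k - 1) * (A * X ^ ρ) ^ (k - 1)) =
      CO * (1 + CP) ^ (k - 1) * (A * X ^ ρ * (A * X ^ ρ) ^ (k - 1)) *
        (X / √N + X ^ (1 + d) * A ^ (-(1 / 3) : ℝ) + X ^ (1 - d)) := by ring
    rw [this]
    exact mul_le_mul_of_nonneg_left e4 (by positivity)
  have e6 : (X ^ ρ) ^ k = X ^ (η / 8) := by
    rw [← Real.rpow_natCast, ← Real.rpow_mul hX0.le]
    congr 1
    rw [hρ]
    field_simp
  have e8 : X ^ (k * θ) * X ^ (η / 8) * X ^ (1 - η / 2) ≤ X ^ (k * θ + 1 - η / 4) := by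
    rw [← Real.rpow_add hX0, ← Real.rpow_add hX0]
    apply Real.rpow_le_rpow_of_exponent_le hX1
    linarith
  calc 4 ^ k * K0 * V0 ^ (k - 1) = 4 ^ k * (K0 * V0 ^ (k - 1)) := by ring
    _ ≤ 4 ^ k * (CO * (1 + CP) ^ (k - 1) * (X ^ (k * θ) * (X ^ ρ) ^ k) * (4 * X ^ (1 - η / 2))) := by gcongr
    _ = 4 ^ k * CO * (1 + CP) ^ (k - 1) * 4 * (X ^ (k * θ) * X ^ (η / 8) * X ^ (1 - η / 2)) := by
        rw [e6]; ring
    _ ≤ _ := mul_le_mul_of_nonneg_left e8 (by positivity)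

/-- the Cauchy inequality with weights -/
lemma cauchyW (E : Finset ℕ) (c x : ℕ → ℂ) :
    ‖∑ q ∈ E, c q * x q‖ ^ 2 ≤ (∑ q ∈ E, ‖c q‖) * ∑ q ∈ E, ‖c q‖ * ‖x q‖ ^ 2 := by
  have h1 : ‖∑ q ∈ E, c q * x q‖ ≤ ∑ q ∈ E, √‖c q‖ * (√‖c q‖ * ‖x q‖) := by
    refine (norm_sum_le _ _).trans (le_of_eq ?_)
    refine Finset.sum_congr rfl fun q _ => ?_
    rw [norm_mul, ← mul_assoc, Real.mul_self_sqrt (norm_nonneg _)]
  have h2 := Finset.sum_mul_sq_le_sq_mul_sq E (fun q => √‖c q‖) (fun q => √‖c q‖ * ‖x q‖)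
  calc ‖∑ q ∈ E, c q * x q‖ ^ 2 ≤ (∑ q ∈ E, √‖c q‖ * (√‖c q‖ * ‖x q‖)) ^ 2 :=
        pow_le_pow_left₀ (norm_nonneg _) h1 2
    _ ≤ (∑ q ∈ E, √‖c q‖ ^ 2) * ∑ q ∈ E, (√‖c q‖ * ‖x q‖) ^ 2 := h2
    _ = _ := by
        congr 1
        · exact Finset.sum_congr rfl fun q _ => Real.sq_sqrt (norm_nonneg _)
        · exact Finset.sum_congr rfl fun q _ => by rw [mul_pow, Real.sq_sqrt (norm_nonneg _)]

/-- sums with small weights -/
theorem rmvW (k : ℕ) : ∃ C : ℝ, 0 < C ∧ ∀ (s : ℤ) (A : ℝ) (N : ℕ) (E : Finset ℕ) (c : ℕ → ℂ), 2 ≤ A → 1 ≤ N →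
    (N : ℝ) ≤ A →
    ∫⁻ β, ENNReal.ofReal (‖∑ q ∈ E, c q * ∏ j, PN s q N (β j)‖ ^ 2) ∂(mS k A) ≤
      ENNReal.ofReal (C * A ^ k * Real.log A ^ k * (∑ q ∈ E, ‖c q‖) ^ 2) := by
  obtain ⟨C, hC, hP⟩ := t_P1
  refine ⟨C ^ k, by positivity, fun s A N E c hA hN hNA => ?_⟩
  have hlog : 0 ≤ Real.log A := Real.log_nonneg (by linarith)
  obtain ⟨V, hV⟩ : ∃ V, V = C * A * Real.log A := ⟨_, rfl⟩
  have hV0 : 0 ≤ V := by rw [hV]; positivity
  have h1 : ∀ q, ∫⁻ y, ENNReal.ofReal (‖PN s q N y‖ ^ 2) ∂(volume.restrict (Icc (-A) A)) ≤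
      ENNReal.ofReal V := by
    intro q
    have hc0 := PN_cont s q N
    have hc1 : Continuous fun y => ‖PN s q N y‖ ^ 2 := by fun_prop
    rw [Tel.lint1 (h := fun y => ‖PN s q N y‖ ^ 2) (by linarith) hc1 (fun y => sq_nonneg _)]
    refine ENNReal.ofReal_le_ofReal ?_
    rw [hV]
    exact (hP A N (fun n => vl s q n) hA hNA (fun n => vl_le s q n)).2
  have h2 : ∀ q, ∫⁻ γ, ENNReal.ofReal (‖∏ i, PN s q N (γ i)‖ ^ 2) ∂(mS k A) ≤
      ENNReal.ofReal (V ^ k) := fun q => Tel.pmom hV0 (PN_cont s q N) (h1 q) k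
  have hm : ∀ q, Measurable fun β : Fin k → ℝ => ‖∏ j, PN s q N (β j)‖ ^ 2 := by
    intro q
    have hc0 := PN_cont s q N
    have hc1 : Continuous fun β : Fin k → ℝ => ‖∏ j, PN s q N (β j)‖ ^ 2 := by fun_prop
    exact hc1.measurable
  have hS0 : 0 ≤ ∑ q ∈ E, ‖c q‖ := Finset.sum_nonneg fun _ _ => norm_nonneg _
  have h3 := Tel.wsum (mS k A) E (fun q => ‖c q‖) (fun q β => ‖∏ j, PN s q N (β j)‖ ^ 2)
    (B := ∑ q ∈ E, ‖c q‖) (C := V ^ k) hS0 (fun _ _ => norm_nonneg _)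
    (fun _ _ _ => sq_nonneg _) hm (by positivity) (fun q _ => h2 q)
  have h4 : ∫⁻ β, ENNReal.ofReal (‖∑ q ∈ E, c q * ∏ j, PN s q N (β j)‖ ^ 2) ∂(mS k A) ≤
      ∫⁻ β, ENNReal.ofReal ((∑ q ∈ E, ‖c q‖) * ∑ q ∈ E, ‖c q‖ * ‖∏ j, PN s q N (β j)‖ ^ 2) ∂(mS k A) :=
    lintegral_mono fun β => ENNReal.ofReal_le_ofReal (cauchyW E c fun q => ∏ j, PN s q N (β j))
  have h5 : (∑ q ∈ E, ‖c q‖) * V ^ k * ∑ q ∈ E, ‖c q‖ =
      C ^ k * A ^ k * Real.log A ^ k * (∑ q ∈ E, ‖c q‖) ^ 2 := by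
    rw [hV, mul_pow, mul_pow]
    ring
  rw [← h5]
  exact h4.trans h3

/-- the product of short polynomials, with weights -/
theorem diagW (k r : ℕ) : ∃ C : ℝ, 0 < C ∧ ∀ (s : ℤ) (X : ℝ) (N : ℕ) (g : Fin r → ArithmeticFunction ℂ)
    (β : Fin k → ℝ), s = 1 ∨ s = -1 → 1 ≤ X → 1 ≤ N →
    (∀ i (m : ℕ), 1 ≤ m → ‖g i m‖ ≤ (m : ℝ) ^ (-(1 / 2) : ℝ)) →
    ‖(∑ q ∈ Q s X, (∏ i, DG (g i) s q N) * ∏ j, PN s q N (β j)) - ((c0 * X : ℝ) : ℂ) * SG g N β‖ ≤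
      C * √X * (N : ℝ) ^ (k + r) := by
  classical
  obtain ⟨C, hC, hA⟩ := t_AVG t_UNI
  refine ⟨C, hC, fun s X N g β hs hX hN hg => ?_⟩
  have hexp : ∀ q, (∏ i, DG (g i) s q N) * ∏ j, PN s q N (β j) =
      ∑ n ∈ tup k N, ∑ m ∈ tup r N, vl s q ((∏ j, n j) * ∏ i, m i) * (cx n β * ∏ i, g i (m i)) := by
    intro q
    rw [DiagA.expand]
    have e : ∏ i, DG (g i) s q N = ∑ m ∈ tup r N, vl s q (∏ i, m i) * ∏ i, g i (m i) := by
      unfold DG tup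
      rw [Finset.prod_univ_sum]
      refine Finset.sum_congr rfl fun m _ => ?_
      rw [Finset.prod_mul_distrib, DiagA.vl_prod]
    rw [e, mul_comm, Finset.sum_mul_sum]
    refine Finset.sum_congr rfl fun n _ => Finset.sum_congr rfl fun m _ => ?_
    rw [vl_mul]
    ring
  have e1 : ∑ q ∈ Q s X, (∏ i, DG (g i) s q N) * ∏ j, PN s q N (β j) =
      ∑ n ∈ tup k N, ∑ m ∈ tup r N, (∑ q ∈ Q s X, vl s q ((∏ j, n j) * ∏ i, m i)) *
        (cx n β * ∏ i, g i (m i)) := by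
    simp only [hexp]
    rw [Finset.sum_comm]
    refine Finset.sum_congr rfl fun n _ => ?_
    rw [Finset.sum_comm]
    exact Finset.sum_congr rfl fun m _ => (Finset.sum_mul ..).symm
  have e2 : ((c0 * X : ℝ) : ℂ) * SG g N β = ∑ n ∈ tup k N, ∑ m ∈ tup r N,
      (if IsSquare ((∏ j, n j) * ∏ i, m i) then ((c0 * X * af ((∏ j, n j) * ∏ i, m i) : ℝ) : ℂ) else 0) *
        (cx n β * ∏ i, g i (m i)) := by
    unfold SG
    rw [Finset.mul_sum]
    refine Finset.sum_congr rfl fun n _ => ?_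
    rw [Finset.mul_sum]
    refine Finset.sum_congr rfl fun m _ => ?_
    by_cases hsq : IsSquare ((∏ j, n j) * ∏ i, m i)
    · rw [if_pos hsq, if_pos hsq]
      push_cast
      ring
    · rw [if_neg hsq, if_neg hsq, mul_zero, zero_mul]
  rw [e1, e2, ← Finset.sum_sub_distrib]
  have hcard : ∀ k : ℕ, (tup k N).card = N ^ k := by
    intro k
    unfold tup
    rw [Fintype.card_piFinset]
    simp
  have hbound : ∀ n ∈ tup k N, ∀ m ∈ tup r N,
      ‖(∑ q ∈ Q s X, vl s q ((∏ j, n j) * ∏ i, m i)) * (cx n β * ∏ i, g i (m i)) -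
      (if IsSquare ((∏ j, n j) * ∏ i, m i) then ((c0 * X * af ((∏ j, n j) * ∏ i, m i) : ℝ) : ℂ) else 0) *
        (cx n β * ∏ i, g i (m i))‖ ≤ C * √X := by
    intro n hn m hm
    have hn1 : ∀ j, 1 ≤ n j := fun j =>
      (Finset.mem_Icc.1 ((Fintype.mem_piFinset.1 hn) j)).1
    have hm1 : ∀ j, 1 ≤ m j := fun j =>
      (Finset.mem_Icc.1 ((Fintype.mem_piFinset.1 hm) j)).1
    have hpn : 1 ≤ ∏ j, n j := CoefG.tup_prod_pos hn
    have hpm : 1 ≤ ∏ j, m j := CoefG.tup_prod_pos hm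
    have hp : 1 ≤ (∏ j, n j) * ∏ i, m i := Nat.mul_pos hpn hpm
    rw [← sub_mul, norm_mul, norm_mul, DiagA.norm_cx hn1]
    obtain ⟨h1, h2⟩ := hA s X ((∏ j, n j) * ∏ i, m i) hs hX hp
    have h3 : ‖(∑ q ∈ Q s X, vl s q ((∏ j, n j) * ∏ i, m i)) -
        (if IsSquare ((∏ j, n j) * ∏ i, m i) then ((c0 * X * af ((∏ j, n j) * ∏ i, m i) : ℝ) : ℂ) else 0)‖ ≤
        C * √X * √(((∏ j, n j) * ∏ i, m i : ℕ) : ℝ) := by
      by_cases hsq : IsSquare ((∏ j, n j) * ∏ i, m i)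
      · rw [if_pos hsq]; exact h1 hsq
      · rw [if_neg hsq, sub_zero]; exact h2 hsq
    have h4 : ‖∏ i, g i (m i)‖ ≤ ((∏ i, m i : ℕ) : ℝ) ^ (-(1 / 2) : ℝ) := by
      rw [norm_prod, Nat.cast_prod, ← Real.finsetProd_rpow _ _ (fun i _ => Nat.cast_nonneg _)]
      exact Finset.prod_le_prod (fun _ _ => norm_nonneg _) fun i _ => hg i (m i) (hm1 i)
    calc _ ≤ (C * √X * √(((∏ j, n j) * ∏ i, m i : ℕ) : ℝ)) * (((∏ j, n j : ℕ) : ℝ) ^ (-(1 / 2) : ℝ) *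
          ((∏ i, m i : ℕ) : ℝ) ^ (-(1 / 2) : ℝ)) := by
          refine mul_le_mul h3 ?_ (by positivity) (by positivity)
          exact mul_le_mul_of_nonneg_left h4 (by positivity)
      _ = (C * √X * √(((∏ j, n j) * ∏ i, m i : ℕ) : ℝ)) *
            (((∏ j, n j) * ∏ i, m i : ℕ) : ℝ) ^ (-(1 / 2) : ℝ) := by
          rw [← Real.mul_rpow (Nat.cast_nonneg _) (Nat.cast_nonneg _), ← Nat.cast_mul]
      _ = C * √X := by rw [mul_assoc, DiagA.sqrt_mul hp, mul_one]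
  calc _ ≤ ∑ n ∈ tup k N, ∑ m ∈ tup r N, C * √X := by
        refine (norm_sum_le _ _).trans (Finset.sum_le_sum fun n hn => ?_)
        rw [← Finset.sum_sub_distrib]
        exact (norm_sum_le _ _).trans (Finset.sum_le_sum fun m hm => hbound n hn m hm)
    _ = C * √X * (N : ℝ) ^ (k + r) := by
      rw [Finset.sum_const, Finset.sum_const, hcard, hcard, nsmul_eq_mul, nsmul_eq_mul, pow_add]
      push_cast
      ring

end

end Pool.Agent.V8H6.RW
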