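import Pool.Agent.V8H6.RW.Def

set_option autoImplicit false

/-!
Weighted moments: truncation of the product of Dirichlet polynomials, with additional variables (after
`Pool.Agent.N879.QM.Coef`).
-/

namespace Pool.Agent.V8H6.RW.CoefG

open Complex Finset MeasureTheory
open Pool.Agent.N879.QM
open Pool.Agent.N879.QM.Coef
open scoped BigOperators

noncomputable section

variable {k r : ℕ}

/-- values of a product of arithmetic functions -/
lemma ptprod2 (N : ℕ) (P : Fin k → ArithmeticFunction ℂ) (g : Fin r → ArithmeticFunction ℂ) {m : ℕ}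
    (hm2 : m ≤ N) : ((∏ j, P j) * ∏ i, g i) m =
    ∑ n ∈ tup k N, ∑ f ∈ tup r N,
      if m = (∏ j, n j) * ∏ i, f i then (∏ j, P j (n j)) * ∏ i, g i (f i) else 0 := by
  have h1 : Ag N ((∏ j, P j) * ∏ i, g i) ((∏ j, tr N (P j)) * ∏ i, tr N (g i)) := by
    refine Ag.mul ?_ ?_
    · exact Finset.prod_hom_rel (r := Ag N) (fun _ _ => rfl) (fun r b c hbc => (ag_tr N (P r)).mul hbc)
    · exact Finset.prod_hom_rel (r := Ag N) (fun _ _ => rfl) (fun r b c hbc => (ag_tr N (g r)).mul hbc)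
  have h2 : (∏ j, tr N (P j)) * ∏ i, tr N (g i) = ∑ n ∈ tup k N, ∑ f ∈ tup r N,
      dch ((∏ j, n j) * ∏ i, f i, (∏ j, P j (n j)) * ∏ i, g i (f i)) := by
    unfold tr tup
    rw [Finset.prod_univ_sum, Finset.prod_univ_sum, Finset.sum_mul_sum]
    refine Finset.sum_congr rfl fun n _ => Finset.sum_congr rfl fun f _ => ?_
    rw [← map_prod, ← map_prod, ← map_mul]
    congr 1
    rw [Prod.ext_iff]
    refine ⟨?_, ?_⟩
    · rw [Prod.fst_mul, Prod.fst_prod, Prod.fst_prod]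
    · rw [Prod.snd_mul, Prod.snd_prod, Prod.snd_prod]
  rw [h1 m hm2, h2, ← evh_apply m, map_sum]
  refine Finset.sum_congr rfl fun n hn => ?_
  rw [map_sum]
  refine Finset.sum_congr rfl fun f hf => ?_
  rw [evh_apply, dch_apply]
  rw [mem_tup] at hn hf
  have h0 : (∏ j, n j) * ∏ i, f i ≠ 0 := by
    apply mul_ne_zero
    · rw [Finset.prod_ne_zero_iff]
      intro j _
      have := hn j
      omega
    · rw [Finset.prod_ne_zero_iff]
      intro j _
      have := hf j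
      omega
  simp only [h0, ne_eq, not_false_eq_true, and_true]

/-- the index set -/
def Om (k M Z Y : ℕ) : Finset (ℕ × (Fin k → ℕ) × (Pr k → ℕ) × (Pr k → ℕ)) :=
  ((Icc 1 Z) ×ˢ (tup k (Z ^ 2)) ×ˢ (bx k Z) ×ˢ (bx k Y)).filter
    (fun ω => (∏ j, ω.2.1 j) * M = ω.1 ^ 2 ∧ ω.1 * ∏ r, ω.2.2.1 r ≤ Z)

lemma gG_apply (g : Fin r → ArithmeticFunction ℂ) (β : Fin k → ℝ) {a N : ℕ} (ha : 1 ≤ a) (haN : a ≤ N) :
    gG g β a = ∑ f ∈ tup r (N ^ 2), ∑ n ∈ tup k (N ^ 2),
      if (∏ j, n j) * ∏ i, f i = a ^ 2 then (af a : ℂ) * cx n β * ∏ i, g i (f i) else 0 := by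
  have h1 : gG g β a = (af a : ℂ) * ((∏ j, Eul.pw (Eul.sx β j)) * ∏ i, g i) (a ^ 2) := by
    show (if a = 0 then 0 else (af a : ℂ) * ((∏ j, Eul.pw (Eul.sx β j)) * ∏ i, g i) (a ^ 2)) = _
    rw [if_neg (by omega)]
  rw [h1, ptprod2 (N ^ 2) _ _ (Nat.pow_le_pow_left haN 2), Finset.sum_comm,
    Finset.mul_sum]
  refine Finset.sum_congr rfl fun f _ => ?_
  rw [Finset.mul_sum]
  refine Finset.sum_congr rfl fun n hn => ?_
  rw [mem_tup] at hn
  have e : ∏ j, Eul.pw (Eul.sx β j) (n j) = cx n β := by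
    unfold cx
    refine Finset.prod_congr rfl fun j _ => ?_
    rw [Eul.pw_apply _ (by have := hn j; omega)]
    rfl
  rw [e]
  by_cases h : a ^ 2 = (∏ j, n j) * ∏ i, f i
  · rw [if_pos h, if_pos h.symm]
    ring
  · rw [if_neg h, if_neg (Ne.symm h), mul_zero]

lemma expand (g : Fin r → ArithmeticFunction ℂ) (Z Y : ℕ) (β : Fin k → ℝ) :
    (∑ m ∈ Icc 1 Z, alG g β m) * (∏ r : Pr k, zN Y (pp β r)) =
      ∑ φ ∈ tup r (Z ^ 2), (∏ i, g i (φ i)) *
        ∑ ω ∈ Om k (∏ i, φ i) Z Y, (wt ω : ℂ) * cx (fi ω) β := by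
  have hz : (∏ r : Pr k, zN Y (pp β r)) = ∑ e ∈ bx k Y, ∏ r, ph (pp β r) (e r) := by
    unfold zN bx
    rw [Finset.prod_univ_sum]
    rfl
  have hal : ∑ m ∈ Icc 1 Z, alG g β m = ∑ a ∈ Icc 1 Z, ∑ f ∈ bx k Z,
      if a * ∏ r, f r ≤ Z then gG g β a * ∏ r, muA (pp β r) (f r) else 0 := by
    unfold alG bx
    exact psum Z (gG g β) (fun r : Pr k => muA (pp β r))
  -- one term
  have hfix : ∀ φ : Fin r → ℕ, (∏ i, g i (φ i)) *
      ∑ ω ∈ Om k (∏ i, φ i) Z Y, (wt ω : ℂ) * cx (fi ω) β =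
      ∑ a ∈ Icc 1 Z, ∑ f ∈ bx k Z, ∑ n ∈ tup k (Z ^ 2), ∑ e ∈ bx k Y,
        (if a * ∏ r, f r ≤ Z then (if (∏ j, n j) * ∏ i, φ i = a ^ 2 then
          (af a : ℂ) * cx n β * ∏ i, g i (φ i) else 0) *
          ∏ r, muA (pp β r) (f r) else 0) * ∏ r, ph (pp β r) (e r) := by
    intro φ
    unfold Om
    rw [Finset.sum_filter, Finset.sum_product, Finset.mul_sum]
    refine Finset.sum_congr rfl fun a ha => ?_
    rw [Finset.mem_Icc] at ha
    rw [Finset.sum_product, Finset.mul_sum]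
    rw [Finset.sum_comm (s := bx k Z) (t := tup k (Z ^ 2))]
    refine Finset.sum_congr rfl fun n hn => ?_
    rw [Finset.sum_product, Finset.mul_sum]
    refine Finset.sum_congr rfl fun f hf => ?_
    rw [Finset.mul_sum]
    refine Finset.sum_congr rfl fun e he => ?_
    rw [mem_bx] at hf he
    have h2 : (wt (a, n, f, e) : ℂ) * cx (fi (a, n, f, e)) β =
        (af a : ℂ) * cx n β * (∏ r, muA (pp β r) (f r)) * ∏ r, ph (pp β r) (e r) := by
      unfold wt fi
      rw [cx_mul, cx_EE _ (fun r => by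
        have a1 := hf r
        have a2 := he r
        show f r * e r ≠ 0
        exact mul_ne_zero (Nat.one_le_iff_ne_zero.mp a1.1) (Nat.one_le_iff_ne_zero.mp a2.1)),
        muA_prod]
      simp only [Pi.mul_apply, map_mul, Finset.prod_mul_distrib]
      push_cast
      ring
    by_cases c1 : (∏ j, n j) * ∏ i, φ i = a ^ 2
    · by_cases c2 : a * ∏ r, f r ≤ Z
      · rw [if_pos ⟨c1, c2⟩, if_pos c2, if_pos c1, h2]
        ring
      · rw [if_neg (fun h => c2 h.2), if_neg c2, mul_zero, zero_mul]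
    · rw [if_neg (fun h => c1 h.1), if_neg c1, zero_mul, ite_self, zero_mul, mul_zero]
  symm
  refine (Finset.sum_congr rfl fun φ _ => hfix φ).trans ?_
  rw [hz, hal, Finset.sum_comm, Finset.sum_mul]
  refine Finset.sum_congr rfl fun a ha => ?_
  rw [Finset.mem_Icc] at ha
  rw [Finset.sum_comm, Finset.sum_mul]
  refine Finset.sum_congr rfl fun f _ => ?_
  have h3 : (if a * ∏ r, f r ≤ Z then gG g β a * ∏ r, muA (pp β r) (f r) else 0) =
      ∑ φ ∈ tup r (Z ^ 2), ∑ n ∈ tup k (Z ^ 2), (if a * ∏ r, f r ≤ Z then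
        (if (∏ j, n j) * ∏ i, φ i = a ^ 2 then (af a : ℂ) * cx n β * ∏ i, g i (φ i) else 0) *
          ∏ r, muA (pp β r) (f r) else 0) := by
    split_ifs
    · rw [gG_apply g β ha.1 ha.2]
      simp only [Finset.sum_mul]
    · simp
  rw [h3, Finset.sum_mul]
  refine Finset.sum_congr rfl fun φ _ => ?_
  rw [Finset.sum_mul_sum]

/-- the length -/
def LZ (k Z Y : ℕ) : ℕ := Z ^ 2 * (Z * Y) ^ (2 * Fintype.card (Pr k))

lemma mem_Om {M Z Y : ℕ} {a : ℕ} {n : Fin k → ℕ} {f e : Pr k → ℕ} : (a, n, f, e) ∈ Om k M Z Y ↔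
    (1 ≤ a ∧ a ≤ Z) ∧ n ∈ tup k (Z ^ 2) ∧ f ∈ bx k Z ∧ e ∈ bx k Y ∧
      (∏ j, n j) * M = a ^ 2 ∧ a * ∏ r, f r ≤ Z := by
  unfold Om
  simp only [Finset.mem_filter, Finset.mem_product, Finset.mem_Icc]
  tauto

lemma fi_mem {M Z Y : ℕ} (ω) (hω : ω ∈ Om k M Z Y) : fi ω ∈ tup k (LZ k Z Y) := by
  obtain ⟨a, n, f, e⟩ := ω
  rw [mem_Om] at hω
  obtain ⟨-, hn, hf, he, -, -⟩ := hω
  rw [mem_tup] at hn ⊢
  rw [mem_bx] at hf he
  intro j
  have h1 : ∀ r, 1 ≤ (f * e) r ∧ (f * e) r ≤ Z * Y := by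
    intro r
    have a1 := hf r
    have a2 := he r
    exact ⟨Nat.mul_pos a1.1 a2.1, Nat.mul_le_mul a1.2 a2.2⟩
  refine ⟨Nat.mul_pos (hn j).1 (EE_pos (fun r => (h1 r).1) j), ?_⟩
  have h2 := EE_le h1 j
  exact Nat.mul_le_mul (hn j).2 h2

/-- the coefficients -/
def bY (M Z Y : ℕ) (n : Fin k → ℕ) : ℝ := ∑ ω ∈ (Om k M Z Y).filter (fun ω => fi ω = n), wt ω

lemma group (M Z Y : ℕ) (β : Fin k → ℝ) :
    ∑ ω ∈ Om k M Z Y, (wt ω : ℂ) * cx (fi ω) β =
      ∑ n ∈ tup k (LZ k Z Y), (bY M Z Y n : ℂ) * cx n β := by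
  rw [← Finset.sum_fiberwise_of_maps_to fi_mem]
  refine Finset.sum_congr rfl fun n _ => ?_
  unfold bY
  push_cast
  rw [Finset.sum_mul]
  refine Finset.sum_congr rfl fun ω hω => ?_
  rw [(Finset.mem_filter.mp hω).2]

lemma prod_fi {M Z Y : ℕ} {a : ℕ} {n : Fin k → ℕ} {f e : Pr k → ℕ} (h : (a, n, f, e) ∈ Om k M Z Y) :
    (∏ j, fi (a, n, f, e) j) * M = (a * (∏ r, f r) * ∏ r, e r) ^ 2 := by
  rw [mem_Om] at h
  unfold fi
  simp only [Pi.mul_apply, Finset.prod_mul_distrib]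
  rw [prod_EE]
  simp only [Pi.mul_apply, Finset.prod_mul_distrib]
  calc (∏ j, n j) * ((∏ r, f r) * ∏ r, e r) ^ 2 * M
      = ((∏ j, n j) * M) * ((∏ r, f r) * ∏ r, e r) ^ 2 := by ring
    _ = _ := by rw [h.2.2.2.2.1]; ring

/-- the coefficients in the box -/
lemma bY_box {M Z Y : ℕ} (hY : 1 ≤ Y) (hM : 1 ≤ M) (hYZ : ∀ _ : Fin k, Y ≤ Z) (hZ : Y ^ k * M ≤ Z)
    {n : Fin k → ℕ} (hn : n ∈ tup k Y) :
    bY M Z Y n = if IsSquare ((∏ j, n j) * M) then af ((∏ j, n j) * M) else 0 := by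
  classical
  have hn' := mem_tup.mp hn
  have hprod : (∏ j, n j) * M ≤ Z := by
    refine le_trans (Nat.mul_le_mul_right M ?_) hZ
    calc ∏ j, n j ≤ ∏ _j : Fin k, Y := Finset.prod_le_prod' fun j _ => (hn' j).2
      _ = Y ^ k := by rw [Finset.prod_const, Finset.card_univ, Fintype.card_fin]
  have h1 : bY M Z Y n = ∑ a ∈ Icc 1 Z, ∑ n' ∈ tup k (Z ^ 2),
      if (∏ j, n' j) * M = a ^ 2 then af a * (∑ f ∈ bx k Z, ∑ e ∈ bx k Y,
        (if n' * EE (f * e) = n then (1 : ℝ) else 0) *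
          ∏ r, ((ArithmeticFunction.moebius (f r) : ℤ) : ℝ)) else 0 := by
    unfold bY Om
    rw [Finset.filter_filter, Finset.sum_filter, Finset.sum_product]
    refine Finset.sum_congr rfl fun a ha => ?_
    rw [Finset.sum_product]
    refine Finset.sum_congr rfl fun n' hn'' => ?_
    rw [Finset.sum_product]
    rw [Finset.mem_Icc] at ha
    by_cases c1 : (∏ j, n' j) * M = a ^ 2
    · rw [if_pos c1, Finset.mul_sum]
      refine Finset.sum_congr rfl fun f hf => ?_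
      rw [Finset.mul_sum]
      refine Finset.sum_congr rfl fun e he => ?_
      unfold wt fi
      rw [mem_bx] at hf he
      by_cases c2 : n' * EE (f * e) = n
      · have h2 : (a * (∏ r, f r) * ∏ r, e r) ^ 2 ≤ Z := by
          refine le_trans (le_of_eq ?_) hprod
          rw [← c2]
          simp only [Pi.mul_apply, Finset.prod_mul_distrib]
          rw [prod_EE]
          simp only [Pi.mul_apply, Finset.prod_mul_distrib]
          calc (a * (∏ r, f r) * ∏ r, e r) ^ 2 = a ^ 2 * ((∏ r, f r) * ∏ r, e r) ^ 2 := by ring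
            _ = ((∏ j, n' j) * M) * ((∏ r, f r) * ∏ r, e r) ^ 2 := by rw [c1]
            _ = _ := by ring
        have h3 : a * ∏ r, f r ≤ Z := by
          refine le_trans ?_ h2
          have he1 : 1 ≤ ∏ r, e r := one_le_prod fun r => (he r).1
          have hf1 : 1 ≤ ∏ r, f r := one_le_prod fun r => (hf r).1
          have hpos : 1 ≤ a * (∏ r, f r) * ∏ r, e r :=
            Nat.mul_pos (Nat.mul_pos ha.1 hf1) he1
          calc a * ∏ r, f r ≤ a * (∏ r, f r) * ∏ r, e r := Nat.le_mul_of_pos_right _ he1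
            _ ≤ (a * (∏ r, f r) * ∏ r, e r) ^ 2 := Nat.le_self_pow (by norm_num) _
        rw [if_pos ⟨⟨c1, h3⟩, c2⟩, if_pos c2, one_mul]
      · rw [if_neg (fun h => c2 h.2), if_neg c2, zero_mul, mul_zero]
    · rw [if_neg c1]
      refine Finset.sum_eq_zero fun f _ => Finset.sum_eq_zero fun e _ => ?_
      rw [if_neg (fun h => c1 h.1.1)]
  have h2 : ∀ n' : Fin k → ℕ, (∑ f ∈ bx k Z, ∑ e ∈ bx k Y,
        (if n' * EE (f * e) = n then (1 : ℝ) else 0) *
          ∏ r, ((ArithmeticFunction.moebius (f r) : ℤ) : ℝ)) = if n' = n then 1 else 0 := by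
    intro n'
    have := mob (ι := Pr k) (N := Z) hY (fun r => hYZ r.1.1)
      (fun g => if n' * EE g = n then (1 : ℝ) else 0) (by
        intro g hg r
        have h3 : n' * EE g = n := by
          by_contra h
          exact hg (if_neg h)
        have h4 : g r ∣ n r.1.1 := by
          rw [← h3]
          exact (dvd_EE g r).mul_left _
        have h5 := hn' r.1.1
        exact (Nat.le_of_dvd h5.1 h4).trans h5.2)
    unfold bx
    rw [this, EE_one, mul_one]
  rw [h1]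
  simp only [h2, mul_ite, mul_one, mul_zero]
  have h3 : ∀ a ∈ Icc 1 Z, ∑ n' ∈ tup k (Z ^ 2),
      (if (∏ j, n' j) * M = a ^ 2 then if n' = n then af a else 0 else 0) =
      if (∏ j, n j) * M = a ^ 2 then af a else 0 := by
    intro a _
    rw [Finset.sum_eq_single n]
    · rw [if_pos rfl]
    · intro n' _ hne
      rw [if_neg hne, ite_self]
    · intro h
      exfalso
      apply h
      rw [mem_tup]
      intro j
      exact ⟨(hn' j).1, ((hn' j).2.trans (hYZ j)).trans (Nat.le_self_pow two_ne_zero Z)⟩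
  rw [Finset.sum_congr rfl h3]
  have hP : 1 ≤ (∏ j, n j) * M := Nat.mul_pos (one_le_prod fun j => (hn' j).1) hM
  split_ifs with hsq
  · obtain ⟨a, ha⟩ := hsq
    rw [← sq] at ha
    have ha0 : 1 ≤ a := by
      rcases Nat.eq_zero_or_pos a with h | h
      · rw [h] at ha
        simp at ha
        rcases ha with h5 | h5
        · rw [h5] at hP
          simp at hP
        · omega
      · exact h
    rw [Finset.sum_eq_single a]
    · rw [if_pos ha, ha]
      unfold af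
      rw [Nat.primeFactors_pow _ two_ne_zero]
    · intro b _ hb
      rw [if_neg]
      intro h
      rw [ha] at h
      exact hb ((Nat.pow_left_injective two_ne_zero h).symm)
    · intro h
      exfalso
      apply h
      rw [Finset.mem_Icc]
      refine ⟨ha0, ?_⟩
      refine le_trans ?_ hprod
      rw [ha]
      exact Nat.le_self_pow two_ne_zero a
  · refine Finset.sum_eq_zero fun a _ => ?_
    rw [if_neg]
    intro h
    exact hsq ⟨a, by rw [h, sq]⟩

lemma fiber_card (M Z Y : ℕ) {n : Fin k → ℕ} (hn : ∀ j, 1 ≤ n j) :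
    ((Om k M Z Y).filter (fun ω => fi ω = n)).card ≤ (∏ r : Pr k, (n r.1.1).divisors.card) ^ 2 := by
  classical
  rw [sq, ← Fintype.card_piFinset, ← Finset.card_product]
  refine Finset.card_le_card_of_injOn (fun ω => (ω.2.2.1, ω.2.2.2)) ?_ ?_
  · rintro ⟨a, n', f, e⟩ hω
    rw [Finset.mem_coe, Finset.mem_filter] at hω
    rw [Finset.mem_coe, Finset.mem_product, Fintype.mem_piFinset, Fintype.mem_piFinset]
    have h1 : ∀ r : Pr k, f r * e r ∣ n r.1.1 := by
      intro r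
      rw [← hω.2]
      exact (dvd_EE (f * e) r).mul_left _
    refine ⟨fun r => ?_, fun r => ?_⟩
    · rw [Nat.mem_divisors]
      exact ⟨(dvd_mul_right _ _).trans (h1 r), by have := hn r.1.1; omega⟩
    · rw [Nat.mem_divisors]
      exact ⟨(dvd_mul_left _ _).trans (h1 r), by have := hn r.1.1; omega⟩
  · rintro ⟨a, n', f, e⟩ hω ⟨a', n'', f', e'⟩ hω' heq
    rw [Finset.mem_coe, Finset.mem_filter] at hω hω'
    simp only [Prod.mk.injEq] at heq
    obtain ⟨rfl, rfl⟩ := heq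
    have h1 : fi (a, n', f, e) = fi (a', n'', f, e) := by rw [hω.2, hω'.2]
    have hO := mem_Om.mp hω.1
    have hO' := mem_Om.mp hω'.1
    have hf := mem_bx.mp hO.2.2.1
    have he := mem_bx.mp hO.2.2.2.1
    have h2 : n' = n'' := by
      funext j
      have h3 := congrFun h1 j
      have h4 : n' j * EE (f * e) j = n'' j * EE (f * e) j := h3
      exact Nat.eq_of_mul_eq_mul_right (EE_pos (fun r => Nat.mul_pos (hf r).1 (he r).1) j) h4
    subst h2
    have h3 : a ^ 2 = a' ^ 2 := by rw [← hO.2.2.2.2.1, ← hO'.2.2.2.2.1]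
    have h4 : a = a' := Nat.pow_left_injective two_ne_zero h3
    rw [h4]

lemma bY_sq {M Z Y : ℕ} {n : Fin k → ℕ} (h : bY M Z Y n ≠ 0) : IsSquare ((∏ j, n j) * M) := by
  unfold bY at h
  obtain ⟨⟨a, n', f, e⟩, hω, -⟩ := Finset.exists_ne_zero_of_sum_ne_zero h
  rw [Finset.mem_filter] at hω
  rw [← hω.2, prod_fi hω.1]
  exact ⟨_, sq _⟩

lemma bY_bound (k : ℕ) : ∃ C : ℝ, 0 < C ∧ ∀ (M Z Y : ℕ) (n : Fin k → ℕ), (∀ j, 1 ≤ n j) →
    |bY M Z Y n| ≤ C * PP n ^ (1 / 100 : ℝ) := by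
  obtain ⟨C, hC0, hC⟩ := div_pow 2 (1 / 100 / (Fintype.card (Pr k) + 1)) (by positivity)
  refine ⟨max C 1 ^ (Fintype.card (Pr k)), by positivity, fun M Z Y n hn => ?_⟩
  have hP := one_le_PP hn
  have h1 : |bY M Z Y n| ≤ (((Om k M Z Y).filter (fun ω => fi ω = n)).card : ℝ) := by
    unfold bY
    refine (Finset.abs_sum_le_sum_abs _ _).trans ?_
    refine (Finset.sum_le_sum fun ω _ => wt_le ω).trans ?_
    rw [Finset.sum_const, nsmul_eq_mul, mul_one]
  refine h1.trans ?_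
  have h2 : (((Om k M Z Y).filter (fun ω => fi ω = n)).card : ℝ) ≤
      (∏ r : Pr k, ((n r.1.1).divisors.card : ℝ)) ^ 2 := by exact_mod_cast fiber_card M Z Y hn
  refine h2.trans ?_
  rw [← Finset.prod_pow]
  calc ∏ r : Pr k, ((n r.1.1).divisors.card : ℝ) ^ 2
      ≤ ∏ _r : Pr k, (max C 1 * PP n ^ ((1 / 100 : ℝ) / (Fintype.card (Pr k) + 1))) := by
        refine Finset.prod_le_prod (fun _ _ => by positivity) fun r _ => ?_
        refine (hC _ (hn r.1.1)).trans ?_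
        have h3 : (0 : ℝ) ≤ (n r.1.1 : ℝ) := by positivity
        exact mul_le_mul (le_max_left _ _) (Real.rpow_le_rpow h3 (le_PP hn _) (by positivity))
          (by positivity) (by positivity)
    _ = max C 1 ^ (Fintype.card (Pr k)) *
        PP n ^ ((1 / 100 : ℝ) / (Fintype.card (Pr k) + 1) * (Fintype.card (Pr k))) := by
        rw [Finset.prod_const, Finset.card_univ, mul_pow,
          ← Real.rpow_natCast (PP n ^ ((1 / 100 : ℝ) / (Fintype.card (Pr k) + 1))),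
          ← Real.rpow_mul (by linarith)]
    _ ≤ max C 1 ^ (Fintype.card (Pr k)) * PP n ^ (1 / 100 : ℝ) := by
        apply mul_le_mul_of_nonneg_left _ (by positivity)
        apply Real.rpow_le_rpow_of_exponent_le hP
        rw [div_mul_eq_mul_div, div_le_iff₀ (by positivity)]
        nlinarith

end

end Pool.Agent.V8H6.RW.CoefG
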