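import Pool.Agent.V8H6.RW.Coef

set_option autoImplicit false

/-!
Weighted moments: truncation of the product of Dirichlet polynomials, with additional variables, the estimate.
-/

namespace Pool.Agent.V8H6.RW.CoefG

open Complex Finset MeasureTheory
open Pool.Agent.N879.QM
open Pool.Agent.N879.QM.Coef
open scoped BigOperators

noncomputable section

variable {k r : ℕ}

lemma tup_div_card (k r L L' m : ℕ) (hm : 1 ≤ m) :
    ((tup k L ×ˢ tup r L').filter (fun x => (∏ j, x.1 j) * ∏ i, x.2 i = m)).card ≤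
      m.divisors.card ^ (k + r) := by
  classical
  have h1 : m.divisors.card ^ (k + r) = ((Fintype.piFinset fun _ : Fin k => m.divisors) ×ˢ
      (Fintype.piFinset fun _ : Fin r => m.divisors)).card := by
    rw [Finset.card_product, Fintype.card_piFinset, Fintype.card_piFinset, Finset.prod_const,
      Finset.prod_const, Finset.card_univ, Finset.card_univ, Fintype.card_fin, Fintype.card_fin, pow_add]
  rw [h1]
  refine Finset.card_le_card fun x hx => ?_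
  rw [Finset.mem_filter] at hx
  rw [Finset.mem_product, Fintype.mem_piFinset, Fintype.mem_piFinset]
  refine ⟨fun j => ?_, fun j => ?_⟩
  · rw [Nat.mem_divisors]
    refine ⟨?_, by omega⟩
    rw [← hx.2]
    exact (Finset.dvd_prod_of_mem x.1 (Finset.mem_univ j)).mul_right _
  · rw [Nat.mem_divisors]
    refine ⟨?_, by omega⟩
    rw [← hx.2]
    exact (Finset.dvd_prod_of_mem x.2 (Finset.mem_univ j)).mul_left _

lemma tup_prod_pos {L : ℕ} {n : Fin k → ℕ} (hn : n ∈ tup k L) : 1 ≤ ∏ j, n j :=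
  one_le_prod fun j => ((mem_tup.mp hn) j).1

lemma tup_prod_le {L : ℕ} {n : Fin k → ℕ} (hn : n ∈ tup k L) : ∏ j, n j ≤ L ^ k := by
  calc ∏ j, n j ≤ ∏ _j : Fin k, L := Finset.prod_le_prod' fun j _ => ((mem_tup.mp hn) j).2
    _ = L ^ k := by rw [Finset.prod_const, Finset.card_univ, Fintype.card_fin]

/-- the sum over the pairs of tuples whose product is a square -/
lemma sumsq2 (k r : ℕ) {τ : ℝ} (hτ : 0 < τ) (hτ1 : τ ≤ 1 / 8) : ∃ C : ℝ, 0 < C ∧ ∀ L L' : ℕ,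
    ∑ x ∈ (tup k L ×ˢ tup r L').filter (fun x => IsSquare ((∏ j, x.1 j) * ∏ i, x.2 i)),
      PP x.1 ^ (-(16 / 25) : ℝ) * PP x.2 ^ (-(1 / 2 + τ)) ≤ C := by
  classical
  obtain ⟨C, hC0, hC⟩ := div_pow (k + r) (τ / 2) (by positivity)
  have hs : Summable (fun m : ℕ => (m : ℝ) ^ (-(1 + τ))) :=
    Real.summable_nat_rpow.mpr (by linarith)
  refine ⟨C * (∑' m : ℕ, (m : ℝ) ^ (-(1 + τ))) + 1, ?_, fun L L' => ?_⟩
  · have : 0 ≤ ∑' m : ℕ, (m : ℝ) ^ (-(1 + τ)) := tsum_nonneg fun m => by positivity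
    positivity
  set W : (Fin k → ℕ) × (Fin r → ℕ) → ℝ := fun x => PP x.1 ^ (-(16 / 25) : ℝ) * PP x.2 ^ (-(1 / 2 + τ))
    with hW
  have hW0 : ∀ x, 0 ≤ W x := fun x => by
    rw [hW]
    unfold PP
    positivity
  have h1 : ∑ x ∈ (tup k L ×ˢ tup r L').filter (fun x => IsSquare ((∏ j, x.1 j) * ∏ i, x.2 i)), W x ≤
      ∑ m ∈ Icc 1 (L ^ k * L' ^ r), ∑ x ∈ (tup k L ×ˢ tup r L').filter
        (fun x => (∏ j, x.1 j) * ∏ i, x.2 i = m ^ 2), W x := by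
    have h2 : ∀ x ∈ (tup k L ×ˢ tup r L').filter (fun x => IsSquare ((∏ j, x.1 j) * ∏ i, x.2 i)),
        Nat.sqrt ((∏ j, x.1 j) * ∏ i, x.2 i) ∈ Icc 1 (L ^ k * L' ^ r) := by
      intro x hx
      rw [Finset.mem_filter, Finset.mem_product] at hx
      obtain ⟨⟨hx1, hx2⟩, hx3⟩ := hx
      have h3 : 1 ≤ (∏ j, x.1 j) * ∏ i, x.2 i := Nat.mul_pos (tup_prod_pos hx1) (tup_prod_pos hx2)
      have h4 : (∏ j, x.1 j) * ∏ i, x.2 i ≤ L ^ k * L' ^ r :=
        Nat.mul_le_mul (tup_prod_le hx1) (tup_prod_le hx2)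
      rw [Finset.mem_Icc]
      refine ⟨?_, (Nat.sqrt_le_self _).trans h4⟩
      rw [Nat.one_le_iff_ne_zero]
      intro h
      rw [Nat.sqrt_eq_zero] at h
      omega
    rw [← Finset.sum_fiberwise_of_maps_to h2]
    refine Finset.sum_le_sum fun m hm => ?_
    refine Finset.sum_le_sum_of_subset_of_nonneg ?_ fun n _ _ => hW0 n
    intro x hx
    rw [Finset.mem_filter, Finset.mem_filter] at hx
    rw [Finset.mem_filter]
    refine ⟨hx.1.1, ?_⟩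
    obtain ⟨a, ha⟩ := hx.1.2
    rw [← hx.2, ha, Nat.sqrt_eq, sq]
  refine h1.trans ?_
  have h3 : ∀ m ∈ Icc 1 (L ^ k * L' ^ r), ∑ x ∈ (tup k L ×ˢ tup r L').filter
      (fun x => (∏ j, x.1 j) * ∏ i, x.2 i = m ^ 2), W x ≤ C * (m : ℝ) ^ (-(1 + τ)) := by
    intro m hm
    rw [Finset.mem_Icc] at hm
    have hm0 : (0 : ℝ) < m := by exact_mod_cast hm.1
    have hm1 : (1 : ℝ) ≤ m := by exact_mod_cast hm.1
    have h4 : ∀ x ∈ (tup k L ×ˢ tup r L').filter (fun x => (∏ j, x.1 j) * ∏ i, x.2 i = m ^ 2),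
        W x ≤ (m : ℝ) ^ (-(1 + 2 * τ)) := by
      intro x hx
      rw [Finset.mem_filter, Finset.mem_product] at hx
      obtain ⟨⟨hx1, hx2⟩, hx3⟩ := hx
      have p1 : 1 ≤ PP x.1 := one_le_PP fun j => ((mem_tup.mp hx1) j).1
      have p2 : 1 ≤ PP x.2 := one_le_PP fun j => ((mem_tup.mp hx2) j).1
      have p3 : PP x.1 * PP x.2 = (m : ℝ) ^ 2 := by
        unfold PP
        exact_mod_cast hx3
      calc W x ≤ PP x.1 ^ (-(1 / 2 + τ)) * PP x.2 ^ (-(1 / 2 + τ)) := by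
            apply mul_le_mul_of_nonneg_right _ (by positivity)
            exact Real.rpow_le_rpow_of_exponent_le p1 (by linarith)
        _ = (PP x.1 * PP x.2) ^ (-(1 / 2 + τ)) := by
            rw [Real.mul_rpow (by linarith) (by linarith)]
        _ = (m : ℝ) ^ (-(1 + 2 * τ)) := by
            rw [p3, ← Real.rpow_natCast (m : ℝ) 2, ← Real.rpow_mul hm0.le]
            congr 1
            push_cast
            ring
    refine (Finset.sum_le_sum h4).trans ?_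
    rw [Finset.sum_const, nsmul_eq_mul]
    have h5 : (((tup k L ×ˢ tup r L').filter (fun x => (∏ j, x.1 j) * ∏ i, x.2 i = m ^ 2)).card : ℝ) ≤
        C * ((m : ℝ) ^ 2) ^ (τ / 2) := by
      refine le_trans ?_ (by have := hC (m ^ 2) (Nat.one_le_pow _ _ hm.1); push_cast at this; exact this)
      exact_mod_cast tup_div_card k r L L' (m ^ 2) (Nat.one_le_pow _ _ hm.1)
    calc _ ≤ C * ((m : ℝ) ^ 2) ^ (τ / 2) * (m : ℝ) ^ (-(1 + 2 * τ)) :=
          mul_le_mul_of_nonneg_right h5 (by positivity)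
      _ = C * (m : ℝ) ^ (-(1 + τ)) := by
          rw [← Real.rpow_natCast (m : ℝ) 2, ← Real.rpow_mul hm0.le, mul_assoc,
            ← Real.rpow_add hm0]
          congr 2
          push_cast
          ring
  refine (Finset.sum_le_sum h3).trans ?_
  rw [← Finset.mul_sum]
  have h6 := hs.sum_le_tsum (Icc 1 (L ^ k * L' ^ r)) (fun m _ => by positivity)
  have := mul_le_mul_of_nonneg_left h6 hC0.le
  linarith

/-- numbers `F` with `P F` a square -/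
lemma sq_class (P : ℕ) (hP : 1 ≤ P) : ∃ P₀ : ℕ, 1 ≤ P₀ ∧ ∀ F : ℕ, 1 ≤ F → IsSquare (P * F) →
    ∃ t : ℕ, 1 ≤ t ∧ t ≤ F ∧ F = P₀ * t ^ 2 := by
  obtain ⟨a, b, hab, hsf⟩ := Nat.sq_mul_squarefree P
  have ha0 : a ≠ 0 := by
    rintro rfl
    rw [mul_zero] at hab
    omega
  have hb0 : b ≠ 0 := by
    rintro rfl
    simp at hab
    omega
  refine ⟨a, by omega, fun F hF hsq => ?_⟩
  obtain ⟨c, hc⟩ := hsq
  rw [← sq, ← hab] at hc
  -- b ∣ c
  have h1 : b ^ 2 ∣ c ^ 2 := ⟨a * F, by rw [← hc]; ring⟩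
  have h2 : b ∣ c := (Nat.pow_dvd_pow_iff two_ne_zero).1 h1
  obtain ⟨d, rfl⟩ := h2
  have h3 : a * F = d ^ 2 := by
    have h4 : b ^ 2 * (a * F) = b ^ 2 * d ^ 2 := by
      calc b ^ 2 * (a * F) = b ^ 2 * a * F := by ring
        _ = (b * d) ^ 2 := hc
        _ = b ^ 2 * d ^ 2 := by ring
    exact Nat.eq_of_mul_eq_mul_left (by positivity) h4
  have h5 : a ∣ d := by
    have : a ∣ d ^ 2 := ⟨F, h3.symm⟩
    exact (hsf.dvd_pow_iff_dvd two_ne_zero).1 this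
  obtain ⟨t, rfl⟩ := h5
  have h6 : F = a * t ^ 2 := by
    have h7 : a * F = a * (a * t ^ 2) := by
      rw [h3]
      ring
    exact Nat.eq_of_mul_eq_mul_left (by omega) h7
  have ht : 1 ≤ t := by
    rcases Nat.eq_zero_or_pos t with h | h
    · subst h
      simp at h6
      omega
    · exact h
  refine ⟨t, ht, ?_, h6⟩
  rw [h6]
  calc t ≤ t ^ 2 := Nat.le_self_pow two_ne_zero t
    _ = 1 * t ^ 2 := (one_mul _).symm
    _ ≤ a * t ^ 2 := Nat.mul_le_mul_right _ (by omega)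

/-- the sum over the additional variables -/
lemma sumcl (r : ℕ) {τ : ℝ} (hτ : 0 < τ) : ∃ C : ℝ, 0 < C ∧ ∀ (L' P : ℕ), 1 ≤ P →
    ∑ f ∈ (tup r L').filter (fun f => IsSquare (P * ∏ i, f i)), PP f ^ (-(1 / 2 + τ)) ≤ C := by
  classical
  obtain ⟨C, hC0, hC⟩ := div_pow r (τ / 2) (by positivity)
  have hs : Summable (fun m : ℕ => (m : ℝ) ^ (-(1 + τ))) :=
    Real.summable_nat_rpow.mpr (by linarith)
  refine ⟨C * (∑' m : ℕ, (m : ℝ) ^ (-(1 + τ))) + 1, ?_, fun L' P hP => ?_⟩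
  · have : 0 ≤ ∑' m : ℕ, (m : ℝ) ^ (-(1 + τ)) := tsum_nonneg fun m => by positivity
    positivity
  obtain ⟨P₀, hP₀, hcl⟩ := sq_class P hP
  set W : (Fin r → ℕ) → ℝ := fun f => PP f ^ (-(1 / 2 + τ)) with hW
  have hW0 : ∀ x, 0 ≤ W x := fun x => by
    rw [hW]
    unfold PP
    positivity
  have h2 : ∀ f ∈ (tup r L').filter (fun f => IsSquare (P * ∏ i, f i)),
      (∏ i, f i) ∈ (Icc 1 (L' ^ r)).filter (fun F => IsSquare (P * F)) := by
    intro f hf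
    rw [Finset.mem_filter] at hf
    rw [Finset.mem_filter, Finset.mem_Icc]
    exact ⟨⟨tup_prod_pos hf.1, tup_prod_le hf.1⟩, hf.2⟩
  rw [← Finset.sum_fiberwise_of_maps_to h2]
  have h3 : ∀ F ∈ (Icc 1 (L' ^ r)).filter (fun F => IsSquare (P * F)),
      ∑ f ∈ ((tup r L').filter (fun f => IsSquare (P * ∏ i, f i))).filter (fun f => ∏ i, f i = F), W f ≤
        C * (F : ℝ) ^ (-(1 / 2 + τ / 2)) := by
    intro F hF
    rw [Finset.mem_filter, Finset.mem_Icc] at hF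
    have hF0 : (0 : ℝ) < F := by exact_mod_cast hF.1.1
    have h4 : ∀ f ∈ ((tup r L').filter (fun f => IsSquare (P * ∏ i, f i))).filter (fun f => ∏ i, f i = F),
        W f = (F : ℝ) ^ (-(1 / 2 + τ)) := by
      intro f hf
      rw [Finset.mem_filter] at hf
      rw [hW]
      unfold PP
      simp only
      rw [hf.2]
    rw [Finset.sum_congr rfl h4, Finset.sum_const, nsmul_eq_mul]
    have h5 : ((((tup r L').filter (fun f => IsSquare (P * ∏ i, f i))).filter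
        (fun f => ∏ i, f i = F)).card : ℝ) ≤ C * (F : ℝ) ^ (τ / 2) := by
      refine le_trans ?_ (hC F hF.1.1)
      have h6 : (((tup r L').filter (fun f => IsSquare (P * ∏ i, f i))).filter
          (fun f => ∏ i, f i = F)).card ≤ ((tup r L').filter (fun f => ∏ i, f i = F)).card := by
        refine Finset.card_le_card fun f hf => ?_
        rw [Finset.mem_filter, Finset.mem_filter] at hf
        rw [Finset.mem_filter]
        exact ⟨hf.1.1, hf.2⟩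
      exact_mod_cast h6.trans (card_fib r L' F hF.1.1)
    calc _ ≤ C * (F : ℝ) ^ (τ / 2) * (F : ℝ) ^ (-(1 / 2 + τ)) :=
          mul_le_mul_of_nonneg_right h5 (by positivity)
      _ = C * (F : ℝ) ^ (-(1 / 2 + τ / 2)) := by
          rw [mul_assoc, ← Real.rpow_add hF0]
          congr 2
          ring
  refine (Finset.sum_le_sum h3).trans ?_
  rw [← Finset.mul_sum]
  have h7 : ∑ F ∈ (Icc 1 (L' ^ r)).filter (fun F => IsSquare (P * F)), (F : ℝ) ^ (-(1 / 2 + τ / 2)) ≤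
      ∑ t ∈ Icc 1 (L' ^ r), (t : ℝ) ^ (-(1 + τ)) := by
    have h8 : (Icc 1 (L' ^ r)).filter (fun F => IsSquare (P * F)) ⊆
        (Icc 1 (L' ^ r)).image (fun t => P₀ * t ^ 2) := by
      intro F hF
      rw [Finset.mem_filter, Finset.mem_Icc] at hF
      obtain ⟨t, ht1, ht2, ht3⟩ := hcl F hF.1.1 hF.2
      rw [Finset.mem_image]
      exact ⟨t, Finset.mem_Icc.mpr ⟨ht1, ht2.trans hF.1.2⟩, ht3.symm⟩
    have hinj : Set.InjOn (fun t : ℕ => P₀ * t ^ 2) ((Icc 1 (L' ^ r) : Finset ℕ) : Set ℕ) := by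
      intro t _ t' _ h
      simp only at h
      have h9 := Nat.eq_of_mul_eq_mul_left (by omega : 0 < P₀) h
      exact Nat.pow_left_injective two_ne_zero h9
    calc _ ≤ ∑ F ∈ (Icc 1 (L' ^ r)).image (fun t : ℕ => P₀ * t ^ 2), ((F : ℕ) : ℝ) ^ (-(1 / 2 + τ / 2)) :=
          Finset.sum_le_sum_of_subset_of_nonneg h8 fun _ _ _ => by positivity
      _ = ∑ t ∈ Icc 1 (L' ^ r), (((P₀ * t ^ 2 : ℕ)) : ℝ) ^ (-(1 / 2 + τ / 2)) := Finset.sum_image hinj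
      _ ≤ ∑ t ∈ Icc 1 (L' ^ r), (t : ℝ) ^ (-(1 + τ)) := by
          refine Finset.sum_le_sum fun t ht => ?_
          rw [Finset.mem_Icc] at ht
          have ht0 : (0 : ℝ) < t := by exact_mod_cast ht.1
          have hP1 : (1 : ℝ) ≤ P₀ := by exact_mod_cast hP₀
          calc (((P₀ * t ^ 2 : ℕ)) : ℝ) ^ (-(1 / 2 + τ / 2)) ≤ ((t : ℝ) ^ 2) ^ (-(1 / 2 + τ / 2)) := by
                apply Real.rpow_le_rpow_of_nonpos (by positivity) _ (by linarith)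
                push_cast
                exact le_mul_of_one_le_left (by positivity) hP1
            _ = (t : ℝ) ^ (-(1 + τ)) := by
                rw [← Real.rpow_natCast (t : ℝ) 2, ← Real.rpow_mul ht0.le]
                congr 1
                push_cast
                ring
  have h6 := hs.sum_le_tsum (Icc 1 (L' ^ r)) (fun m _ => by positivity)
  have := mul_le_mul_of_nonneg_left (h7.trans h6) hC0.le
  linarith

/-! ### the final estimate -/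

/-- the coefficients of the difference -/
def cd (Z Y : ℕ) (n : Fin k → ℕ) (f : Fin r → ℕ) : ℝ :=
  bY (∏ i, f i) Z Y n - (if n ∈ tup k Y ∧ f ∈ tup r Y then
    (if IsSquare ((∏ j, n j) * ∏ i, f i) then af ((∏ j, n j) * ∏ i, f i) else 0) else 0)

/-- the coefficients after summation over the additional variables -/
def cD (g : Fin r → ArithmeticFunction ℂ) (Z Y : ℕ) (n : Fin k → ℕ) : ℂ :=
  ∑ f ∈ tup r (Z ^ 2), (cd Z Y n f : ℂ) * ∏ i, g i (f i)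

lemma cd_box {Y : ℕ} (hY : 1 ≤ Y) {n : Fin k → ℕ} {f : Fin r → ℕ} (hn : n ∈ tup k Y) (hf : f ∈ tup r Y) :
    cd (Y ^ (k + r)) Y n f = 0 := by
  unfold cd
  have hM := tup_prod_pos hf
  rw [if_pos ⟨hn, hf⟩, bY_box hY hM (fun j => Nat.le_self_pow (by have := j.2; omega) Y)
    (by rw [pow_add]; exact Nat.mul_le_mul_left _ (tup_prod_le hf)) hn, sub_self]

lemma cd_out {Z Y : ℕ} {n : Fin k → ℕ} {f : Fin r → ℕ} (h : ¬ (n ∈ tup k Y ∧ f ∈ tup r Y)) :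
    cd Z Y n f = bY (∏ i, f i) Z Y n := by
  unfold cd
  rw [if_neg h, sub_zero]

lemma tup_subZ {k Y : ℕ} (hY : 1 ≤ Y) (Z : ℕ) (hZ : ∀ _ : Fin k, Y ≤ Z) : tup k Y ⊆ tup k (LZ k Z Y) := by
  intro n hn
  rw [mem_tup] at hn ⊢
  intro j
  refine ⟨(hn j).1, ((hn j).2.trans (hZ j)).trans ?_⟩
  have hZ1 : 1 ≤ Z := hY.trans (hZ j)
  unfold LZ
  calc Z ≤ Z ^ 2 := Nat.le_self_pow two_ne_zero Z
    _ ≤ _ := Nat.le_mul_of_pos_right _ (Nat.pow_pos (Nat.mul_pos hZ1 hY))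

lemma tup_subZ2 {r Y : ℕ} (Z : ℕ) (hZ : ∀ _ : Fin r, Y ≤ Z) : tup r Y ⊆ tup r (Z ^ 2) := by
  intro n hn
  rw [mem_tup] at hn ⊢
  intro j
  exact ⟨(hn j).1, ((hn j).2.trans (hZ j)).trans (Nat.le_self_pow two_ne_zero Z)⟩

lemma diff_eq (g : Fin r → ArithmeticFunction ℂ) {Y : ℕ} (hY : 1 ≤ Y) (β : Fin k → ℝ) :
    (∑ m ∈ Icc 1 (Y ^ (k + r)), alG g β m) * (∏ r : Pr k, zN Y (pp β r)) - SG g Y β =
      ∑ n ∈ tup k (LZ k (Y ^ (k + r)) Y), (cD g (Y ^ (k + r)) Y n * ((PP n ^ (-(1 / 2) : ℝ) : ℝ) : ℂ)) *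
        ∏ j, (n j : ℂ) ^ (-(I * (β j : ℂ))) := by
  classical
  obtain ⟨Z, hZ⟩ : ∃ Z : ℕ, Z = Y ^ (k + r) := ⟨_, rfl⟩
  have hZk : ∀ _ : Fin k, Y ≤ Z := fun j => by rw [hZ]; exact Nat.le_self_pow (by have := j.2; omega) Y
  have hZr : ∀ _ : Fin r, Y ≤ Z := fun j => by rw [hZ]; exact Nat.le_self_pow (by have := j.2; omega) Y
  rw [← hZ]
  have h1 : SG g Y β = ∑ n ∈ tup k (LZ k Z Y), (∑ f ∈ tup r (Z ^ 2), (((if n ∈ tup k Y ∧ f ∈ tup r Y then
      (if IsSquare ((∏ j, n j) * ∏ i, f i) then af ((∏ j, n j) * ∏ i, f i) else 0) else 0 : ℝ)) : ℂ) *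
        ∏ i, g i (f i)) * cx n β := by
    have h2 : ∀ n ∈ tup k (LZ k Z Y), (∑ f ∈ tup r (Z ^ 2), (((if n ∈ tup k Y ∧ f ∈ tup r Y then
      (if IsSquare ((∏ j, n j) * ∏ i, f i) then af ((∏ j, n j) * ∏ i, f i) else 0) else 0 : ℝ)) : ℂ) *
        ∏ i, g i (f i)) * cx n β =
      if n ∈ tup k Y then (∑ f ∈ tup r Y, if IsSquare ((∏ j, n j) * ∏ i, f i) then
        (af ((∏ j, n j) * ∏ i, f i) : ℂ) * cx n β * ∏ i, g i (f i) else 0) else 0 := by
      intro n _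
      by_cases hn : n ∈ tup k Y
      · rw [if_pos hn, Finset.sum_mul]
        rw [← Finset.sum_subset (tup_subZ2 (r := r) Z hZr) (fun f _ hf => by
          rw [if_neg (fun h => hf h.2)]; simp)]
        refine Finset.sum_congr rfl fun f hf => ?_
        rw [if_pos ⟨hn, hf⟩]
        split_ifs
        · ring
        · simp
      · rw [if_neg hn, Finset.sum_eq_zero, zero_mul]
        intro f _
        rw [if_neg (fun h => hn h.1)]
        simp
    rw [Finset.sum_congr rfl h2, Finset.sum_ite_mem, Finset.inter_eq_right.mpr (tup_subZ hY Z hZk)]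
    rfl
  have h3 : (∑ m ∈ Icc 1 Z, alG g β m) * (∏ r : Pr k, zN Y (pp β r)) =
      ∑ n ∈ tup k (LZ k Z Y), (∑ f ∈ tup r (Z ^ 2), (bY (∏ i, f i) Z Y n : ℂ) * ∏ i, g i (f i)) *
        cx n β := by
    rw [expand]
    have h4 : ∀ φ ∈ tup r (Z ^ 2), (∏ i, g i (φ i)) *
        ∑ ω ∈ Om k (∏ i, φ i) Z Y, (wt ω : ℂ) * cx (fi ω) β =
        ∑ n ∈ tup k (LZ k Z Y), ((bY (∏ i, φ i) Z Y n : ℂ) * ∏ i, g i (φ i)) * cx n β := by
      intro φ _
      rw [group, Finset.mul_sum]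
      exact Finset.sum_congr rfl fun n _ => by ring
    rw [Finset.sum_congr rfl h4, Finset.sum_comm]
    exact Finset.sum_congr rfl fun n _ => by rw [Finset.sum_mul]
  rw [h3, h1, ← Finset.sum_sub_distrib]
  refine Finset.sum_congr rfl fun n hn => ?_
  rw [mem_tup] at hn
  rw [← sub_mul, ← Finset.sum_sub_distrib, cx_split (fun j => (hn j).1)]
  unfold cD
  rw [mul_assoc (∑ f ∈ tup r (Z ^ 2), (cd Z Y n f : ℂ) * ∏ i, g i (f i))]
  congr 1
  refine Finset.sum_congr rfl fun f _ => ?_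
  unfold cd
  push_cast
  ring

/-- bound for the coefficients -/
lemma cD_bd (k r : ℕ) {τ : ℝ} (hτ : 0 < τ) (hτ1 : τ ≤ 1 / 8) : ∃ C : ℝ, 0 < C ∧
    ∀ (g : Fin r → ArithmeticFunction ℂ) (Y : ℕ) (n : Fin k → ℕ), 1 ≤ Y →
      (∀ i (m : ℕ), 1 ≤ m → ‖g i m‖ ≤ (m : ℝ) ^ (-(1 / 2 + 2 * τ))) → (∀ j, 1 ≤ n j) →
      ‖cD g (Y ^ (k + r)) Y n * ((PP n ^ (-(1 / 2) : ℝ) : ℝ) : ℂ)‖ ≤
        C * (Y : ℝ) ^ (-τ) * PP n ^ (-(8 / 25) : ℝ) *
          ∑ f ∈ (tup r ((Y ^ (k + r)) ^ 2)).filter (fun f => IsSquare ((∏ j, n j) * ∏ i, f i)),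
            PP f ^ (-(1 / 2 + τ)) := by
  classical
  obtain ⟨Cb, hCb0, hCb⟩ := bY_bound k
  refine ⟨Cb, hCb0, fun g Y n hY hg hn => ?_⟩
  obtain ⟨Z, hZ⟩ : ∃ Z : ℕ, Z = Y ^ (k + r) := ⟨_, rfl⟩
  rw [← hZ]
  have hYr : (1 : ℝ) ≤ Y := by exact_mod_cast hY
  have hY0 : (0 : ℝ) < Y := by linarith
  have hP := one_le_PP hn
  have hP0 : 0 < PP n := by linarith
  rw [norm_mul, Complex.norm_real, Real.norm_of_nonneg (by positivity)]
  unfold cD
  rw [Finset.sum_filter, Finset.mul_sum, mul_comm, ]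
  have hterm : ∀ f ∈ tup r (Z ^ 2), PP n ^ (-(1 / 2) : ℝ) * ‖(cd Z Y n f : ℂ) * ∏ i, g i (f i)‖ ≤
      Cb * (Y : ℝ) ^ (-τ) * PP n ^ (-(8 / 25) : ℝ) *
        (if IsSquare ((∏ j, n j) * ∏ i, f i) then PP f ^ (-(1 / 2 + τ)) else 0) := by
    intro f hf
    have hf' := mem_tup.mp hf
    have hF := one_le_PP fun j => (hf' j).1
    have hF0 : 0 < PP f := by linarith
    have hgf : ‖∏ i, g i (f i)‖ ≤ PP f ^ (-(1 / 2 + 2 * τ)) := by
      rw [norm_prod]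
      calc ∏ i, ‖g i (f i)‖ ≤ ∏ i, ((f i : ℕ) : ℝ) ^ (-(1 / 2 + 2 * τ)) :=
            Finset.prod_le_prod (fun _ _ => norm_nonneg _) fun i _ => hg i (f i) (hf' i).1
        _ = PP f ^ (-(1 / 2 + 2 * τ)) := by
            unfold PP
            rw [Nat.cast_prod, ← Real.finsetProd_rpow _ _ (fun i _ => Nat.cast_nonneg _)]
    by_cases hbox : n ∈ tup k Y ∧ f ∈ tup r Y
    · have h0 : cd Z Y n f = 0 := by
        rw [hZ]
        exact cd_box hY hbox.1 hbox.2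
      rw [h0]
      simp only [Complex.ofReal_zero, zero_mul, norm_zero, mul_zero]
      split_ifs <;> positivity
    · have hcd := cd_out (Z := Z) hbox
      by_cases hz : bY (∏ i, f i) Z Y n = 0
      · rw [hcd, hz]
        simp only [Complex.ofReal_zero, zero_mul, norm_zero, mul_zero]
        split_ifs <;> positivity
      · rw [if_pos (bY_sq hz), hcd, norm_mul, Complex.norm_real, Real.norm_eq_abs]
        have hb := hCb (∏ i, f i) Z Y n hn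
        -- one of the two is large
        have hlarge : (Y : ℝ) ^ τ ≤ PP n ^ (17 / 100 : ℝ) * PP f ^ τ := by
          have a1 : 1 ≤ PP n ^ (17 / 100 : ℝ) := Real.one_le_rpow hP (by norm_num)
          have a2 : 1 ≤ PP f ^ τ := Real.one_le_rpow hF hτ.le
          by_cases h1 : n ∈ tup k Y
          · have h2 : f ∉ tup r Y := fun h => hbox ⟨h1, h⟩
            have hex : ∃ j, Y < f j := by
              by_contra hcon
              push Not at hcon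
              exact h2 (mem_tup.mpr fun j => ⟨(hf' j).1, hcon j⟩)
            obtain ⟨j, hj⟩ := hex
            have h3 : (Y : ℝ) ≤ PP f := by
              have h4 := le_PP (fun j => (hf' j).1) j
              have h5 : (Y : ℝ) < f j := by exact_mod_cast hj
              linarith
            calc (Y : ℝ) ^ τ ≤ PP f ^ τ := Real.rpow_le_rpow hY0.le h3 hτ.le
              _ ≤ PP n ^ (17 / 100 : ℝ) * PP f ^ τ := le_mul_of_one_le_left (by positivity) a1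
          · have hex : ∃ j, Y < n j := by
              by_contra hcon
              push Not at hcon
              exact h1 (mem_tup.mpr fun j => ⟨hn j, hcon j⟩)
            obtain ⟨j, hj⟩ := hex
            have h3 : (Y : ℝ) ≤ PP n := by
              have h4 := le_PP hn j
              have h5 : (Y : ℝ) < n j := by exact_mod_cast hj
              linarith
            calc (Y : ℝ) ^ τ ≤ PP n ^ τ := Real.rpow_le_rpow hY0.le h3 hτ.le
              _ ≤ PP n ^ (17 / 100 : ℝ) := Real.rpow_le_rpow_of_exponent_le hP (by linarith)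
              _ ≤ PP n ^ (17 / 100 : ℝ) * PP f ^ τ := le_mul_of_one_le_right (by positivity) a2
        have hlarge' : 1 ≤ (Y : ℝ) ^ (-τ) * (PP n ^ (17 / 100 : ℝ) * PP f ^ τ) := by
          calc (1 : ℝ) = (Y : ℝ) ^ (-τ) * (Y : ℝ) ^ τ := by
                rw [← Real.rpow_add hY0]
                simp
            _ ≤ _ := mul_le_mul_of_nonneg_left hlarge (by positivity)
        calc PP n ^ (-(1 / 2) : ℝ) * (|bY (∏ i, f i) Z Y n| * ‖∏ i, g i (f i)‖)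
            ≤ PP n ^ (-(1 / 2) : ℝ) * ((Cb * PP n ^ (1 / 100 : ℝ)) * PP f ^ (-(1 / 2 + 2 * τ))) := by
              gcongr
          _ ≤ PP n ^ (-(1 / 2) : ℝ) * ((Cb * PP n ^ (1 / 100 : ℝ)) * PP f ^ (-(1 / 2 + 2 * τ))) *
                ((Y : ℝ) ^ (-τ) * (PP n ^ (17 / 100 : ℝ) * PP f ^ τ)) :=
              le_mul_of_one_le_right (by positivity) hlarge'
          _ = Cb * (Y : ℝ) ^ (-τ) * (PP n ^ (-(1 / 2) : ℝ) * PP n ^ (1 / 100 : ℝ) * PP n ^ (17 / 100 : ℝ)) *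
                (PP f ^ (-(1 / 2 + 2 * τ)) * PP f ^ τ) := by ring
          _ = Cb * (Y : ℝ) ^ (-τ) * PP n ^ (-(8 / 25) : ℝ) * PP f ^ (-(1 / 2 + τ)) := by
              rw [← Real.rpow_add hP0, ← Real.rpow_add hP0, ← Real.rpow_add hF0]
              congr 2
              · congr 1
                norm_num
              · ring
  calc PP n ^ (-(1 / 2) : ℝ) * ‖∑ f ∈ tup r (Z ^ 2), (cd Z Y n f : ℂ) * ∏ i, g i (f i)‖
      ≤ PP n ^ (-(1 / 2) : ℝ) * ∑ f ∈ tup r (Z ^ 2), ‖(cd Z Y n f : ℂ) * ∏ i, g i (f i)‖ :=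
        mul_le_mul_of_nonneg_left (norm_sum_le _ _) (by positivity)
    _ = ∑ f ∈ tup r (Z ^ 2), PP n ^ (-(1 / 2) : ℝ) * ‖(cd Z Y n f : ℂ) * ∏ i, g i (f i)‖ :=
        Finset.mul_sum _ _ _
    _ ≤ _ := Finset.sum_le_sum hterm

/-- the truncation of the product of Dirichlet polynomials -/
theorem coefG (hfl : S_FL) (k r : ℕ) {τ : ℝ} (hτ : 0 < τ) (hτ1 : τ ≤ 1 / 8) : ∃ (C : ℝ) (B : ℕ), 0 < C ∧
    ∀ (A : ℝ) (Y : ℕ) (g : Fin r → ArithmeticFunction ℂ),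
      (∀ i (m : ℕ), 1 ≤ m → ‖g i m‖ ≤ (m : ℝ) ^ (-(1 / 2 + 2 * τ))) → 1 ≤ Y → (Y : ℝ) ^ B ≤ A →
      ∫⁻ β, ENNReal.ofReal (‖(∑ m ∈ Finset.Icc 1 (Y ^ (k + r)), alG g β m) *
        (∏ r : Pr k, zN Y (pp β r)) - SG g Y β‖ ^ 2) ∂(mS k A) ≤
        ENNReal.ofReal (C * A ^ k * (Y : ℝ) ^ (-(2 * τ))) := by
  classical
  obtain ⟨Cb, hCb0, hCb⟩ := cD_bd k r hτ hτ1
  obtain ⟨Cs, hCs0, hCs⟩ := sumsq2 k r hτ hτ1
  obtain ⟨Z0, hZ00, hZ0⟩ := sumcl r hτ
  obtain ⟨E, hE⟩ : ∃ E : ℕ, E = 2 * (k + r) + (k + r + 1) * (2 * Fintype.card (Pr k)) := ⟨_, rfl⟩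
  refine ⟨2 ^ k * (Cb ^ 2 * Z0 * Cs + 2 * (Cb * Z0) ^ 2), E * (2 * k + 1) + 1, by positivity,
    fun A Y g hg hY hA => ?_⟩
  have hYr : (1 : ℝ) ≤ Y := by exact_mod_cast hY
  have hY0 : (0 : ℝ) < Y := by linarith
  have hA1 : 1 ≤ A := (one_le_pow₀ hYr).trans hA
  have hA0 : 0 < A := by linarith
  obtain ⟨Z, hZ⟩ : ∃ Z : ℕ, Z = Y ^ (k + r) := ⟨_, rfl⟩
  obtain ⟨L, hL⟩ : ∃ L : ℕ, L = LZ k Z Y := ⟨_, rfl⟩
  have hLE : (L : ℝ) = (Y : ℝ) ^ E := by
    rw [hL, hE, hZ]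
    unfold LZ
    push_cast
    rw [← pow_succ, ← pow_mul, ← pow_mul, ← pow_add]
    congr 1
    ring
  have hL1 : 1 ≤ L := by
    have : (1 : ℝ) ≤ L := by rw [hLE]; exact one_le_pow₀ hYr
    exact_mod_cast this
  have hL1r : (1 : ℝ) ≤ L := by exact_mod_cast hL1
  obtain ⟨c, hc⟩ : ∃ c : (Fin k → ℕ) → ℂ, c = fun n => cD g Z Y n * ((PP n ^ (-(1 / 2) : ℝ) : ℝ) : ℂ) :=
    ⟨_, rfl⟩
  have hfl := hfl k L A c hL1 hA0
  have hint : ∀ β : Fin k → ℝ, (∑ m ∈ Finset.Icc 1 (Y ^ (k + r)), alG g β m) *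
      (∏ r : Pr k, zN Y (pp β r)) - SG g Y β = ∑ n ∈ tup k L, c n * ∏ j, (n j : ℂ) ^ (-(I * (β j : ℂ))) := by
    intro β
    rw [hL, hc, hZ]
    exact diff_eq g hY β
  simp only [hint]
  refine hfl.trans (ENNReal.ofReal_le_ofReal ?_)
  obtain ⟨S, hS⟩ : ∃ S : (Fin k → ℕ) → ℝ, S = fun n =>
    ∑ f ∈ (tup r (Z ^ 2)).filter (fun f => IsSquare ((∏ j, n j) * ∏ i, f i)), PP f ^ (-(1 / 2 + τ)) :=
    ⟨_, rfl⟩
  have hS0 : ∀ n, 0 ≤ S n := by
    intro n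
    rw [hS]
    refine Finset.sum_nonneg fun f _ => ?_
    unfold PP
    positivity
  have hSZ : ∀ n ∈ tup k L, S n ≤ Z0 := by
    intro n hn
    rw [hS]
    exact hZ0 (Z ^ 2) (∏ j, n j) (tup_prod_pos hn)
  have hcn : ∀ n ∈ tup k L, ‖c n‖ ≤ Cb * (Y : ℝ) ^ (-τ) * PP n ^ (-(8 / 25) : ℝ) * S n := by
    intro n hn
    rw [hc, hS, hZ]
    exact hCb g Y n hY hg fun j => ((mem_tup.mp hn) j).1
  have hSsum : ∑ n ∈ tup k L, PP n ^ (-(16 / 25) : ℝ) * S n ≤ Cs := by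
    refine le_trans (le_of_eq ?_) (hCs L (Z ^ 2))
    rw [Finset.sum_filter, Finset.sum_product]
    refine Finset.sum_congr rfl fun n _ => ?_
    rw [hS]
    simp only
    rw [Finset.sum_filter, Finset.mul_sum]
    refine Finset.sum_congr rfl fun f _ => ?_
    split_ifs
    · rfl
    · rw [mul_zero]
  -- first sum
  have hS1 : ∑ n ∈ tup k L, ‖c n‖ ^ 2 ≤ Cb ^ 2 * (Y : ℝ) ^ (-(2 * τ)) * Z0 * Cs := by
    have h1 : ∀ n ∈ tup k L, ‖c n‖ ^ 2 ≤ (Cb ^ 2 * (Y : ℝ) ^ (-(2 * τ)) * Z0) *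
        (PP n ^ (-(16 / 25) : ℝ) * S n) := by
      intro n hn
      have hP := one_le_PP (fun j => ((mem_tup.mp hn) j).1)
      have hP0 : 0 < PP n := by linarith
      have e1 : (PP n ^ (-(8 / 25) : ℝ)) ^ 2 = PP n ^ (-(16 / 25) : ℝ) := by
        rw [← Real.rpow_natCast, ← Real.rpow_mul hP0.le]
        norm_num
      have e2 : ((Y : ℝ) ^ (-τ)) ^ 2 = (Y : ℝ) ^ (-(2 * τ)) := by
        rw [← Real.rpow_natCast, ← Real.rpow_mul hY0.le]
        congr 1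
        push_cast
        ring
      calc ‖c n‖ ^ 2 ≤ (Cb * (Y : ℝ) ^ (-τ) * PP n ^ (-(8 / 25) : ℝ) * S n) ^ 2 :=
            pow_le_pow_left₀ (norm_nonneg _) (hcn n hn) 2
        _ = Cb ^ 2 * ((Y : ℝ) ^ (-τ)) ^ 2 * (PP n ^ (-(8 / 25) : ℝ)) ^ 2 * (S n * S n) := by ring
        _ ≤ Cb ^ 2 * ((Y : ℝ) ^ (-τ)) ^ 2 * (PP n ^ (-(8 / 25) : ℝ)) ^ 2 * (Z0 * S n) := by
            apply mul_le_mul_of_nonneg_left _ (by positivity)
            exact mul_le_mul_of_nonneg_right (hSZ n hn) (hS0 n)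
        _ = _ := by rw [e1, e2]; ring
    refine (Finset.sum_le_sum h1).trans ?_
    rw [← Finset.mul_sum]
    exact mul_le_mul_of_nonneg_left hSsum (by positivity)
  -- second sum
  have hS2 : ∑ n ∈ tup k L, ‖c n‖ ≤ (L : ℝ) ^ k * (Cb * Z0) := by
    have h1 : ∀ n ∈ tup k L, ‖c n‖ ≤ Cb * Z0 := by
      intro n hn
      have hP := one_le_PP (fun j => ((mem_tup.mp hn) j).1)
      have a1 : (Y : ℝ) ^ (-τ) ≤ 1 := Real.rpow_le_one_of_one_le_of_nonpos hYr (by linarith)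
      have a2 : PP n ^ (-(8 / 25) : ℝ) ≤ 1 := Real.rpow_le_one_of_one_le_of_nonpos hP (by norm_num)
      have a3 : 0 ≤ (Y : ℝ) ^ (-τ) := by positivity
      have a4 : 0 ≤ PP n ^ (-(8 / 25) : ℝ) := Real.rpow_nonneg (by linarith) _
      calc ‖c n‖ ≤ Cb * (Y : ℝ) ^ (-τ) * PP n ^ (-(8 / 25) : ℝ) * S n := hcn n hn
        _ ≤ Cb * 1 * 1 * Z0 := by
            have := hSZ n hn
            have := hS0 n
            gcongr
        _ = Cb * Z0 := by ring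
    refine (Finset.sum_le_sum h1).trans ?_
    rw [Finset.sum_const, nsmul_eq_mul]
    have h5 : ((tup k L).card : ℝ) = (L : ℝ) ^ k := by
      unfold tup
      rw [Fintype.card_piFinset]
      simp
    rw [h5]
  have hS2' : (∑ n ∈ tup k L, ‖c n‖) ^ 2 ≤ (L : ℝ) ^ (2 * k) * (Cb * Z0) ^ 2 := by
    calc _ ≤ ((L : ℝ) ^ k * (Cb * Z0)) ^ 2 :=
          pow_le_pow_left₀ (Finset.sum_nonneg fun _ _ => norm_nonneg _) hS2 2
      _ = (L : ℝ) ^ (2 * k) * (Cb * Z0) ^ 2 := by rw [mul_pow, ← pow_mul, mul_comm k 2]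
  have hpow : (2 * A) ^ ((k : ℝ) - 1) = (2 * A) ^ k / (2 * A) := by
    rw [Real.rpow_sub_one (by positivity), Real.rpow_natCast]
  have hLA : (L : ℝ) ^ (2 * k + 1) * Y ≤ A := by
    rw [hLE, ← pow_mul, ← pow_succ]
    exact hA
  have hYinv : (Y : ℝ)⁻¹ ≤ (Y : ℝ) ^ (-(2 * τ)) := by
    rw [← Real.rpow_neg_one]
    exact Real.rpow_le_rpow_of_exponent_le hYr (by linarith)
  have hLA2 : (L : ℝ) ^ (2 * k + 1) / A ≤ (Y : ℝ) ^ (-(2 * τ)) := by
    refine le_trans ?_ hYinv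
    rw [div_le_iff₀ hA0, inv_mul_eq_div, le_div_iff₀ (by linarith)]
    exact hLA
  rw [hpow]
  have t1 : (2 * A) ^ k * ∑ n ∈ tup k L, ‖c n‖ ^ 2 ≤
      (2 * A) ^ k * (Cb ^ 2 * (Y : ℝ) ^ (-(2 * τ)) * Z0 * Cs) :=
    mul_le_mul_of_nonneg_left hS1 (by positivity)
  have t2 : 4 * (L : ℝ) * ((2 * A) ^ k / (2 * A)) * (∑ n ∈ tup k L, ‖c n‖) ^ 2 ≤
      (2 * A) ^ k * (2 * (Cb * Z0) ^ 2 * (Y : ℝ) ^ (-(2 * τ))) := by
    calc _ ≤ 4 * (L : ℝ) * ((2 * A) ^ k / (2 * A)) * ((L : ℝ) ^ (2 * k) * (Cb * Z0) ^ 2) :=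
          mul_le_mul_of_nonneg_left hS2' (by positivity)
      _ = (2 * A) ^ k * (2 * (Cb * Z0) ^ 2 * ((L : ℝ) ^ (2 * k + 1) / A)) := by
          rw [pow_succ]
          field_simp
          ring
      _ ≤ _ := by
          apply mul_le_mul_of_nonneg_left _ (by positivity)
          exact mul_le_mul_of_nonneg_left hLA2 (by positivity)
  calc _ ≤ (2 * A) ^ k * (Cb ^ 2 * (Y : ℝ) ^ (-(2 * τ)) * Z0 * Cs) +
        (2 * A) ^ k * (2 * (Cb * Z0) ^ 2 * (Y : ℝ) ^ (-(2 * τ))) := add_le_add t1 t2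
    _ = 2 ^ k * (Cb ^ 2 * Z0 * Cs + 2 * (Cb * Z0) ^ 2) * A ^ k * (Y : ℝ) ^ (-(2 * τ)) := by
        rw [mul_pow]
        ring

end

end Pool.Agent.V8H6.RW.CoefG
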