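import Pool.Agent.N879.QM.Coef
import Pool.Agent.N879.QM.Eul
import Pool.Agent.N879.QM.Fl

set_option autoImplicit false

/-!
Moments of quadratic Dirichlet `L`-functions for almost all shifts, with weights: definitions.
-/

namespace Pool.Agent.V8H6.RW

open Complex Filter Topology MeasureTheory Set
open Pool.Agent.N879.QM
open scoped BigOperators

noncomputable section

variable {k r : ℕ}

/-- the diagonal sum with additional variables with the coefficients `g_i` -/
def SG (g : Fin r → ArithmeticFunction ℂ) (N : ℕ) (β : Fin k → ℝ) : ℂ :=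
  ∑ n ∈ tup k N, ∑ m ∈ tup r N, if IsSquare ((∏ j, n j) * ∏ i, m i) then
    (af ((∏ j, n j) * ∏ i, m i) : ℂ) * cx n β * ∏ i, g i (m i) else 0

/-- `m ↦ a(m) ∑_{n_1 ⋯ n_k m_1 ⋯ m_r = m²} ∏ n_j^{-s_j} ∏ g_i(m_i)` -/
def gG (g : Fin r → ArithmeticFunction ℂ) (β : Fin k → ℝ) : ArithmeticFunction ℂ :=
  ⟨fun m => if m = 0 then 0 else (af m : ℂ) * ((∏ j, Eul.pw (Eul.sx β j)) * ∏ i, g i) (m ^ 2), by simp⟩

/-- the coefficients of the Euler product -/
def alG (g : Fin r → ArithmeticFunction ℂ) (β : Fin k → ℝ) : ArithmeticFunction ℂ :=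
  gG g β * ∏ r : Pr k, muA (pp β r)

end

end Pool.Agent.V8H6.RW
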