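import Pool.Agent.V8H6.RW.Def

set_option autoImplicit false

/-!
Weighted moments: the Euler product (after `Pool.Agent.N879.QM.Eul`).
-/

namespace Pool.Agent.V8H6.RW

open Complex hiding im
open Filter Topology
open Pool.Agent.N879.QM
open scoped BigOperators

noncomputable section

variable {k a b : ℕ}

/-- the coefficients of the additional factors: `n^{-u_i}` and `μ(n) n^{-v_l}` -/
def gW (u : Fin a → ℂ) (v : Fin b → ℂ) : Fin (a + b) → ArithmeticFunction ℂ :=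
  Fin.append (fun i => Eul.pw (-(u i))) (fun l => muA (v l))

/-- the local factor -/
def locW (z : Fin k → ℂ) (u : Fin a → ℂ) (v : Fin b → ℂ) (p : ℕ) : ℂ :=
  (∏ r : Pr k, (1 - (p : ℂ) ^ (-(1 + z r.1.1 + z r.1.2)))) *
    (1 / 2 * ((∏ j, (1 - (p : ℂ) ^ (-(1 / 2 + z j)))⁻¹) * (∏ i, (1 - (p : ℂ) ^ (-(u i)))⁻¹) *
        (∏ l, (1 - (p : ℂ) ^ (-(v l)))) +
      (∏ j, (1 + (p : ℂ) ^ (-(1 / 2 + z j)))⁻¹) * (∏ i, (1 + (p : ℂ) ^ (-(u i)))⁻¹) *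
        (∏ l, (1 + (p : ℂ) ^ (-(v l))))) + 1 / (p : ℂ)) *
    (1 + 1 / (p : ℂ))⁻¹

/-- the Euler product -/
def AkW (z : Fin k → ℂ) (u : Fin a → ℂ) (v : Fin b → ℂ) : ℂ := ∏' p : Nat.Primes, locW z u v p

/-- the main term -/
def MTW (z : Fin k → ℂ) (u : Fin a → ℂ) (v : Fin b → ℂ) : ℂ :=
  AkW z u v * ∏ r : Pr k, riemannZeta (1 + z r.1.1 + z r.1.2)

namespace EulG

open Pool.Agent.N879.QM.Eul

lemma prod_gW (u : Fin a → ℂ) (v : Fin b → ℂ) :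
    ∏ i, gW u v i = (∏ i, pw (-(u i))) * ∏ l, muA (v l) := by
  rw [Fin.prod_univ_add]
  simp [gW]

lemma gW_bd {τ : ℝ} {u : Fin a → ℂ} {v : Fin b → ℂ} (hu : ∀ i, 1 / 2 + 2 * τ ≤ (u i).re)
    (hv : ∀ i, 1 / 2 + 2 * τ ≤ (v i).re) (i : Fin (a + b)) {m : ℕ} (hm : 1 ≤ m) :
    ‖gW u v i m‖ ≤ (m : ℝ) ^ (-(1 / 2 + 2 * τ)) := by
  have hm0 : (0 : ℝ) < m := by exact_mod_cast hm
  have hm1 : (1 : ℝ) ≤ m := by exact_mod_cast hm
  refine Fin.addCases (fun j => ?_) (fun j => ?_) i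
  · unfold gW
    rw [Fin.append_left, pw_apply _ (by omega), Complex.norm_natCast_cpow_of_pos (by omega)]
    apply Real.rpow_le_rpow_of_exponent_le hm1
    rw [Complex.neg_re]
    linarith [hu j]
  · unfold gW
    rw [Fin.append_right, muA_apply, norm_mul, Complex.norm_natCast_cpow_of_pos (by omega)]
    have h1 : ‖((ArithmeticFunction.moebius m : ℤ) : ℂ)‖ ≤ 1 := by
      have h := ArithmeticFunction.abs_moebius_le_one (n := m)
      rw [Complex.norm_intCast]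
      exact_mod_cast h
    calc ‖((ArithmeticFunction.moebius m : ℤ) : ℂ)‖ * (m : ℝ) ^ (-(v j)).re
        ≤ 1 * (m : ℝ) ^ (-(1 / 2 + 2 * τ)) := by
          apply mul_le_mul h1 _ (by positivity) (by norm_num)
          apply Real.rpow_le_rpow_of_exponent_le hm1
          rw [Complex.neg_re]
          linarith [hv j]
      _ = _ := one_mul _

/-- the product of all the coefficient functions -/
def FF (u : Fin a → ℂ) (v : Fin b → ℂ) (β : Fin k → ℝ) : ArithmeticFunction ℂ :=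
  (∏ j, pw (sx β j)) * ∏ i, gW u v i

lemma prod_mult {ι : Type} (s : Finset ι) (f : ι → ArithmeticFunction ℂ)
    (h : ∀ i ∈ s, (f i).IsMultiplicative) : (∏ i ∈ s, f i).IsMultiplicative :=
  Finset.prod_induction _ (fun f : ArithmeticFunction ℂ => f.IsMultiplicative)
    (fun _ _ ha hb => ha.mul hb) ArithmeticFunction.isMultiplicative_one h

lemma FF_mult (u : Fin a → ℂ) (v : Fin b → ℂ) (β : Fin k → ℝ) : (FF u v β).IsMultiplicative := by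
  unfold FF
  rw [prod_gW]
  exact (prod_mult _ _ fun _ _ => pw_mult _).mul
    ((prod_mult _ _ fun _ _ => pw_mult _).mul (prod_mult _ _ fun _ _ => muA_mult _))

lemma gG_eq (u : Fin a → ℂ) (v : Fin b → ℂ) (β : Fin k → ℝ) {m : ℕ} (hm : m ≠ 0) :
    gG (gW u v) β m = (af m : ℂ) * FF u v β (m ^ 2) := by
  show (if m = 0 then 0 else (af m : ℂ) * ((∏ j, pw (sx β j)) * ∏ i, gW u v i) (m ^ 2)) = _
  rw [if_neg hm]
  rfl

lemma gG_mult (u : Fin a → ℂ) (v : Fin b → ℂ) (β : Fin k → ℝ) : (gG (gW u v) β).IsMultiplicative := by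
  rw [ArithmeticFunction.IsMultiplicative.iff_ne_zero]
  refine ⟨?_, fun {m n} hm hn hmn => ?_⟩
  · rw [gG_eq u v β one_ne_zero, one_pow, (FF_mult u v β).map_one]
    simp [af]
  · rw [gG_eq u v β (mul_ne_zero hm hn), gG_eq u v β hm, gG_eq u v β hn, af_mul hmn, mul_pow,
      (FF_mult u v β).map_mul_of_coprime (Nat.Coprime.pow 2 2 hmn)]
    push_cast
    ring

lemma alG_mult (u : Fin a → ℂ) (v : Fin b → ℂ) (β : Fin k → ℝ) : (alG (gW u v) β).IsMultiplicative := by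
  unfold alG
  exact (gG_mult u v β).mul (prod_mult _ _ fun _ _ => muA_mult _)

/-! ### Bell series -/

/-- the Bell series of the additional factors -/
def BB (u : Fin a → ℂ) (v : Fin b → ℂ) (p : ℕ) : PowerSeries ℂ :=
  (∏ i, gs ((p : ℂ) ^ (-(u i)))) * ∏ l, li ((p : ℂ) ^ (-(v l)))

/-- the whole product -/
def HB (u : Fin a → ℂ) (v : Fin b → ℂ) (β : Fin k → ℝ) (p : ℕ) : PowerSeries ℂ := H β p * BB u v p

lemma bell_FF (u : Fin a → ℂ) (v : Fin b → ℂ) (β : Fin k → ℝ) {p : ℕ} (hp : p.Prime) :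
    bell p (FF u v β) = HB u v β p := by
  unfold FF HB H BB
  rw [prod_gW, bell_mul hp, bell_mul hp, bell_prod hp, bell_prod hp, bell_prod hp]
  congr 1
  · exact Finset.prod_congr rfl fun j _ => bell_pw hp _
  congr 1
  · exact Finset.prod_congr rfl fun j _ => bell_pw hp _
  · exact Finset.prod_congr rfl fun j _ => bell_mu hp _

/-- the first factor -/
def GW (u : Fin a → ℂ) (v : Fin b → ℂ) (β : Fin k → ℝ) (p : ℕ) : PowerSeries ℂ := bell p (gG (gW u v) β)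

lemma bell_alG (u : Fin a → ℂ) (v : Fin b → ℂ) (β : Fin k → ℝ) {p : ℕ} (hp : p.Prime) :
    bell p (alG (gW u v) β) = GW u v β p * Mu β p := by
  unfold alG GW Mu
  rw [bell_mul hp, bell_prod hp]
  congr 1
  exact Finset.prod_congr rfl fun r _ => bell_mu hp _

lemma coeff_zero_li (x : ℂ) : PowerSeries.coeff 0 (li x) = 1 := by
  rw [coeff_li, if_pos rfl]

lemma coeff_zero_prod {ι : Type} (s : Finset ι) (F : ι → PowerSeries ℂ)
    (h : ∀ i ∈ s, PowerSeries.coeff 0 (F i) = 1) : PowerSeries.coeff 0 (∏ i ∈ s, F i) = 1 := by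
  rw [PowerSeries.coeff_zero_eq_constantCoeff_apply, map_prod]
  refine Finset.prod_eq_one fun j hj => ?_
  rw [← PowerSeries.coeff_zero_eq_constantCoeff_apply, h j hj]

lemma coeff_zero_mul' (F F' : PowerSeries ℂ) : PowerSeries.coeff 0 (F * F') =
    PowerSeries.coeff 0 F * PowerSeries.coeff 0 F' := by
  rw [PowerSeries.coeff_zero_eq_constantCoeff_apply, map_mul,
    ← PowerSeries.coeff_zero_eq_constantCoeff_apply, ← PowerSeries.coeff_zero_eq_constantCoeff_apply]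

lemma coeff_zero_BB (u : Fin a → ℂ) (v : Fin b → ℂ) (p : ℕ) : PowerSeries.coeff 0 (BB u v p) = 1 := by
  unfold BB
  rw [coeff_zero_mul', coeff_zero_prod _ _ fun _ _ => coeff_zero_gs _,
    coeff_zero_prod _ _ fun _ _ => coeff_zero_li _, one_mul]

lemma coeff_zero_HB (u : Fin a → ℂ) (v : Fin b → ℂ) (β : Fin k → ℝ) (p : ℕ) :
    PowerSeries.coeff 0 (HB u v β p) = 1 := by
  unfold HB
  rw [coeff_zero_mul', coeff_zero_H, coeff_zero_BB, one_mul]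

lemma coeff_GW (u : Fin a → ℂ) (v : Fin b → ℂ) (β : Fin k → ℝ) {p : ℕ} (hp : p.Prime) (w : ℕ) :
    PowerSeries.coeff w (GW u v β p) = ((p : ℂ) / (p + 1)) * PowerSeries.coeff (2 * w) (HB u v β p) +
      (if w = 0 then 1 - (p : ℂ) / (p + 1) else 0) := by
  unfold GW bell
  rw [PowerSeries.coeff_mk, gG_eq u v β (pow_ne_zero w hp.ne_zero)]
  have h1 : FF u v β ((p ^ w) ^ 2) = PowerSeries.coeff (2 * w) (HB u v β p) := by
    have h2 : PowerSeries.coeff (2 * w) (bell p (FF u v β)) = FF u v β (p ^ (2 * w)) := by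
      unfold bell
      rw [PowerSeries.coeff_mk]
    rw [← pow_mul, mul_comm w 2, ← h2, bell_FF u v β hp]
  rw [h1]
  rcases Nat.eq_zero_or_pos w with h | h
  · subst h
    rw [if_pos rfl, mul_zero, coeff_zero_HB]
    simp [af]
  · rw [if_neg (by omega), add_zero]
    congr 1
    unfold af
    rw [Nat.primeFactors_prime_pow (by omega) hp]
    simp

/-! ### Sums of the coefficients -/

lemma ev_rescale {F : PowerSeries ℂ} : ev (PowerSeries.rescale (-1 : ℂ) F) =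
    ∑' w, (-1 : ℂ) ^ w * PowerSeries.coeff w F := by
  unfold ev
  simp only [PowerSeries.coeff_rescale]

lemma even_part {F : PowerSeries ℂ} (h1 : Sm F) :
    (Summable fun w => ‖PowerSeries.coeff (2 * w) F‖) ∧
    ∑' w, PowerSeries.coeff (2 * w) F = 1 / 2 * (ev F + ev (PowerSeries.rescale (-1 : ℂ) F)) := by
  unfold Sm at h1
  have he : Summable fun w => ‖PowerSeries.coeff (2 * w) F‖ :=
    Summable.comp_injective (f := fun w => ‖PowerSeries.coeff w F‖) h1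
      (i := fun w : ℕ => 2 * w) fun a b h => by
        simp only at h
        omega
  have ho : Summable fun w => ‖PowerSeries.coeff (2 * w + 1) F‖ :=
    Summable.comp_injective (f := fun w => ‖PowerSeries.coeff w F‖) h1
      (i := fun w : ℕ => 2 * w + 1) fun a b h => by
        simp only at h
        omega
  refine ⟨he, ?_⟩
  have h3 := tsum_even_add_odd (f := fun w => PowerSeries.coeff w F) he.of_norm ho.of_norm
  have h4 : ∑' w, (-1 : ℂ) ^ (2 * w) * PowerSeries.coeff (2 * w) F +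
      ∑' w, (-1 : ℂ) ^ (2 * w + 1) * PowerSeries.coeff (2 * w + 1) F =
      ∑' w, (-1 : ℂ) ^ w * PowerSeries.coeff w F := by
    refine tsum_even_add_odd (f := fun w => (-1 : ℂ) ^ w * PowerSeries.coeff w F) ?_ ?_
    · refine Summable.of_norm (he.congr fun w => ?_)
      rw [norm_mul, norm_pow, norm_neg, norm_one, one_pow, one_mul]
    · refine Summable.of_norm (ho.congr fun w => ?_)
      rw [norm_mul, norm_pow, norm_neg, norm_one, one_pow, one_mul]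
  have h5 : ∀ w : ℕ, (-1 : ℂ) ^ (2 * w) = 1 := fun w => by rw [pow_mul]; simp
  have h6 : ∀ w : ℕ, (-1 : ℂ) ^ (2 * w + 1) = -1 := fun w => by rw [pow_succ, h5]; simp
  simp only [h5, h6, one_mul, neg_one_mul, tsum_neg] at h4
  rw [ev_rescale, ← h4]
  unfold ev
  rw [← h3]
  ring

lemma li_neg (x : ℂ) : li (-x) = PowerSeries.rescale (-1 : ℂ) (li x) := by
  ext w
  rw [PowerSeries.coeff_rescale, coeff_li, coeff_li]
  rcases w with - | - | w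
  · simp
  · simp
  · simp

/-- a pair of products -/
def PQ {ι κ : Type} [Fintype ι] [Fintype κ] (x : ι → ℂ) (y : κ → ℂ) : PowerSeries ℂ :=
  (∏ i, gs (x i)) * ∏ l, li (y l)

lemma sm_PQ {ι κ : Type} [Fintype ι] [Fintype κ] (x : ι → ℂ) (y : κ → ℂ) (hx : ∀ i, ‖x i‖ < 1) :
    Sm (PQ x y) ∧ ev (PQ x y) = (∏ i, (1 - x i)⁻¹) * ∏ l, (1 - y l) := by
  have h1 := sm_prod Finset.univ (fun i => gs (x i)) fun i _ => (sm_gs (hx i)).1
  have h2 := sm_prod Finset.univ (fun l => li (y l)) fun l _ => (sm_li _).1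
  have h3 := h1.1.mul h2.1
  refine ⟨h3.1, ?_⟩
  unfold PQ
  rw [h3.2, h1.2, h2.2]
  congr 1
  · exact Finset.prod_congr rfl fun i _ => (sm_gs (hx i)).2
  · exact Finset.prod_congr rfl fun l _ => (sm_li _).2

lemma PQ_neg {ι κ : Type} [Fintype ι] [Fintype κ] (x : ι → ℂ) (y : κ → ℂ) :
    PowerSeries.rescale (-1 : ℂ) (PQ x y) = PQ (fun i => -x i) (fun l => -y l) := by
  unfold PQ
  rw [map_mul, map_prod, map_prod]
  congr 1
  · exact Finset.prod_congr rfl fun i _ => (gs_neg _).symm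
  · exact Finset.prod_congr rfl fun l _ => (li_neg _).symm

lemma HB_eq (u : Fin a → ℂ) (v : Fin b → ℂ) (β : Fin k → ℝ) (p : ℕ) :
    HB u v β p = PQ (Sum.elim (xx β p) fun i => (p : ℂ) ^ (-(u i))) (fun l => (p : ℂ) ^ (-(v l))) := by
  unfold HB H BB PQ
  rw [Fintype.prod_sum_type]
  simp only [Sum.elim_inl, Sum.elim_inr]
  ring

lemma norm_u {τ : ℝ} (hτ : 0 < τ) {u : ℂ} (hu : 1 / 2 + 2 * τ ≤ u.re) {p : ℕ} (hp : p.Prime) :
    ‖(p : ℂ) ^ (-u)‖ ≤ (p : ℝ) ^ (-(1 / 2 + 2 * τ)) ∧ ‖(p : ℂ) ^ (-u)‖ < 1 := by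
  have hp1 : (1 : ℝ) < p := by exact_mod_cast hp.one_lt
  rw [Complex.norm_natCast_cpow_of_pos hp.pos]
  rw [Complex.neg_re]
  exact ⟨Real.rpow_le_rpow_of_exponent_le hp1.le (by linarith),
    Real.rpow_lt_one_of_one_lt_of_neg hp1 (by linarith)⟩

lemma sm_HB {τ : ℝ} (hτ : 0 < τ) {u : Fin a → ℂ} {v : Fin b → ℂ} (hu : ∀ i, 1 / 2 + 2 * τ ≤ (u i).re)
    (β : Fin k → ℝ) {p : ℕ} (hp : p.Prime) :
    Sm (HB u v β p) ∧
      ev (HB u v β p) = (∏ j, (1 - xx β p j)⁻¹) * (∏ i, (1 - (p : ℂ) ^ (-(u i)))⁻¹) *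
        (∏ l, (1 - (p : ℂ) ^ (-(v l)))) ∧
      ev (PowerSeries.rescale (-1 : ℂ) (HB u v β p)) =
        (∏ j, (1 + xx β p j)⁻¹) * (∏ i, (1 + (p : ℂ) ^ (-(u i)))⁻¹) *
        (∏ l, (1 + (p : ℂ) ^ (-(v l)))) := by
  have hx : ∀ i : Fin k ⊕ Fin a, ‖Sum.elim (xx β p) (fun i => (p : ℂ) ^ (-(u i))) i‖ < 1 := by
    rintro (i | i)
    · rw [Sum.elim_inl, norm_xx β hp]
      exact rt_lt hp
    · rw [Sum.elim_inr]
      exact (norm_u hτ (hu i) hp).2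
  have h1 := sm_PQ _ (fun l => (p : ℂ) ^ (-(v l))) hx
  have h2 := sm_PQ (fun i => -Sum.elim (xx β p) (fun i => (p : ℂ) ^ (-(u i))) i)
    (fun l => -(p : ℂ) ^ (-(v l))) (fun i => by rw [norm_neg]; exact hx i)
  rw [HB_eq]
  refine ⟨h1.1, ?_, ?_⟩
  · rw [h1.2, Fintype.prod_sum_type]
    simp only [Sum.elim_inl, Sum.elim_inr]
  · rw [PQ_neg, h2.2, Fintype.prod_sum_type]
    simp only [Sum.elim_inl, Sum.elim_inr, sub_neg_eq_add]

lemma sm_GW {τ : ℝ} (hτ : 0 < τ) {u : Fin a → ℂ} {v : Fin b → ℂ} (hu : ∀ i, 1 / 2 + 2 * τ ≤ (u i).re)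
    (β : Fin k → ℝ) {p : ℕ} (hp : p.Prime) :
    Sm (GW u v β p) ∧ ev (GW u v β p) =
      (1 / 2 * ((∏ j, (1 - xx β p j)⁻¹) * (∏ i, (1 - (p : ℂ) ^ (-(u i)))⁻¹) *
        (∏ l, (1 - (p : ℂ) ^ (-(v l)))) +
        (∏ j, (1 + xx β p j)⁻¹) * (∏ i, (1 + (p : ℂ) ^ (-(u i)))⁻¹) *
        (∏ l, (1 + (p : ℂ) ^ (-(v l))))) + 1 / (p : ℂ)) * (1 + 1 / (p : ℂ))⁻¹ := by
  obtain ⟨g1, g2, g3⟩ := sm_HB hτ (v := v) hu β hp
  obtain ⟨h1, h2⟩ := even_part g1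
  rw [g2, g3] at h2
  have h0 : Summable fun w : ℕ => ‖(if w = 0 then 1 - (p : ℂ) / (p + 1) else 0 : ℂ)‖ := by
    refine summable_of_ne_finset_zero (s := Finset.range 1) fun w hw => ?_
    rw [if_neg, norm_zero]
    intro h
    exact hw (by rw [h]; simp)
  have h3 : Summable fun w => ‖((p : ℂ) / (p + 1)) * PowerSeries.coeff (2 * w) (HB u v β p)‖ := by
    simp only [norm_mul]
    exact h1.mul_left _
  unfold Sm ev
  simp only [coeff_GW u v β hp]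
  constructor
  · exact Summable.of_nonneg_of_le (fun _ => norm_nonneg _) (fun w => norm_add_le _ _) (h3.add h0)
  · rw [Summable.tsum_add h3.of_norm h0.of_norm, tsum_mul_left, h2, tsum_ite_eq]
    have hp0 : (p : ℂ) ≠ 0 := by exact_mod_cast hp.ne_zero
    have hp1 : (p : ℂ) + 1 ≠ 0 := by exact_mod_cast Nat.succ_ne_zero p
    have e : (1 + 1 / (p : ℂ)) = (p + 1) / p := by field_simp
    rw [e, inv_div]
    field_simp
    ring

/-- the local identity -/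
lemma local_id {τ : ℝ} (hτ : 0 < τ) {u : Fin a → ℂ} {v : Fin b → ℂ} (hu : ∀ i, 1 / 2 + 2 * τ ≤ (u i).re)
    (β : Fin k → ℝ) {p : ℕ} (hp : p.Prime) :
    ∑' w, alG (gW u v) β (p ^ w) = locW (im β) u v p := by
  have h := (sm_GW hτ (v := v) hu β hp).1.mul (sm_Mu β p).1
  have e : ev (bell p (alG (gW u v) β)) = ∑' w, alG (gW u v) β (p ^ w) := by
    unfold ev bell
    simp only [PowerSeries.coeff_mk]
  rw [← e, bell_alG u v β hp, h.2, (sm_GW hτ (v := v) hu β hp).2, (sm_Mu β p).2]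
  unfold locW
  have e1 : ∀ r : Pr k, (p : ℂ) ^ (-(1 + im β r.1.1 + im β r.1.2)) = yy β p r := fun r => by
    unfold yy pp im
    congr 1
    ring
  have e2 : ∀ j : Fin k, (p : ℂ) ^ (-(1 / 2 + im β j)) = xx β p j := fun j => rfl
  simp only [e1, e2]
  ring

/-! ### Bounds -/

lemma B_bd {τ : ℝ} (hτ : 0 < τ) {u : Fin a → ℂ} {v : Fin b → ℂ} (hu : ∀ i, 1 / 2 + 2 * τ ≤ (u i).re)
    (hv : ∀ i, 1 / 2 + 2 * τ ≤ (v i).re) {p : ℕ} (hp : p.Prime) (w : ℕ) :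
    ‖PowerSeries.coeff w (BB u v p)‖ ≤
      ((w : ℝ) + 1) ^ (a + 1) * 2 ^ b * ((p : ℝ) ^ (-(1 / 2 + 2 * τ))) ^ w := by
  set ρ : ℝ := (p : ℝ) ^ (-(1 / 2 + 2 * τ)) with hρ
  have hρ0 : 0 ≤ ρ := by positivity
  unfold BB
  rw [PowerSeries.coeff_mul]
  have h1 : ∀ q ∈ Finset.HasAntidiagonal.antidiagonal w,
      ‖PowerSeries.coeff q.1 (∏ i, gs ((p : ℂ) ^ (-(u i)))) *
      PowerSeries.coeff q.2 (∏ l, li ((p : ℂ) ^ (-(v l))))‖ ≤ ((w : ℝ) + 1) ^ a * 2 ^ b * ρ ^ w := by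
    intro q hq
    have hq' := Finset.HasAntidiagonal.mem_antidiagonal.1 hq
    have h2 := prod_gs_bd Finset.univ (fun i => (p : ℂ) ^ (-(u i))) hρ0
      (fun i _ => (norm_u hτ (hu i) hp).1) q.1
    have h3 := prod_li_bd Finset.univ (fun i => (p : ℂ) ^ (-(v i))) hρ0
      (fun i _ => (norm_u hτ (hv i) hp).1) q.2
    rw [Finset.card_univ, Fintype.card_fin] at h2 h3
    have h4 : (q.1 : ℝ) ≤ w := by
      have : q.1 ≤ w := by omega
      exact_mod_cast this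
    rw [norm_mul]
    calc _ ≤ (((q.1 : ℝ) + 1) ^ a * ρ ^ q.1) * (2 ^ b * ρ ^ q.2) :=
          mul_le_mul h2 h3 (norm_nonneg _) (by positivity)
      _ = ((q.1 : ℝ) + 1) ^ a * 2 ^ b * ρ ^ w := by
          rw [← hq', pow_add]
          ring
      _ ≤ ((w : ℝ) + 1) ^ a * 2 ^ b * ρ ^ w := by gcongr
  refine (norm_sum_le_of_le _ h1).trans (le_of_eq ?_)
  rw [Finset.sum_const, Finset.Nat.card_antidiagonal, nsmul_eq_mul]
  push_cast
  ring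

lemma H_bd' (β : Fin k → ℝ) {p : ℕ} (hp : p.Prime) (w : ℕ) :
    ‖PowerSeries.coeff w (H β p)‖ ≤ ((w : ℝ) + 1) ^ k * ((p : ℝ) ^ (-(1 / 2) : ℝ)) ^ w := by
  have h := prod_gs_bd Finset.univ (xx β p) (r := (p : ℝ) ^ (-(1 / 2) : ℝ)) (by positivity)
    (fun j _ => (norm_xx β hp j).le) w
  rw [Finset.card_univ, Fintype.card_fin] at h
  exact h

lemma rho_le {τ : ℝ} (hτ : 0 < τ) {p : ℕ} (hp : p.Prime) :
    (p : ℝ) ^ (-(1 / 2 + 2 * τ)) ≤ (p : ℝ) ^ (-(1 / 2) : ℝ) :=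
  Real.rpow_le_rpow_of_exponent_le (by exact_mod_cast hp.one_lt.le) (by linarith)

lemma HB_bd {τ : ℝ} (hτ : 0 < τ) {u : Fin a → ℂ} {v : Fin b → ℂ} (hu : ∀ i, 1 / 2 + 2 * τ ≤ (u i).re)
    (hv : ∀ i, 1 / 2 + 2 * τ ≤ (v i).re) (β : Fin k → ℝ) {p : ℕ} (hp : p.Prime) (w : ℕ) :
    ‖PowerSeries.coeff w (HB u v β p)‖ ≤
      ((w : ℝ) + 1) ^ (k + a + 2) * 2 ^ b * ((p : ℝ) ^ (-(1 / 2) : ℝ)) ^ w := by
  set ρ : ℝ := (p : ℝ) ^ (-(1 / 2) : ℝ) with hρ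
  have hρ0 : 0 ≤ ρ := by positivity
  unfold HB
  rw [PowerSeries.coeff_mul]
  have h1 : ∀ q ∈ Finset.HasAntidiagonal.antidiagonal w, ‖PowerSeries.coeff q.1 (H β p) *
      PowerSeries.coeff q.2 (BB u v p)‖ ≤ ((w : ℝ) + 1) ^ (k + a + 1) * 2 ^ b * ρ ^ w := by
    intro q hq
    have hq' := Finset.HasAntidiagonal.mem_antidiagonal.1 hq
    have h2 := H_bd' β hp q.1
    have h3 : ‖PowerSeries.coeff q.2 (BB u v p)‖ ≤ ((q.2 : ℝ) + 1) ^ (a + 1) * 2 ^ b * ρ ^ q.2 := by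
      refine (B_bd hτ hu hv hp q.2).trans ?_
      have := rho_le hτ hp
      gcongr
    have h4 : (q.1 : ℝ) ≤ w := by
      have : q.1 ≤ w := by omega
      exact_mod_cast this
    have h5 : (q.2 : ℝ) ≤ w := by
      have : q.2 ≤ w := by omega
      exact_mod_cast this
    rw [norm_mul]
    calc _ ≤ (((q.1 : ℝ) + 1) ^ k * ρ ^ q.1) * (((q.2 : ℝ) + 1) ^ (a + 1) * 2 ^ b * ρ ^ q.2) :=
          mul_le_mul h2 h3 (norm_nonneg _) (by positivity)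
      _ ≤ (((w : ℝ) + 1) ^ k * ρ ^ q.1) * (((w : ℝ) + 1) ^ (a + 1) * 2 ^ b * ρ ^ q.2) := by gcongr
      _ = ((w : ℝ) + 1) ^ (k + a + 1) * 2 ^ b * ρ ^ w := by
          rw [← hq', pow_add]
          ring
  refine (norm_sum_le_of_le _ h1).trans (le_of_eq ?_)
  rw [Finset.sum_const, Finset.Nat.card_antidiagonal, nsmul_eq_mul]
  push_cast
  ring

/-- the polynomial in the bounds -/
def DW (k a b w : ℕ) : ℝ :=
  ((w : ℝ) + 1) * ((2 * w + 1 : ℝ) ^ (k + a + 2) * 2 ^ b * 2 ^ Fintype.card (Pr k))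

lemma DW_nonneg (k a b w : ℕ) : 0 ≤ DW k a b w := by
  unfold DW
  positivity

lemma GW_bd {τ : ℝ} (hτ : 0 < τ) {u : Fin a → ℂ} {v : Fin b → ℂ} (hu : ∀ i, 1 / 2 + 2 * τ ≤ (u i).re)
    (hv : ∀ i, 1 / 2 + 2 * τ ≤ (v i).re) (β : Fin k → ℝ) {p : ℕ} (hp : p.Prime) (w : ℕ) :
    ‖PowerSeries.coeff w (GW u v β p)‖ ≤ (2 * w + 1 : ℝ) ^ (k + a + 2) * 2 ^ b * ((p : ℝ)⁻¹) ^ w := by
  rw [coeff_GW u v β hp]
  have hp0 : (0 : ℝ) < p := by exact_mod_cast hp.pos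
  rcases Nat.eq_zero_or_pos w with h | h
  · subst h
    rw [if_pos rfl, mul_zero, coeff_zero_HB]
    have : (1 : ℝ) ≤ 2 ^ b := one_le_pow₀ (by norm_num)
    simpa using this
  · rw [if_neg (by omega), add_zero, norm_mul]
    have h1 : ‖(p : ℂ) / (p + 1)‖ ≤ 1 := by
      have e : (p : ℂ) / (p + 1) = (((p : ℝ) / (p + 1) : ℝ) : ℂ) := by push_cast; rfl
      rw [e, Complex.norm_real, Real.norm_of_nonneg (by positivity), div_le_one (by positivity)]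
      linarith
    have h2 := HB_bd hτ hu hv β hp (2 * w)
    rw [pow_mul ((p : ℝ) ^ (-(1 / 2) : ℝ)), rt_sq hp] at h2
    push_cast at h2
    calc ‖(p : ℂ) / (p + 1)‖ * ‖PowerSeries.coeff (2 * w) (HB u v β p)‖
        ≤ 1 * ((2 * w + 1 : ℝ) ^ (k + a + 2) * 2 ^ b * ((p : ℝ)⁻¹) ^ w) :=
          mul_le_mul h1 h2 (norm_nonneg _) zero_le_one
      _ = _ := one_mul _

lemma coeff_alG (u : Fin a → ℂ) (v : Fin b → ℂ) (β : Fin k → ℝ) {p : ℕ} (hp : p.Prime) (w : ℕ) :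
    alG (gW u v) β (p ^ w) = PowerSeries.coeff w (GW u v β p * Mu β p) := by
  rw [← bell_alG u v β hp]
  unfold bell
  rw [PowerSeries.coeff_mk]

lemma alG_bd {τ : ℝ} (hτ : 0 < τ) {u : Fin a → ℂ} {v : Fin b → ℂ} (hu : ∀ i, 1 / 2 + 2 * τ ≤ (u i).re)
    (hv : ∀ i, 1 / 2 + 2 * τ ≤ (v i).re) (β : Fin k → ℝ) {p : ℕ} (hp : p.Prime) (w : ℕ) :
    ‖alG (gW u v) β (p ^ w)‖ ≤ DW k a b w * ((p : ℝ)⁻¹) ^ w := by
  rw [coeff_alG u v β hp, PowerSeries.coeff_mul]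
  have h1 : ∀ q ∈ Finset.HasAntidiagonal.antidiagonal w, ‖PowerSeries.coeff q.1 (GW u v β p) *
      PowerSeries.coeff q.2 (Mu β p)‖ ≤
      ((2 * w + 1 : ℝ) ^ (k + a + 2) * 2 ^ b * 2 ^ Fintype.card (Pr k)) * ((p : ℝ)⁻¹) ^ w := by
    intro q hq
    have hq' := Finset.HasAntidiagonal.mem_antidiagonal.1 hq
    have h4 : (q.1 : ℝ) ≤ w := by
      have : q.1 ≤ w := by omega
      exact_mod_cast this
    rw [norm_mul]
    calc ‖PowerSeries.coeff q.1 (GW u v β p)‖ * ‖PowerSeries.coeff q.2 (Mu β p)‖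
        ≤ ((2 * q.1 + 1 : ℝ) ^ (k + a + 2) * 2 ^ b * ((p : ℝ)⁻¹) ^ q.1) *
          (2 ^ Fintype.card (Pr k) * ((p : ℝ)⁻¹) ^ q.2) :=
          mul_le_mul (GW_bd hτ hu hv β hp _) (Mu_bd β hp _) (norm_nonneg _) (by positivity)
      _ = ((2 * q.1 + 1 : ℝ) ^ (k + a + 2) * 2 ^ b * 2 ^ Fintype.card (Pr k)) * ((p : ℝ)⁻¹) ^ w := by
          rw [← hq', pow_add]
          ring
      _ ≤ _ := by gcongr
  refine (norm_sum_le_of_le _ h1).trans (le_of_eq ?_)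
  rw [Finset.sum_const, Finset.Nat.card_antidiagonal, nsmul_eq_mul]
  unfold DW
  push_cast
  ring

/-! ### The first coefficient -/

/-- the constant for the first coefficient -/
def C1 (k a b : ℕ) : ℝ := 3 ^ k + 2 ^ k * (2 ^ (a + 1) * 2 ^ b) + 3 ^ (a + 1) * 2 ^ b

lemma alG_prime (u : Fin a → ℂ) (v : Fin b → ℂ) (β : Fin k → ℝ) {p : ℕ} (hp : p.Prime) :
    alG (gW u v) β (p ^ 1) = -(PowerSeries.coeff 2 (H β p)) / (p + 1) +
      ((p : ℂ) / (p + 1)) * (PowerSeries.coeff 1 (H β p) * PowerSeries.coeff 1 (BB u v p) +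
        PowerSeries.coeff 2 (BB u v p)) := by
  have hH := (low_gs Finset.univ (xx β p)).2.2
  have hMu := low_li Finset.univ (yy β p)
  have hs := sum_pr (xx β p)
  have hy : ∑ r, yy β p r = PowerSeries.coeff 2 (H β p) := by
    have h1 : ∑ r, yy β p r = ∑ r : Pr k, xx β p r.1.1 * xx β p r.1.2 :=
      Finset.sum_congr rfl fun r _ => yy_eq β hp r
    rw [h1]
    have h2 : (2 : ℂ) ≠ 0 := two_ne_zero
    apply mul_left_cancel₀ h2
    rw [hs]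
    exact hH.symm
  have hG1 := coeff_GW u v β hp 1
  have hG0 := coeff_GW u v β hp 0
  rw [if_pos rfl, mul_zero, coeff_zero_HB] at hG0
  rw [if_neg one_ne_zero, mul_one, add_zero] at hG1
  have h2 : PowerSeries.coeff 2 (HB u v β p) = PowerSeries.coeff 2 (BB u v p) +
      PowerSeries.coeff 1 (H β p) * PowerSeries.coeff 1 (BB u v p) + PowerSeries.coeff 2 (H β p) := by
    unfold HB
    rw [coeff_two_mul, coeff_zero_H, coeff_zero_BB, one_mul, mul_one]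
  rw [coeff_alG u v β hp, coeff_one_mul, hG1, hG0, h2]
  have e0 : PowerSeries.coeff 0 (Mu β p) = 1 := hMu.1
  have e1 : PowerSeries.coeff 1 (Mu β p) = -PowerSeries.coeff 2 (H β p) := by
    rw [← hy]
    exact hMu.2
  rw [e0, e1]
  have hp1 : (p : ℂ) + 1 ≠ 0 := by exact_mod_cast Nat.succ_ne_zero p
  field_simp
  ring

lemma alG_prime_bd {τ : ℝ} (hτ : 0 < τ) (hτ1 : τ ≤ 1 / 8) {u : Fin a → ℂ} {v : Fin b → ℂ}
    (hu : ∀ i, 1 / 2 + 2 * τ ≤ (u i).re) (hv : ∀ i, 1 / 2 + 2 * τ ≤ (v i).re) (β : Fin k → ℝ) {p : ℕ}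
    (hp : p.Prime) : ‖alG (gW u v) β (p ^ 1)‖ ≤ C1 k a b * (p : ℝ) ^ (-(1 + 2 * τ)) := by
  have hp0 : (0 : ℝ) < p := by exact_mod_cast hp.pos
  have hp1 : (1 : ℝ) ≤ p := by exact_mod_cast hp.one_lt.le
  have hH2 := H_bd' β hp 2
  have hH1 := H_bd' β hp 1
  have hB1 := B_bd hτ hu hv hp 1
  have hB2 := B_bd hτ hu hv hp 2
  rw [rt_sq hp] at hH2
  norm_num at hH2 hH1 hB1 hB2
  have h2 : ‖(p : ℂ) + 1‖ = (p : ℝ) + 1 := by
    have e : (p : ℂ) + 1 = (((p : ℝ) + 1 : ℝ) : ℂ) := by push_cast; rfl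
    rw [e, Complex.norm_real, Real.norm_of_nonneg (by positivity)]
  have h1 : ‖(p : ℂ) / (p + 1)‖ ≤ 1 := by
    rw [norm_div, h2, Complex.norm_natCast, div_le_one (by positivity)]
    linarith
  have e1 : ((p : ℝ) ^ (-(1 / 2) : ℝ)) * (p : ℝ) ^ (-(1 / 2 + 2 * τ)) = (p : ℝ) ^ (-(1 + 2 * τ)) := by
    rw [← Real.rpow_add hp0]
    congr 1
    ring
  have e2 : ((p : ℝ) ^ (-(1 / 2 + 2 * τ))) ^ 2 ≤ (p : ℝ) ^ (-(1 + 2 * τ)) := by
    rw [← Real.rpow_natCast, ← Real.rpow_mul hp0.le]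
    apply Real.rpow_le_rpow_of_exponent_le hp1
    push_cast
    linarith
  have e3 : (p : ℝ)⁻¹ / (p + 1) ≤ (p : ℝ) ^ (-(1 + 2 * τ)) := by
    have h3 : (p : ℝ)⁻¹ / (p + 1) ≤ (p : ℝ)⁻¹ * (p : ℝ)⁻¹ := by
      rw [div_eq_mul_inv]
      apply mul_le_mul_of_nonneg_left _ (by positivity)
      exact inv_anti₀ hp0 (by linarith)
    refine h3.trans ?_
    rw [← Real.rpow_neg_one, ← Real.rpow_add hp0]
    apply Real.rpow_le_rpow_of_exponent_le hp1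
    linarith
  rw [alG_prime u v β hp]
  refine (norm_add_le _ _).trans ?_
  have t1 : ‖-(PowerSeries.coeff 2 (H β p)) / ((p : ℂ) + 1)‖ ≤ 3 ^ k * (p : ℝ) ^ (-(1 + 2 * τ)) := by
    rw [norm_div, norm_neg, h2]
    calc ‖PowerSeries.coeff 2 (H β p)‖ / ((p : ℝ) + 1) ≤ 3 ^ k * (p : ℝ)⁻¹ / ((p : ℝ) + 1) := by
          gcongr
      _ = 3 ^ k * ((p : ℝ)⁻¹ / ((p : ℝ) + 1)) := by ring
      _ ≤ _ := mul_le_mul_of_nonneg_left e3 (by positivity)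
  have hH1' : ‖PowerSeries.coeff 1 (H β p)‖ ≤ 2 ^ k * (p : ℝ) ^ (-(1 / 2) : ℝ) := by
    simpa using H_bd' β hp 1 |>.trans (le_of_eq (by norm_num))
  have hB1' : ‖PowerSeries.coeff 1 (BB u v p)‖ ≤ 2 ^ (a + 1) * 2 ^ b * (p : ℝ) ^ (-(1 / 2 + 2 * τ)) := by
    refine (B_bd hτ hu hv hp 1).trans (le_of_eq ?_)
    norm_num
  have hB2' : ‖PowerSeries.coeff 2 (BB u v p)‖ ≤ 3 ^ (a + 1) * 2 ^ b * (p : ℝ) ^ (-(1 + 2 * τ)) := by
    refine (B_bd hτ hu hv hp 2).trans ?_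
    norm_num
    gcongr
    refine le_trans (le_of_eq ?_) (e2.trans (le_of_eq ?_))
    · norm_num
    · norm_num
  have t2 : ‖((p : ℂ) / (p + 1)) * (PowerSeries.coeff 1 (H β p) * PowerSeries.coeff 1 (BB u v p) +
        PowerSeries.coeff 2 (BB u v p))‖ ≤
      (2 ^ k * (2 ^ (a + 1) * 2 ^ b) + 3 ^ (a + 1) * 2 ^ b) * (p : ℝ) ^ (-(1 + 2 * τ)) := by
    rw [norm_mul]
    refine (mul_le_mul h1 (norm_add_le _ _) (norm_nonneg _) zero_le_one).trans ?_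
    rw [one_mul, norm_mul]
    have t3 : ‖PowerSeries.coeff 1 (H β p)‖ * ‖PowerSeries.coeff 1 (BB u v p)‖ ≤
        2 ^ k * (2 ^ (a + 1) * 2 ^ b) * (p : ℝ) ^ (-(1 + 2 * τ)) := by
      calc _ ≤ (2 ^ k * (p : ℝ) ^ (-(1 / 2) : ℝ)) * (2 ^ (a + 1) * 2 ^ b * (p : ℝ) ^ (-(1 / 2 + 2 * τ))) :=
            mul_le_mul hH1' hB1' (norm_nonneg _) (by positivity)
        _ = 2 ^ k * (2 ^ (a + 1) * 2 ^ b) *
              (((p : ℝ) ^ (-(1 / 2) : ℝ)) * (p : ℝ) ^ (-(1 / 2 + 2 * τ))) := by ring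
        _ = _ := by rw [e1]
    rw [add_mul]
    exact add_le_add t3 hB2'
  unfold C1
  calc _ ≤ 3 ^ k * (p : ℝ) ^ (-(1 + 2 * τ)) +
        (2 ^ k * (2 ^ (a + 1) * 2 ^ b) + 3 ^ (a + 1) * 2 ^ b) * (p : ℝ) ^ (-(1 + 2 * τ)) := add_le_add t1 t2
    _ = _ := by ring

/-! ### The Dirichlet series -/

/-- the bounds for the terms of the local series -/
def ek (k a b : ℕ) : ℕ → ℝ
  | 0 => C1 k a b
  | u + 1 => DW k a b (u + 2) * q0 ^ u

lemma C1_nonneg (k a b : ℕ) : 0 ≤ C1 k a b := by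
  unfold C1
  positivity

lemma ek_nonneg (k a b u : ℕ) : 0 ≤ ek k a b u := by
  cases u with
  | zero => exact C1_nonneg k a b
  | succ u =>
    unfold ek
    have := DW_nonneg k a b (u + 2)
    have := q0_pos
    positivity

lemma ek_summable (k a b : ℕ) : Summable (ek k a b) := by
  rw [← summable_nat_add_iff 1]
  have h1 : Summable fun n : ℕ => (n : ℝ) ^ (k + a + 2 + 1) * q0 ^ n :=
    summable_pow_mul_geometric_of_norm_lt_one (k + a + 2 + 1)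
      (by rw [Real.norm_of_nonneg q0_pos.le]; exact q0_lt)
  have h2 := ((summable_nat_add_iff 3).2 h1).mul_left
    (2 ^ b * 2 ^ Fintype.card (Pr k) * 2 ^ (k + a + 2) * (q0 ^ 3)⁻¹)
  refine Summable.of_nonneg_of_le (fun u => ek_nonneg k a b (u + 1)) (fun u => ?_) h2
  show DW k a b (u + 2) * q0 ^ u ≤ _
  unfold DW
  have hq := q0_pos
  have e : (2 ^ b * 2 ^ Fintype.card (Pr k) * 2 ^ (k + a + 2) * (q0 ^ 3)⁻¹) *
      ((((u + 3 : ℕ) : ℝ)) ^ (k + a + 2 + 1) * q0 ^ (u + 3)) =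
      ((u : ℝ) + 3) * ((2 * ((u : ℝ) + 3)) ^ (k + a + 2) * 2 ^ b * 2 ^ Fintype.card (Pr k)) * q0 ^ u := by
    rw [mul_pow, pow_add q0 u 3]
    push_cast
    field_simp
    ring
  rw [e]
  have h3 : ((u + 2 : ℕ) : ℝ) + 1 = (u : ℝ) + 3 := by push_cast; ring
  have h4 : (2 * ((u + 2 : ℕ) : ℝ) + 1) ≤ 2 * ((u : ℝ) + 3) := by push_cast; linarith
  rw [h3]
  gcongr

/-- the sum of the bounds -/
def CE (k a b : ℕ) : ℝ := ∑' u, ek k a b u

lemma CE_nonneg (k a b : ℕ) : 0 ≤ CE k a b := tsum_nonneg (ek_nonneg k a b)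

/-- the absolute values with weights -/
def gg (τ : ℝ) (u : Fin a → ℂ) (v : Fin b → ℂ) (β : Fin k → ℝ) (m : ℕ) : ℝ :=
  ‖alG (gW u v) β m‖ * (m : ℝ) ^ τ

lemma gg_nonneg (τ : ℝ) (u : Fin a → ℂ) (v : Fin b → ℂ) (β : Fin k → ℝ) (m : ℕ) : 0 ≤ gg τ u v β m := by
  unfold gg
  positivity

lemma gg_one (τ : ℝ) (u : Fin a → ℂ) (v : Fin b → ℂ) (β : Fin k → ℝ) : gg τ u v β 1 = 1 := by
  unfold gg
  rw [(alG_mult u v β).map_one]
  simp

lemma gg_mul (τ : ℝ) (u : Fin a → ℂ) (v : Fin b → ℂ) (β : Fin k → ℝ) {m n : ℕ} (h : m.Coprime n) :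
    gg τ u v β (m * n) = gg τ u v β m * gg τ u v β n := by
  unfold gg
  rw [(alG_mult u v β).map_mul_of_coprime h, norm_mul, Nat.cast_mul,
    Real.mul_rpow (Nat.cast_nonneg m) (Nat.cast_nonneg n)]
  ring

lemma gg_bd {τ : ℝ} (hτ : 0 < τ) (hτ1 : τ ≤ 1 / 8) {u : Fin a → ℂ} {v : Fin b → ℂ}
    (hu : ∀ i, 1 / 2 + 2 * τ ≤ (u i).re) (hv : ∀ i, 1 / 2 + 2 * τ ≤ (v i).re) (β : Fin k → ℝ) {p : ℕ}
    (hp : p.Prime) (w : ℕ) :
    gg τ u v β (p ^ (w + 1)) ≤ (p : ℝ) ^ (-(1 + τ)) * ek k a b w := by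
  have hp0 : (0 : ℝ) < p := by exact_mod_cast hp.pos
  have hp1 : (1 : ℝ) ≤ p := by exact_mod_cast hp.one_lt.le
  have hp2 : (2 : ℝ) ≤ p := by exact_mod_cast hp.two_le
  have hinv : ((p : ℝ)⁻¹) = (p : ℝ) ^ (-1 : ℝ) := (Real.rpow_neg_one _).symm
  unfold gg
  cases w with
  | zero =>
    have h1 := alG_prime_bd hτ hτ1 hu hv β hp
    have h2 : ((p ^ 1 : ℕ) : ℝ) ^ τ = (p : ℝ) ^ τ := by simp
    rw [zero_add, h2]
    have h0 : ek k a b 0 = C1 k a b := rfl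
    rw [h0]
    have h3 : (p : ℝ) ^ (-(1 + 2 * τ)) * (p : ℝ) ^ τ = (p : ℝ) ^ (-(1 + τ)) := by
      rw [← Real.rpow_add hp0]
      congr 1
      ring
    calc ‖alG (gW u v) β (p ^ 1)‖ * (p : ℝ) ^ τ
        ≤ (C1 k a b * (p : ℝ) ^ (-(1 + 2 * τ))) * (p : ℝ) ^ τ :=
          mul_le_mul_of_nonneg_right h1 (by positivity)
      _ = C1 k a b * ((p : ℝ) ^ (-(1 + 2 * τ)) * (p : ℝ) ^ τ) := by ring
      _ = _ := by rw [h3, mul_comm]
  | succ w =>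
    have h1 := alG_bd hτ hu hv β hp (w + 1 + 1)
    show _ ≤ (p : ℝ) ^ (-(1 + τ)) * (DW k a b (w + 2) * q0 ^ w)
    have h2 : ((p : ℝ)⁻¹) ^ (w + 2) * ((p ^ (w + 2) : ℕ) : ℝ) ^ τ =
        (p : ℝ) ^ (-(2 - 2 * τ)) * ((p : ℝ) ^ (-(1 - τ))) ^ w := by
      rw [hinv, Nat.cast_pow, ← Real.rpow_natCast, ← Real.rpow_natCast, ← Real.rpow_natCast,
        ← Real.rpow_mul hp0.le, ← Real.rpow_mul hp0.le, ← Real.rpow_mul hp0.le,
        ← Real.rpow_add hp0, ← Real.rpow_add hp0]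
      congr 1
      push_cast
      ring
    have h3 : ((p : ℝ) ^ (-(1 - τ))) ^ w ≤ q0 ^ w := by
      refine pow_le_pow_left₀ (by positivity) ?_ w
      calc (p : ℝ) ^ (-(1 - τ)) ≤ (p : ℝ) ^ (-(3 / 4) : ℝ) :=
            Real.rpow_le_rpow_of_exponent_le hp1 (by linarith)
        _ ≤ q0 := Real.rpow_le_rpow_of_nonpos two_pos hp2 (by norm_num)
    have h4 : (p : ℝ) ^ (-(2 - 2 * τ)) ≤ (p : ℝ) ^ (-(1 + τ)) :=
      Real.rpow_le_rpow_of_exponent_le hp1 (by linarith)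
    have hD := DW_nonneg k a b (w + 2)
    have hq := q0_pos
    calc ‖alG (gW u v) β (p ^ (w + 2))‖ * ((p ^ (w + 2) : ℕ) : ℝ) ^ τ
        ≤ (DW k a b (w + 2) * ((p : ℝ)⁻¹) ^ (w + 2)) * ((p ^ (w + 2) : ℕ) : ℝ) ^ τ := by
          refine mul_le_mul_of_nonneg_right h1 (by positivity)
      _ = DW k a b (w + 2) * ((p : ℝ) ^ (-(2 - 2 * τ)) * ((p : ℝ) ^ (-(1 - τ))) ^ w) := by
          rw [mul_assoc, h2]
      _ ≤ DW k a b (w + 2) * ((p : ℝ) ^ (-(1 + τ)) * q0 ^ w) := by gcongr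
      _ = _ := by ring

lemma gg_local {τ : ℝ} (hτ : 0 < τ) (hτ1 : τ ≤ 1 / 8) {u : Fin a → ℂ} {v : Fin b → ℂ}
    (hu : ∀ i, 1 / 2 + 2 * τ ≤ (u i).re) (hv : ∀ i, 1 / 2 + 2 * τ ≤ (v i).re) (β : Fin k → ℝ) {p : ℕ}
    (hp : p.Prime) :
    Summable (fun w => gg τ u v β (p ^ w)) ∧
      ∑' w, gg τ u v β (p ^ w) ≤ 1 + CE k a b * (p : ℝ) ^ (-(1 + τ)) := by
  have h1 : Summable fun w => gg τ u v β (p ^ (w + 1)) :=
    Summable.of_nonneg_of_le (fun w => gg_nonneg τ u v β _) (fun w => gg_bd hτ hτ1 hu hv β hp w)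
      ((ek_summable k a b).mul_left _)
  have h2 : Summable fun w => gg τ u v β (p ^ w) :=
    (summable_nat_add_iff (f := fun w => gg τ u v β (p ^ w)) 1).1 h1
  refine ⟨h2, ?_⟩
  rw [h2.tsum_eq_zero_add, pow_zero, gg_one]
  have h3 := Summable.tsum_le_tsum (fun w => gg_bd hτ hτ1 hu hv β hp w) h1
    ((ek_summable k a b).mul_left _)
  rw [tsum_mul_left] at h3
  have e : CE k a b = ∑' u, ek k a b u := rfl
  rw [e]
  linarith

/-- the constant -/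
def CC (k a b : ℕ) (τ : ℝ) : ℝ := Real.exp (CE k a b * ∑' n : ℕ, (n : ℝ) ^ (-(1 + τ)))

lemma gg_sum {τ : ℝ} (hτ : 0 < τ) (hτ1 : τ ≤ 1 / 8) {u : Fin a → ℂ} {v : Fin b → ℂ}
    (hu : ∀ i, 1 / 2 + 2 * τ ≤ (u i).re) (hv : ∀ i, 1 / 2 + 2 * τ ≤ (v i).re) (β : Fin k → ℝ)
    (S : Finset ℕ) : ∑ m ∈ S, gg τ u v β m ≤ CC k a b τ := by
  classical
  set N : ℕ := S.sup id + 1 with hN
  have hz : Summable fun n : ℕ => (n : ℝ) ^ (-(1 + τ)) :=
    Real.summable_nat_rpow.2 (by linarith)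
  have h1 := (EulerProduct.summable_and_hasSum_smoothNumbers_prod_primesBelow_tsum
    (f := gg τ u v β) (gg_one τ u v β) (fun {m n} h => gg_mul τ u v β h)
    (fun {p} hp => (gg_local hτ hτ1 hu hv β hp).1.norm) N).2
  have h2 : HasSum ((N.smoothNumbers : Set ℕ).indicator (gg τ u v β))
      (∏ p ∈ N.primesBelow, ∑' w, gg τ u v β (p ^ w)) :=
    (hasSum_subtype_iff_indicator (f := gg τ u v β) (s := (N.smoothNumbers : Set ℕ))).1 h1
  have h0 : ∀ i, 0 ≤ (N.smoothNumbers : Set ℕ).indicator (gg τ u v β) i := fun i =>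
    Set.indicator_nonneg (fun m _ => gg_nonneg τ u v β m) i
  have h3 := sum_le_hasSum S (fun i _ => h0 i) h2
  have h4 : ∑ m ∈ S, gg τ u v β m ≤ ∑ m ∈ S, (N.smoothNumbers : Set ℕ).indicator (gg τ u v β) m := by
    refine Finset.sum_le_sum fun m hm => ?_
    rcases Nat.eq_zero_or_pos m with h | h
    · subst h
      have : gg τ u v β 0 = 0 := by
        unfold gg
        simp
      rw [this]
      exact h0 0
    · rw [Set.indicator_of_mem]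
      refine Nat.mem_smoothNumbers_of_lt h ?_
      have : m ≤ S.sup id := Finset.le_sup (f := id) hm
      omega
  refine h4.trans (h3.trans ?_)
  have hpr : ∀ p ∈ N.primesBelow, p.Prime := fun p hp => Nat.prime_of_mem_primesBelow hp
  calc ∏ p ∈ N.primesBelow, ∑' w, gg τ u v β (p ^ w)
      ≤ ∏ p ∈ N.primesBelow, Real.exp (CE k a b * (p : ℝ) ^ (-(1 + τ))) := by
        refine Finset.prod_le_prod (fun p hp => tsum_nonneg fun w => gg_nonneg τ u v β _) fun p hp => ?_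
        refine (gg_local hτ hτ1 hu hv β (hpr p hp)).2.trans ?_
        have := Real.add_one_le_exp (CE k a b * (p : ℝ) ^ (-(1 + τ)))
        linarith
    _ = Real.exp (∑ p ∈ N.primesBelow, CE k a b * (p : ℝ) ^ (-(1 + τ))) :=
        (Real.exp_sum _ _).symm
    _ ≤ CC k a b τ := by
        unfold CC
        refine Real.exp_le_exp.2 ?_
        rw [← Finset.mul_sum]
        exact mul_le_mul_of_nonneg_left (hz.sum_le_tsum _ fun n _ => by positivity) (CE_nonneg k a b)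

lemma gg_tsum {τ : ℝ} (hτ : 0 < τ) (hτ1 : τ ≤ 1 / 8) {u : Fin a → ℂ} {v : Fin b → ℂ}
    (hu : ∀ i, 1 / 2 + 2 * τ ≤ (u i).re) (hv : ∀ i, 1 / 2 + 2 * τ ≤ (v i).re) (β : Fin k → ℝ) :
    Summable (gg τ u v β) ∧ ∑' m, gg τ u v β m ≤ CC k a b τ := by
  have h := summable_of_sum_le (gg_nonneg τ u v β) (gg_sum hτ hτ1 hu hv β)
  exact ⟨h, h.tsum_le_of_sum_le (gg_sum hτ hτ1 hu hv β)⟩

lemma alG_le {τ : ℝ} (hτ : 0 < τ) (u : Fin a → ℂ) (v : Fin b → ℂ) (β : Fin k → ℝ) (m : ℕ) :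
    ‖alG (gW u v) β m‖ ≤ gg τ u v β m := by
  unfold gg
  rcases Nat.eq_zero_or_pos m with h | h
  · subst h
    simp
  · have : (1 : ℝ) ≤ (m : ℝ) ^ τ := Real.one_le_rpow (by exact_mod_cast h) hτ.le
    nlinarith [norm_nonneg (alG (gW u v) β m)]

lemma alG_summable {τ : ℝ} (hτ : 0 < τ) (hτ1 : τ ≤ 1 / 8) {u : Fin a → ℂ} {v : Fin b → ℂ}
    (hu : ∀ i, 1 / 2 + 2 * τ ≤ (u i).re) (hv : ∀ i, 1 / 2 + 2 * τ ≤ (v i).re) (β : Fin k → ℝ) :
    Summable fun m => ‖alG (gW u v) β m‖ :=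
  Summable.of_nonneg_of_le (fun _ => norm_nonneg _) (alG_le hτ u v β) (gg_tsum hτ hτ1 hu hv β).1

lemma AkW_eq {τ : ℝ} (hτ : 0 < τ) (hτ1 : τ ≤ 1 / 8) {u : Fin a → ℂ} {v : Fin b → ℂ}
    (hu : ∀ i, 1 / 2 + 2 * τ ≤ (u i).re) (hv : ∀ i, 1 / 2 + 2 * τ ≤ (v i).re) (β : Fin k → ℝ) :
    AkW (im β) u v = ∑' m, alG (gW u v) β m := by
  have h := (alG_mult u v β).eulerProduct_hasProd (alG_summable hτ hτ1 hu hv β)
  unfold AkW
  rw [← h.tprod_eq]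
  exact tprod_congr fun p => (local_id hτ hu β p.2).symm

end EulG

open EulG in
/-- the Euler product and its Dirichlet series -/
theorem eulG (k a b : ℕ) {τ : ℝ} (hτ : 0 < τ) (hτ1 : τ ≤ 1 / 8) : ∃ C : ℝ, 0 < C ∧
    ∀ (u : Fin a → ℂ) (v : Fin b → ℂ), (∀ i, 1 / 2 + 2 * τ ≤ (u i).re) →
      (∀ i, 1 / 2 + 2 * τ ≤ (v i).re) → ∀ (β : Fin k → ℝ),
      ‖AkW (im β) u v‖ ≤ C ∧ ∀ M : ℕ, 1 ≤ M →
        ‖AkW (im β) u v - ∑ m ∈ Finset.Icc 1 M, alG (gW u v) β m‖ ≤ C * (M : ℝ) ^ (-τ) := by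
  refine ⟨CC k a b τ, Real.exp_pos _, fun u v hu hv β => ⟨?_, fun M hM => ?_⟩⟩
  · rw [AkW_eq hτ hτ1 hu hv]
    refine (norm_tsum_le_tsum_norm (alG_summable hτ hτ1 hu hv β)).trans ?_
    exact (Summable.tsum_le_tsum (alG_le hτ u v β) (alG_summable hτ hτ1 hu hv β)
      (gg_tsum hτ hτ1 hu hv β).1).trans (gg_tsum hτ hτ1 hu hv β).2
  · classical
    have hs : Summable fun m => alG (gW u v) β m := (alG_summable hτ hτ1 hu hv β).of_norm
    have h1 := hs.sum_add_tsum_compl (s := Finset.Icc 1 M)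
    rw [AkW_eq hτ hτ1 hu hv, ← h1, add_sub_cancel_left]
    have hM0 : (0 : ℝ) < M := by exact_mod_cast hM
    have h2 : ∀ m : ((Finset.Icc 1 M : Finset ℕ) : Set ℕ)ᶜ.Elem, ‖alG (gW u v) β m‖ ≤
        (M : ℝ) ^ (-τ) * gg τ u v β m := by
      rintro ⟨m, hm⟩
      simp only
      rcases Nat.eq_zero_or_pos m with h | h
      · subst h
        unfold gg
        simp
      · have h3 : M < m := by
          by_contra h4
          exact hm (Finset.mem_coe.2 (Finset.mem_Icc.2 ⟨h, by omega⟩))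
        have h4 : (M : ℝ) ^ τ ≤ (m : ℝ) ^ τ :=
          Real.rpow_le_rpow hM0.le (by exact_mod_cast h3.le) hτ.le
        unfold gg
        rw [Real.rpow_neg hM0.le]
        have h5 : 0 < (M : ℝ) ^ τ := Real.rpow_pos_of_pos hM0 _
        rw [inv_mul_eq_div, le_div_iff₀ h5]
        exact mul_le_mul_of_nonneg_left h4 (norm_nonneg _)
    have h3 : Summable fun m : ((Finset.Icc 1 M : Finset ℕ) : Set ℕ)ᶜ.Elem => ‖alG (gW u v) β m‖ :=
      (alG_summable hτ hτ1 hu hv β).subtype _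
    have h4 : Summable fun m : ((Finset.Icc 1 M : Finset ℕ) : Set ℕ)ᶜ.Elem => gg τ u v β m :=
      (gg_tsum hτ hτ1 hu hv β).1.subtype _
    have h6 : ∑' m : ((Finset.Icc 1 M : Finset ℕ) : Set ℕ)ᶜ.Elem, gg τ u v β m ≤ ∑' m, gg τ u v β m :=
        Summable.tsum_subtype_le (gg τ u v β) _ (gg_nonneg τ u v β) (gg_tsum hτ hτ1 hu hv β).1
    calc ‖∑' m : ((Finset.Icc 1 M : Finset ℕ) : Set ℕ)ᶜ.Elem, alG (gW u v) β m‖
        ≤ ∑' m : ((Finset.Icc 1 M : Finset ℕ) : Set ℕ)ᶜ.Elem, ‖alG (gW u v) β m‖ :=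
          norm_tsum_le_tsum_norm h3
      _ ≤ ∑' m : ((Finset.Icc 1 M : Finset ℕ) : Set ℕ)ᶜ.Elem,
            (M : ℝ) ^ (-τ) * gg τ u v β m := Summable.tsum_le_tsum h2 h3 (h4.mul_left _)
      _ = (M : ℝ) ^ (-τ) *
            ∑' m : ((Finset.Icc 1 M : Finset ℕ) : Set ℕ)ᶜ.Elem, gg τ u v β m := tsum_mul_left
      _ ≤ (M : ℝ) ^ (-τ) * CC k a b τ :=
          mul_le_mul_of_nonneg_left (h6.trans (gg_tsum hτ hτ1 hu hv β).2) (by positivity)
      _ = CC k a b τ * (M : ℝ) ^ (-τ) := mul_comm _ _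

end

end Pool.Agent.V8H6.RW
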