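import Pool.Agent.V8H6.RW.Asm1
import Pool.Agent.N879.QM.AllB

set_option autoImplicit false

/-! Weighted moments: approximation of `L(u,χ)` and of `1/L(v,χ)` off the critical line for most characters. -/

namespace Pool.Agent.V8H6.RW

open Complex hiding im
open Filter Topology MeasureTheory Set
open Pool.Agent.N879.QM
open scoped BigOperators

noncomputable section

variable {k a b r : ℕ}

/-- the approximation by sums, from the Polya-Vinogradov inequality -/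
lemma pv_approx : ∃ C : ℝ, 0 < C ∧ ∀ (s : ℤ) (q Z : ℕ) (w : ℂ), Is s q → 1 ≤ Z → 1 / 2 ≤ w.re →
    ‖LL s q w - ∑ n ∈ Finset.Icc 1 Z, vl s q n * (n : ℂ) ^ (-w)‖ ≤
      C * ‖w‖ * (√q * Real.log q) * (Z : ℝ) ^ (-w.re) := by
  obtain ⟨C, hC, hP⟩ := t_PVI
  refine ⟨2 * √C, by positivity, ?_⟩
  intro s q Z w h hZ hw
  have : NeZero q := ⟨by have := h.1; omega⟩
  have hχ : ch s q ≠ 1 := (Is_ch h).2.2.1
  have hs : 0 < w.re := by linarith
  have hq : (2 : ℝ) ≤ q := by exact_mod_cast h.1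
  have hlog : 0 ≤ Real.log q := Real.log_nonneg (by linarith)
  have hZ0 : (0 : ℝ) < Z := by exact_mod_cast hZ
  have hB : ∀ t, ‖H307R2.Ech (ch s q) Z t‖ ≤ √C * (√q * Real.log q) := by
    intro t
    have h0 : 0 ≤ √C * (√q * Real.log q) := by positivity
    unfold H307R2.Ech
    rcases le_total Z ⌊t⌋₊ with hle | hle
    · obtain ⟨m, hm⟩ := Nat.exists_eq_add_of_le hle
      rw [hm]
      have h1 := hP s q Z m h
      have h2 : ‖∑ k ∈ Finset.Ioc Z (Z + m), (ch s q) (k : ZMod q)‖ ^ 2 ≤ (√C * (√q * Real.log q)) ^ 2 := by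
        refine h1.trans (le_of_eq ?_)
        rw [mul_pow, mul_pow, Real.sq_sqrt hC.le, Real.sq_sqrt (by linarith)]
        ring
      exact le_of_sq_le_sq h2 h0
    · rw [Finset.Ioc_eq_empty_of_le hle, Finset.sum_empty, norm_zero]
      exact h0
  have h1 := H307R2.LFunction_eq hχ hZ hs
  have h2 := H307R2.TM_norm_le hZ hB hs
  rw [LL_eq, h1]
  have e : (∑ n ∈ Finset.Icc 1 Z, (ch s q) (n : ZMod q) * (n : ℂ) ^ (-w)) =
      ∑ n ∈ Finset.Icc 1 Z, vl s q n * (n : ℂ) ^ (-w) := rfl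
  rw [e, add_sub_cancel_left, norm_mul]
  have h3 : (Z : ℝ) ^ (-w.re) / w.re ≤ 2 * (Z : ℝ) ^ (-w.re) := by
    rw [div_le_iff₀ hs]
    have : 0 ≤ (Z : ℝ) ^ (-w.re) := by positivity
    nlinarith
  calc ‖w‖ * ‖H307R2.TM Z (H307R2.Ech (ch s q) Z) w‖
      ≤ ‖w‖ * (√C * (√q * Real.log q) * (2 * (Z : ℝ) ^ (-w.re))) := by
        apply mul_le_mul_of_nonneg_left _ (norm_nonneg _)
        exact h2.trans (mul_le_mul_of_nonneg_left h3 (by positivity))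
    _ = _ := by ring

/-- sums of `wq` with weights -/
lemma wq_sum {τ : ℝ} (hτ : 0 < τ) : ∃ C : ℝ, 0 < C ∧ ∀ K : ℕ,
    ∑ n ∈ Finset.Icc 1 K, wq n * (n : ℝ) ^ (-(1 + τ)) ≤ C := by
  have hs1 : Summable (fun m : ℕ => (m : ℝ) ^ (-(1 + 2 * τ))) :=
    Real.summable_nat_rpow.mpr (by linarith)
  have hs2 : Summable (fun m : ℕ => (m : ℝ) ^ (-(1 + τ))) :=
    Real.summable_nat_rpow.mpr (by linarith)
  obtain ⟨S1, hS1⟩ : ∃ S : ℝ, S = ∑' m : ℕ, (m : ℝ) ^ (-(1 + 2 * τ)) := ⟨_, rfl⟩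
  obtain ⟨S2, hS2⟩ : ∃ S : ℝ, S = ∑' m : ℕ, (m : ℝ) ^ (-(1 + τ)) := ⟨_, rfl⟩
  have h10 : 0 ≤ S1 := by rw [hS1]; exact tsum_nonneg fun m => by positivity
  have h20 : 0 ≤ S2 := by rw [hS2]; exact tsum_nonneg fun m => by positivity
  refine ⟨S1 * S2 + 1, by positivity, fun K => ?_⟩
  have h1 : ∀ n ∈ Finset.Icc 1 K, wq n * (n : ℝ) ^ (-(1 + τ)) ≤
      ∑ m ∈ Finset.Icc 1 K, if m ^ 2 ∣ n then (m : ℝ) * (n : ℝ) ^ (-(1 + τ)) else 0 := by
    intro n hn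
    rw [Finset.mem_Icc] at hn
    unfold wq
    rw [← Finset.sum_filter, Finset.sum_mul]
    apply Finset.sum_le_sum_of_subset_of_nonneg
    · intro m hm
      rw [Finset.mem_filter, Finset.mem_Icc] at hm ⊢
      exact ⟨⟨hm.1.1, hm.1.2.trans hn.2⟩, hm.2⟩
    · intro m _ _
      positivity
  refine (Finset.sum_le_sum h1).trans ?_
  rw [Finset.sum_comm]
  have h2 : ∀ m ∈ Finset.Icc 1 K, (∑ n ∈ Finset.Icc 1 K,
      if m ^ 2 ∣ n then (m : ℝ) * (n : ℝ) ^ (-(1 + τ)) else 0) ≤ (m : ℝ) ^ (-(1 + 2 * τ)) * S2 := by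
    intro m hm
    rw [Finset.mem_Icc] at hm
    have hm0 : (0 : ℝ) < m := by exact_mod_cast hm.1
    rw [← Finset.sum_filter]
    have hsub : (Finset.Icc 1 K).filter (fun n => m ^ 2 ∣ n) ⊆
        (Finset.Icc 1 K).image (fun j => m ^ 2 * j) := by
      intro n hn
      rw [Finset.mem_filter, Finset.mem_Icc] at hn
      obtain ⟨j, rfl⟩ := hn.2
      rw [Finset.mem_image]
      refine ⟨j, Finset.mem_Icc.mpr ⟨?_, ?_⟩, rfl⟩
      · rcases Nat.eq_zero_or_pos j with h | h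
        · subst h
          simp at hn
        · exact h
      · refine le_trans ?_ hn.1.2
        exact Nat.le_mul_of_pos_left _ (Nat.pow_pos hm.1)
    have hinj : Set.InjOn (fun j : ℕ => m ^ 2 * j) ((Finset.Icc 1 K : Finset ℕ) : Set ℕ) := by
      intro j _ j' _ h
      exact Nat.eq_of_mul_eq_mul_left (Nat.pow_pos hm.1) h
    calc _ ≤ ∑ n ∈ (Finset.Icc 1 K).image (fun j => m ^ 2 * j), (m : ℝ) * ((n : ℕ) : ℝ) ^ (-(1 + τ)) :=
          Finset.sum_le_sum_of_subset_of_nonneg hsub fun _ _ _ => by positivity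
      _ = ∑ j ∈ Finset.Icc 1 K, (m : ℝ) * ((m ^ 2 * j : ℕ) : ℝ) ^ (-(1 + τ)) := Finset.sum_image hinj
      _ = ∑ j ∈ Finset.Icc 1 K, (m : ℝ) ^ (-(1 + 2 * τ)) * (j : ℝ) ^ (-(1 + τ)) := by
          refine Finset.sum_congr rfl fun j _ => ?_
          push_cast
          rw [Real.mul_rpow (by positivity) (by positivity), ← mul_assoc]
          congr 1
          rw [← Real.rpow_natCast (m : ℝ) 2, ← Real.rpow_mul hm0.le]
          nth_rewrite 1 [← Real.rpow_one (m : ℝ)]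
          rw [← Real.rpow_add hm0]
          congr 1
          push_cast
          ring
      _ = (m : ℝ) ^ (-(1 + 2 * τ)) * ∑ j ∈ Finset.Icc 1 K, (j : ℝ) ^ (-(1 + τ)) := by
          rw [Finset.mul_sum]
      _ ≤ (m : ℝ) ^ (-(1 + 2 * τ)) * S2 := by
          apply mul_le_mul_of_nonneg_left _ (by positivity)
          rw [hS2]
          exact hs2.sum_le_tsum _ fun m _ => by positivity
  refine (Finset.sum_le_sum h2).trans ?_
  rw [← Finset.sum_mul]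
  have h3 : ∑ m ∈ Finset.Icc 1 K, (m : ℝ) ^ (-(1 + 2 * τ)) ≤ S1 := by
    rw [hS1]
    exact hs1.sum_le_tsum _ fun m _ => by positivity
  have := mul_le_mul_of_nonneg_right h3 h20
  linarith

/-- the large sieve off the critical line -/
lemma hb_off {τ ε : ℝ} (hτ : 0 < τ) (hε : 0 < ε) : ∃ C : ℝ, 0 < C ∧
    ∀ (s : ℤ) (X B : ℝ) (K N : ℕ) (y : ℕ → ℂ), s = 1 ∨ s = -1 → 1 ≤ X → 1 ≤ K → (K : ℝ) ≤ X → 1 ≤ N → 0 ≤ B →
      (∀ n : ℕ, 1 ≤ n → ‖y n‖ ≤ B * (n : ℝ) ^ (-(1 / 2 + τ))) → (∀ n : ℕ, 1 ≤ n → n < N → y n = 0) →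
      ∑ q ∈ Q s X, ‖∑ n ∈ Finset.Icc 1 K, vl s q n * y n‖ ^ 2 ≤ C * B ^ 2 * X ^ (1 + ε) * (N : ℝ) ^ (-τ) := by
  obtain ⟨C1, hC1, h1⟩ := t_HBG (ε / 2) (by positivity)
  obtain ⟨C2, hC2, h2⟩ := wq_sum hτ
  refine ⟨2 * C1 * C2, by positivity, ?_⟩
  intro s X B K N y hs hX hK hKX hN hB hy hy0
  have hX0 : 0 < X := by linarith
  have hN0 : (0 : ℝ) < N := by exact_mod_cast hN
  refine (h1 s X K y hs hX hK).trans ?_
  have h3 : ∑ n ∈ Finset.Icc 1 K, wq n * ‖y n‖ ^ 2 ≤ B ^ 2 * (N : ℝ) ^ (-τ) * C2 := by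
    have h4 : ∀ n ∈ Finset.Icc 1 K, wq n * ‖y n‖ ^ 2 ≤
        (B ^ 2 * (N : ℝ) ^ (-τ)) * (wq n * (n : ℝ) ^ (-(1 + τ))) := by
      intro n hn
      rw [Finset.mem_Icc] at hn
      have hn0 : (0 : ℝ) < n := by exact_mod_cast hn.1
      have hw := Mbaux.wq_nonneg n
      by_cases hnN : n < N
      · rw [hy0 n hn.1 hnN, norm_zero]
        have : 0 ≤ (B ^ 2 * (N : ℝ) ^ (-τ)) * (wq n * (n : ℝ) ^ (-(1 + τ))) := by positivity
        simpa using this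
      · have h5 : (n : ℝ) ^ (-τ) ≤ (N : ℝ) ^ (-τ) :=
          Real.rpow_le_rpow_of_nonpos hN0 (by exact_mod_cast not_lt.1 hnN) (by linarith)
        have h6 : ‖y n‖ ^ 2 ≤ B ^ 2 * ((n : ℝ) ^ (-τ) * (n : ℝ) ^ (-(1 + τ))) := by
          calc ‖y n‖ ^ 2 ≤ (B * (n : ℝ) ^ (-(1 / 2 + τ))) ^ 2 :=
                pow_le_pow_left₀ (norm_nonneg _) (hy n hn.1) 2
            _ = B ^ 2 * ((n : ℝ) ^ (-τ) * (n : ℝ) ^ (-(1 + τ))) := by
                rw [mul_pow, ← Real.rpow_natCast ((n : ℝ) ^ (-(1 / 2 + τ))), ← Real.rpow_mul hn0.le,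
                  ← Real.rpow_add hn0]
                congr 2
                push_cast
                ring
        calc wq n * ‖y n‖ ^ 2 ≤ wq n * (B ^ 2 * ((n : ℝ) ^ (-τ) * (n : ℝ) ^ (-(1 + τ)))) :=
              mul_le_mul_of_nonneg_left h6 hw
          _ ≤ wq n * (B ^ 2 * ((N : ℝ) ^ (-τ) * (n : ℝ) ^ (-(1 + τ)))) := by gcongr
          _ = _ := by ring
    refine (Finset.sum_le_sum h4).trans ?_
    rw [← Finset.mul_sum]
    exact mul_le_mul_of_nonneg_left (h2 K) (by positivity)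
  have h5 : (X * K) ^ (ε / 2) ≤ X ^ ε := by
    calc (X * K) ^ (ε / 2) ≤ (X * X) ^ (ε / 2) :=
          Real.rpow_le_rpow (by positivity) (mul_le_mul_of_nonneg_left hKX hX0.le) (by positivity)
      _ = X ^ ε := by
          rw [Real.mul_rpow hX0.le hX0.le, ← Real.rpow_add hX0]
          congr 1
          ring
  have h6 : X + K ≤ 2 * X := by linarith
  have h7 : 0 ≤ ∑ n ∈ Finset.Icc 1 K, wq n * ‖y n‖ ^ 2 :=
    Finset.sum_nonneg fun n _ => mul_nonneg (Mbaux.wq_nonneg n) (by positivity)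
  calc C1 * (X * K) ^ (ε / 2) * (X + K) * ∑ n ∈ Finset.Icc 1 K, wq n * ‖y n‖ ^ 2
      ≤ C1 * X ^ ε * (2 * X) * (B ^ 2 * (N : ℝ) ^ (-τ) * C2) := by gcongr
    _ = 2 * C1 * C2 * B ^ 2 * (X ^ (1 : ℝ) * X ^ ε) * (N : ℝ) ^ (-τ) := by rw [Real.rpow_one]; ring
    _ = _ := by rw [← Real.rpow_add hX0]

/-- a Dirichlet polynomial with the coefficients `g` -/
def DG (g : ArithmeticFunction ℂ) (s : ℤ) (q N : ℕ) : ℂ := ∑ n ∈ Finset.Icc 1 N, vl s q n * g n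

lemma vl_mul (s : ℤ) (q m n : ℕ) : vl s q (m * n) = vl s q m * vl s q n := by
  unfold vl
  rw [Nat.cast_mul, map_mul]

lemma vl_one (s : ℤ) (q : ℕ) : vl s q 1 = 1 := by
  unfold vl
  rw [Nat.cast_one, map_one]

lemma pwn_bd {τ : ℝ} {w : ℂ} (hw : 1 / 2 + 2 * τ ≤ w.re) {n : ℕ} (hn : 1 ≤ n) :
    ‖Eul.pw (-w) n‖ ≤ (n : ℝ) ^ (-(1 / 2 + 2 * τ)) := by
  have hn1 : (1 : ℝ) ≤ n := by exact_mod_cast hn
  rw [Eul.pw_apply _ (by omega), Complex.norm_natCast_cpow_of_pos (by omega)]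
  apply Real.rpow_le_rpow_of_exponent_le hn1
  rw [Complex.neg_re]
  linarith

lemma mun_bd {τ : ℝ} {w : ℂ} (hw : 1 / 2 + 2 * τ ≤ w.re) {n : ℕ} (hn : 1 ≤ n) :
    ‖muA w n‖ ≤ (n : ℝ) ^ (-(1 / 2 + 2 * τ)) := by
  have hn1 : (1 : ℝ) ≤ n := by exact_mod_cast hn
  rw [Eul.muA_apply, norm_mul, Complex.norm_natCast_cpow_of_pos (by omega)]
  have h1 : ‖((ArithmeticFunction.moebius n : ℤ) : ℂ)‖ ≤ 1 := by
    have h := ArithmeticFunction.abs_moebius_le_one (n := n)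
    rw [Complex.norm_intCast]
    exact_mod_cast h
  calc ‖((ArithmeticFunction.moebius n : ℤ) : ℂ)‖ * (n : ℝ) ^ (-w).re
      ≤ 1 * (n : ℝ) ^ (-(1 / 2 + 2 * τ)) := by
        apply mul_le_mul h1 _ (by positivity) (by norm_num)
        apply Real.rpow_le_rpow_of_exponent_le hn1
        rw [Complex.neg_re]
        linarith
    _ = _ := one_mul _

lemma le_weaker {τ : ℝ} (hτ : 0 < τ) {n : ℕ} (hn : 1 ≤ n) :
    (n : ℝ) ^ (-(1 / 2 + 2 * τ)) ≤ 1 * (n : ℝ) ^ (-(1 / 2 + τ)) := by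
  rw [one_mul]
  exact Real.rpow_le_rpow_of_exponent_le (by exact_mod_cast hn) (by linarith)

/-- the coefficients of the product of the sum over `i ≤ M` and the mollifier -/
def yM (w : ℂ) (M N : ℕ) (l : ℕ) : ℂ :=
  ∑ x ∈ (Finset.Icc 1 M ×ˢ Finset.Icc 1 N).filter (fun x => x.1 * x.2 = l), Eul.pw (-w) x.1 * muA w x.2

lemma yM_bd {τ : ℝ} (hτ : 0 < τ) : ∃ C : ℝ, 0 < C ∧ ∀ (w : ℂ) (M N l : ℕ), 1 / 2 + 2 * τ ≤ w.re → 1 ≤ l →
    ‖yM w M N l‖ ≤ C * (l : ℝ) ^ (-(1 / 2 + τ)) := by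
  classical
  obtain ⟨C, hC, h⟩ := Pool.Agent.Helper112.divisor_bound τ hτ
  refine ⟨C, hC, ?_⟩
  intro w M N l hw hl
  have hl0 : (0 : ℝ) < l := by exact_mod_cast hl
  have h1 : ∀ x ∈ (Finset.Icc 1 M ×ˢ Finset.Icc 1 N).filter (fun x => x.1 * x.2 = l),
      ‖Eul.pw (-w) x.1 * muA w x.2‖ ≤ (l : ℝ) ^ (-(1 / 2 + 2 * τ)) := by
    intro x hx
    rw [Finset.mem_filter, Finset.mem_product, Finset.mem_Icc, Finset.mem_Icc] at hx
    obtain ⟨⟨h3, h4⟩, h5⟩ := hx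
    rw [norm_mul]
    calc ‖Eul.pw (-w) x.1‖ * ‖muA w x.2‖ ≤ (x.1 : ℝ) ^ (-(1 / 2 + 2 * τ)) * (x.2 : ℝ) ^ (-(1 / 2 + 2 * τ)) :=
          mul_le_mul (pwn_bd hw h3.1) (mun_bd hw h4.1) (norm_nonneg _) (by positivity)
      _ = (l : ℝ) ^ (-(1 / 2 + 2 * τ)) := by
          rw [← Real.mul_rpow (by positivity) (by positivity), ← h5]
          push_cast
          rfl
  unfold yM
  refine (norm_sum_le_of_le _ h1).trans ?_
  rw [Finset.sum_const, nsmul_eq_mul]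
  have h2 : ((Finset.Icc 1 M ×ˢ Finset.Icc 1 N).filter (fun x => x.1 * x.2 = l)).card ≤
      l.divisors.card := by
    refine Finset.card_le_card_of_injOn (fun x => x.1) ?_ ?_
    · intro x hx
      rw [Finset.mem_coe, Finset.mem_filter] at hx
      rw [Finset.mem_coe, Nat.mem_divisors]
      exact ⟨⟨x.2, hx.2.symm⟩, by omega⟩
    · intro x hx x' hx' h3
      rw [Finset.mem_coe, Finset.mem_filter, Finset.mem_product, Finset.mem_Icc] at hx hx'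
      have h4 : x.1 * x.2 = x.1 * x'.2 := by
        rw [hx.2]
        have h5 : x.1 = x'.1 := h3
        rw [h5, hx'.2]
      have h6 := Nat.eq_of_mul_eq_mul_left (by have := hx.1.1; omega) h4
      exact Prod.ext h3 h6
  have h3 : (((Finset.Icc 1 M ×ˢ Finset.Icc 1 N).filter (fun x => x.1 * x.2 = l)).card : ℝ) ≤
      C * (l : ℝ) ^ τ := le_trans (by exact_mod_cast h2) (h l hl)
  calc _ ≤ C * (l : ℝ) ^ τ * (l : ℝ) ^ (-(1 / 2 + 2 * τ)) := mul_le_mul_of_nonneg_right h3 (by positivity)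
    _ = C * (l : ℝ) ^ (-(1 / 2 + τ)) := by
        rw [mul_assoc, ← Real.rpow_add hl0]
        congr 2
        ring

lemma yM_small (w : ℂ) {M N l : ℕ} (hNM : N ≤ M) (hl : 1 ≤ l) (hlN : l ≤ N) :
    yM w M N l = if l = 1 then 1 else 0 := by
  classical
  have h1 := Pool.Agent.N879.QM.Coef.mob1 (N := N) (Y := N) hl hlN le_rfl
  have hl0 : l ≠ 0 := by omega
  have e1 : yM w M N l = (l : ℂ) ^ (-w) * ((∑ a ∈ Finset.Icc 1 N, ∑ b ∈ Finset.Icc 1 N,
      (if a * b = l then ((ArithmeticFunction.moebius a : ℤ) : ℝ) else 0) : ℝ) : ℂ) := by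
    unfold yM
    rw [Finset.sum_filter, Finset.sum_product, Finset.sum_comm]
    push_cast
    rw [Finset.mul_sum]
    refine Finset.sum_congr rfl fun y hy => ?_
    rw [Finset.mem_Icc] at hy
    rw [Finset.mul_sum]
    symm
    have hsub : Finset.Icc 1 N ⊆ Finset.Icc 1 M := Finset.Icc_subset_Icc le_rfl hNM
    rw [← Finset.sum_subset hsub]
    · refine Finset.sum_congr rfl fun x hx => ?_
      rw [Finset.mem_Icc] at hx
      by_cases h : x * y = l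
      · rw [if_pos h, if_pos (by rw [mul_comm]; exact h), Eul.pw_apply _ (by omega), Eul.muA_apply]
        rw [← h, Nat.cast_mul, Complex.natCast_mul_natCast_cpow]
        push_cast
        ring
      · rw [if_neg h, if_neg (by rw [mul_comm]; exact h)]
        simp
    · intro x hx hx'
      rw [Finset.mem_Icc] at hx hx'
      rw [if_neg]
      intro h
      apply hx'
      refine ⟨hx.1, ?_⟩
      calc x ≤ x * y := Nat.le_mul_of_pos_right _ (by omega)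
        _ = l := h
        _ ≤ N := hlN
  rw [e1, h1]
  split_ifs with h
  · subst h
    simp
  · simp

/-- the product of the sum and the mollifier -/
lemma prod_yM (s : ℤ) (q : ℕ) (w : ℂ) {M N K : ℕ} (hK : M * N ≤ K) :
    DG (Eul.pw (-w)) s q M * DG (muA w) s q N = ∑ l ∈ Finset.Icc 1 K, vl s q l * yM w M N l := by
  classical
  unfold DG yM
  rw [Finset.sum_mul_sum, ← Finset.sum_product']
  have hmap : ∀ x ∈ Finset.Icc 1 M ×ˢ Finset.Icc 1 N, x.1 * x.2 ∈ Finset.Icc 1 K := by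
    intro x hx
    rw [Finset.mem_product, Finset.mem_Icc, Finset.mem_Icc] at hx
    rw [Finset.mem_Icc]
    exact ⟨Nat.mul_pos hx.1.1 hx.2.1, (Nat.mul_le_mul hx.1.2 hx.2.2).trans hK⟩
  rw [← Finset.sum_fiberwise_of_maps_to hmap]
  refine Finset.sum_congr rfl fun l _ => ?_
  rw [Finset.mul_sum]
  refine Finset.sum_congr rfl fun x hx => ?_
  rw [Finset.mem_filter] at hx
  rw [← hx.2, vl_mul]
  ring

/-- mean square of the product minus one -/
lemma ms_inv {τ ε : ℝ} (hτ : 0 < τ) (hε : 0 < ε) : ∃ C : ℝ, 0 < C ∧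
    ∀ (s : ℤ) (X : ℝ) (M N : ℕ) (w : ℂ), s = 1 ∨ s = -1 → 1 ≤ X → 1 ≤ N → N ≤ M → ((M * N : ℕ) : ℝ) ≤ X →
      1 / 2 + 2 * τ ≤ w.re →
      ∑ q ∈ Q s X, ‖DG (Eul.pw (-w)) s q M * DG (muA w) s q N - 1‖ ^ 2 ≤
        C * X ^ (1 + ε) * (N : ℝ) ^ (-τ) := by
  classical
  obtain ⟨C1, hC1, h1⟩ := hb_off hτ hε
  obtain ⟨C2, hC2, h2⟩ := yM_bd hτ
  refine ⟨C1 * C2 ^ 2, by positivity, ?_⟩
  intro s X M N w hs hX hN hNM hMN hw
  have hK1 : 1 ≤ M * N := Nat.mul_pos (by omega) hN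
  have e : ∀ q, DG (Eul.pw (-w)) s q M * DG (muA w) s q N - 1 =
      ∑ l ∈ Finset.Icc 1 (M * N), vl s q l * (if l = 1 then 0 else yM w M N l) := by
    intro q
    rw [prod_yM s q w le_rfl]
    have h3 : ∑ l ∈ Finset.Icc 1 (M * N), vl s q l * yM w M N l =
        ∑ l ∈ Finset.Icc 1 (M * N), (vl s q l * (if l = 1 then 0 else yM w M N l) +
          if l = 1 then 1 else 0) := by
      refine Finset.sum_congr rfl fun l _ => ?_
      by_cases h : l = 1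
      · subst h
        rw [if_pos rfl, if_pos rfl, yM_small w hNM le_rfl hN, if_pos rfl, vl_one]
        ring
      · rw [if_neg h, if_neg h, add_zero]
    rw [h3, Finset.sum_add_distrib, Finset.sum_ite_eq' , if_pos (Finset.mem_Icc.mpr ⟨le_rfl, hK1⟩)]
    ring
  simp only [e]
  refine (h1 s X C2 (M * N) N _ hs hX hK1 hMN hN hC2.le ?_ ?_).trans (le_of_eq (by ring))
  · intro n hn
    split_ifs
    · rw [norm_zero]
      positivity
    · exact h2 w M N n hw hn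
  · intro n hn hnN
    split_ifs with h
    · rfl
    · rw [yM_small w hNM hn hnN.le, if_neg h]

/-- mean square of the tail -/
lemma ms_tail {τ ε : ℝ} (hτ : 0 < τ) (hε : 0 < ε) : ∃ C : ℝ, 0 < C ∧
    ∀ (s : ℤ) (X : ℝ) (M N : ℕ) (w : ℂ), s = 1 ∨ s = -1 → 1 ≤ X → 1 ≤ N → N ≤ M → (M : ℝ) ≤ X →
      1 / 2 + 2 * τ ≤ w.re →
      ∑ q ∈ Q s X, ‖DG (Eul.pw (-w)) s q M - DG (Eul.pw (-w)) s q N‖ ^ 2 ≤
        C * X ^ (1 + ε) * (N : ℝ) ^ (-τ) := by
  classical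
  obtain ⟨C1, hC1, h1⟩ := hb_off hτ hε
  refine ⟨C1, hC1, ?_⟩
  intro s X M N w hs hX hN hNM hMX hw
  have e : ∀ q, DG (Eul.pw (-w)) s q M - DG (Eul.pw (-w)) s q N =
      ∑ l ∈ Finset.Icc 1 M, vl s q l * (if l ≤ N then 0 else Eul.pw (-w) l) := by
    intro q
    unfold DG
    have hsub : Finset.Icc 1 N ⊆ Finset.Icc 1 M := Finset.Icc_subset_Icc le_rfl hNM
    have h3 : ∑ n ∈ Finset.Icc 1 N, vl s q n * Eul.pw (-w) n =
        ∑ n ∈ Finset.Icc 1 M, if n ≤ N then vl s q n * Eul.pw (-w) n else 0 := by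
      rw [← Finset.sum_filter]
      refine Finset.sum_congr ?_ fun _ _ => rfl
      ext n
      rw [Finset.mem_filter, Finset.mem_Icc, Finset.mem_Icc]
      omega
    rw [h3, ← Finset.sum_sub_distrib]
    refine Finset.sum_congr rfl fun l _ => ?_
    split_ifs <;> simp
  simp only [e]
  refine (h1 s X 1 M N _ hs hX (by omega) hMX hN zero_le_one ?_ ?_).trans (le_of_eq (by ring))
  · intro n hn
    split_ifs
    · rw [norm_zero]
      positivity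
    · exact (pwn_bd hw hn).trans (le_weaker hτ hn)
  · intro n hn hnN
    rw [if_pos hnN.le]

/-- mean square of a product of polynomials -/
lemma ms_prod (r : ℕ) {τ ε : ℝ} (hτ : 0 < τ) (hε : 0 < ε) : ∃ C : ℝ, 0 < C ∧
    ∀ (s : ℤ) (X : ℝ) (N : ℕ) (g : Fin r → ArithmeticFunction ℂ), s = 1 ∨ s = -1 → 1 ≤ X → 1 ≤ N →
      (N : ℝ) ^ r ≤ X → (∀ i (m : ℕ), 1 ≤ m → ‖g i m‖ ≤ (m : ℝ) ^ (-(1 / 2 + 2 * τ))) →
      ∑ q ∈ Q s X, ‖∏ i, DG (g i) s q N‖ ^ 2 ≤ C * X ^ (1 + ε) := by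
  classical
  obtain ⟨C1, hC1, h1⟩ := hb_off hτ hε
  obtain ⟨C2, hC2, h2⟩ := Pool.Agent.N879.QM.Coef.div_pow r τ hτ
  refine ⟨C1 * C2 ^ 2, by positivity, ?_⟩
  intro s X N g hs hX hN hNX hg
  have e : ∀ q, ∏ i, DG (g i) s q N = ∑ l ∈ Finset.Icc 1 (N ^ r), vl s q l *
      (∑ m ∈ (tup r N).filter (fun m => ∏ i, m i = l), ∏ i, g i (m i)) := by
    intro q
    unfold DG
    rw [Finset.prod_univ_sum]
    have hmap : ∀ m ∈ Fintype.piFinset (fun _ : Fin r => Finset.Icc 1 N), ∏ i, m i ∈ Finset.Icc 1 (N ^ r) := by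
      intro m hm
      have hm' : m ∈ tup r N := hm
      rw [Finset.mem_Icc]
      exact ⟨CoefG.tup_prod_pos hm', CoefG.tup_prod_le hm'⟩
    rw [← Finset.sum_fiberwise_of_maps_to hmap]
    refine Finset.sum_congr rfl fun l _ => ?_
    rw [Finset.mul_sum]
    refine Finset.sum_congr rfl fun m hm => ?_
    rw [Finset.mem_filter] at hm
    rw [Finset.prod_mul_distrib, ← hm.2, DiagA.vl_prod]
  simp only [e]
  refine (h1 s X C2 (N ^ r) 1 _ hs hX (Nat.one_le_pow _ _ hN) (by push_cast; exact hNX) le_rfl hC2.le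
    ?_ ?_).trans (le_of_eq (by simp))
  · intro l hl
    have hl0 : (0 : ℝ) < l := by exact_mod_cast hl
    have h3 : ∀ m ∈ (tup r N).filter (fun m => ∏ i, m i = l), ‖∏ i, g i (m i)‖ ≤
        (l : ℝ) ^ (-(1 / 2 + 2 * τ)) := by
      intro m hm
      rw [Finset.mem_filter] at hm
      have hm' := Pool.Agent.N879.QM.Coef.mem_tup.mp hm.1
      rw [norm_prod]
      calc ∏ i, ‖g i (m i)‖ ≤ ∏ i, ((m i : ℕ) : ℝ) ^ (-(1 / 2 + 2 * τ)) :=
            Finset.prod_le_prod (fun _ _ => norm_nonneg _) fun i _ => hg i (m i) (hm' i).1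
        _ = (l : ℝ) ^ (-(1 / 2 + 2 * τ)) := by
            rw [← hm.2, Nat.cast_prod, ← Real.finsetProd_rpow _ _ (fun i _ => Nat.cast_nonneg _)]
    refine (norm_sum_le_of_le _ h3).trans ?_
    rw [Finset.sum_const, nsmul_eq_mul]
    have h4 : (((tup r N).filter (fun m => ∏ i, m i = l)).card : ℝ) ≤ C2 * (l : ℝ) ^ τ :=
      le_trans (by exact_mod_cast Pool.Agent.N879.QM.Coef.card_fib r N l hl) (h2 l hl)
    calc _ ≤ C2 * (l : ℝ) ^ τ * (l : ℝ) ^ (-(1 / 2 + 2 * τ)) :=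
          mul_le_mul_of_nonneg_right h4 (by positivity)
      _ = C2 * (l : ℝ) ^ (-(1 / 2 + τ)) := by
          rw [mul_assoc, ← Real.rpow_add hl0]
          congr 2
          ring
  · intro n hn hn1
    omega

end

end Pool.Agent.V8H6.RW
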