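import Pool.Agent.V8H6.RW.Off

set_option autoImplicit false

/-! Weighted moments: the weights are close to short Dirichlet polynomials for most characters. -/

namespace Pool.Agent.V8H6.RW

open Complex hiding im
open Filter Topology MeasureTheory Set
open Pool.Agent.N879.QM
open scoped BigOperators

noncomputable section

variable {k a b r : ℕ}

/-- Chebyshev -/
lemma cheb_card {D : Finset ℕ} {F : ℕ → ℂ} {t B : ℝ} (ht : 0 < t) (h : ∑ q ∈ D, ‖F q‖ ^ 2 ≤ B) :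
    ∃ E : Finset ℕ, E ⊆ D ∧ (E.card : ℝ) ≤ B / t ^ 2 ∧ ∀ q ∈ D, q ∉ E → ‖F q‖ ≤ t := by
  classical
  refine ⟨D.filter (fun q => t < ‖F q‖), Finset.filter_subset _ _, ?_, ?_⟩
  · rw [le_div_iff₀ (by positivity), ← nsmul_eq_mul]
    refine le_trans ?_ h
    refine (Finset.card_nsmul_le_sum _ (fun q => ‖F q‖ ^ 2) _ fun q hq => ?_).trans ?_
    · exact pow_le_pow_left₀ ht.le ((Finset.mem_filter.1 hq).2).le 2
    · exact Finset.sum_le_sum_of_subset_of_nonneg (Finset.filter_subset _ _) fun _ _ _ => by positivity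
  · intro q hq hq2
    by_contra hcon
    exact hq2 (Finset.mem_filter.2 ⟨hq, not_le.1 hcon⟩)

lemma DG_pw (w : ℂ) (s : ℤ) (q N : ℕ) :
    DG (Eul.pw (-w)) s q N = ∑ n ∈ Finset.Icc 1 N, vl s q n * (n : ℂ) ^ (-w) := by
  unfold DG
  refine Finset.sum_congr rfl fun n hn => ?_
  rw [Finset.mem_Icc] at hn
  rw [Eul.pw_apply _ (by omega)]

/-- the length of the long sums -/
def MM (X τ : ℝ) : ℕ := ⌊X ^ (1 - τ)⌋₊

/-- approximation by the long sum -/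
lemma long_u {τ : ℝ} (hτ : 0 < τ) (hτ1 : τ ≤ 1 / 8) : ∃ C X₀ : ℝ, 0 < C ∧ ∀ (s : ℤ) (X : ℝ) (q : ℕ) (w : ℂ),
    X₀ ≤ X → q ∈ Q s X → 1 / 2 + 2 * τ ≤ w.re → ‖w‖ ≤ X ^ (τ / 8) →
    ‖LL s q w - DG (Eul.pw (-w)) s q (MM X τ)‖ ≤ C * X ^ (-τ) := by
  obtain ⟨C, hC, h⟩ := pv_approx
  have ev := log_small 1 (θ := 1) one_pos (ρ := τ / 8) (by positivity)
  obtain ⟨X₀, hX₀⟩ := eventually_atTop.1 (ev.and (eventually_ge_atTop 2))
  refine ⟨C * 2, X₀, by positivity, ?_⟩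
  intro s X q w hX hq hw hw2
  obtain ⟨v1, v2⟩ := hX₀ X hX
  have hX0 : 0 < X := by linarith
  have hX1 : 1 ≤ X := by linarith
  rw [one_mul, pow_one] at v1
  obtain ⟨hq1, hq2⟩ := Q_is hq
  have hqr : (2 : ℝ) ≤ q := by exact_mod_cast hq1.1
  obtain ⟨f1, f2, f3⟩ := floor_half (Real.one_le_rpow hX1 (by linarith : 0 ≤ 1 - τ) : 1 ≤ X ^ (1 - τ))
  have hM : ((MM X τ : ℕ) : ℝ) = (⌊X ^ (1 - τ)⌋₊ : ℝ) := rfl
  rw [DG_pw]
  refine (h s q (MM X τ) w hq1 f3 (by linarith)).trans ?_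
  have hlogq : 0 ≤ Real.log q := Real.log_nonneg (by linarith)
  have e1 : √(q : ℝ) * Real.log q ≤ X ^ (1 / 2 : ℝ) * X ^ (τ / 8) := by
    apply mul_le_mul _ _ hlogq (by positivity)
    · rw [Real.sqrt_eq_rpow]
      exact Real.rpow_le_rpow (by positivity) hq2.le (by norm_num)
    · exact (Real.log_le_log (by linarith) hq2.le).trans v1
  have hM1 : (1 : ℝ) ≤ MM X τ := by exact_mod_cast f3
  have e2 : ((MM X τ : ℕ) : ℝ) ^ (-w.re) ≤ 2 * X ^ (-((1 - τ) * (1 / 2 + 2 * τ))) := by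
    have h0 : 0 < X ^ (1 - τ) := by positivity
    calc ((MM X τ : ℕ) : ℝ) ^ (-w.re) ≤ ((MM X τ : ℕ) : ℝ) ^ (-(1 / 2 + 2 * τ)) :=
          Real.rpow_le_rpow_of_exponent_le hM1 (by linarith)
      _ ≤ (X ^ (1 - τ) / 2) ^ (-(1 / 2 + 2 * τ)) :=
          Real.rpow_le_rpow_of_nonpos (by positivity) f1 (by linarith)
      _ ≤ 2 * X ^ (-((1 - τ) * (1 / 2 + 2 * τ))) := by
          rw [Real.div_rpow h0.le (by norm_num), ← Real.rpow_mul hX0.le, div_eq_mul_inv,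
            ← Real.rpow_neg (by norm_num), neg_neg, mul_comm]
          have h2 : (2 : ℝ) ^ (1 / 2 + 2 * τ) ≤ 2 := by
            calc (2 : ℝ) ^ (1 / 2 + 2 * τ) ≤ 2 ^ (1 : ℝ) :=
                  Real.rpow_le_rpow_of_exponent_le (by norm_num) (by linarith)
              _ = 2 := Real.rpow_one 2
          have h3 : (1 - τ) * -(1 / 2 + 2 * τ) = -((1 - τ) * (1 / 2 + 2 * τ)) := by ring
          rw [h3]
          exact mul_le_mul_of_nonneg_right h2 (by positivity)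
  have e3 : X ^ (τ / 8) * (X ^ (1 / 2 : ℝ) * X ^ (τ / 8)) * X ^ (-((1 - τ) * (1 / 2 + 2 * τ))) ≤ X ^ (-τ) := by
    rw [← Real.rpow_add hX0, ← Real.rpow_add hX0, ← Real.rpow_add hX0]
    apply Real.rpow_le_rpow_of_exponent_le hX1
    nlinarith
  have h0 : 0 ≤ √(q : ℝ) * Real.log q := by positivity
  calc C * ‖w‖ * (√(q : ℝ) * Real.log q) * ((MM X τ : ℕ) : ℝ) ^ (-w.re)
      ≤ C * X ^ (τ / 8) * (X ^ (1 / 2 : ℝ) * X ^ (τ / 8)) * (2 * X ^ (-((1 - τ) * (1 / 2 + 2 * τ)))) := by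
        gcongr
    _ = C * 2 * (X ^ (τ / 8) * (X ^ (1 / 2 : ℝ) * X ^ (τ / 8)) * X ^ (-((1 - τ) * (1 / 2 + 2 * τ)))) := by
        ring
    _ ≤ _ := mul_le_mul_of_nonneg_left e3 (by positivity)

/-- polynomials of moderate size -/
lemma size_g {τ ν : ℝ} (hτ : 0 < τ) (hν : 0 < ν) : ∃ C : ℝ, 0 < C ∧
    ∀ (s : ℤ) (X : ℝ) (N : ℕ) (g : ArithmeticFunction ℂ), s = 1 ∨ s = -1 → 1 ≤ X → 1 ≤ N → (N : ℝ) ≤ X →
      (∀ m : ℕ, 1 ≤ m → ‖g m‖ ≤ (m : ℝ) ^ (-(1 / 2 + 2 * τ))) →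
      ∃ E : Finset ℕ, E ⊆ Q s X ∧ (E.card : ℝ) ≤ C * X ^ (1 - ν) ∧
        ∀ q ∈ Q s X, q ∉ E → ‖DG g s q N‖ ≤ X ^ ν := by
  obtain ⟨C, hC, h⟩ := ms_prod 1 hτ hν
  refine ⟨C, hC, ?_⟩
  intro s X N g hs hX hN hNX hg
  have hX0 : 0 < X := by linarith
  have h1 := h s X N (fun _ => g) hs hX hN (by rw [pow_one]; exact hNX) (fun _ m hm => hg m hm)
  simp only [Finset.univ_unique, Finset.prod_singleton] at h1
  obtain ⟨E, hE1, hE2, hE3⟩ := cheb_card (t := X ^ ν) (by positivity) h1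
  refine ⟨E, hE1, hE2.trans (le_of_eq ?_), hE3⟩
  rw [div_eq_iff (by positivity), ← Real.rpow_natCast (X ^ ν), ← Real.rpow_mul hX0.le, mul_assoc,
    ← Real.rpow_add hX0]
  congr 2
  push_cast
  ring

lemma N_neg {τ η X : ℝ} {N : ℕ} (hτ : 0 < τ) (hτ1 : τ ≤ 1 / 8) (hX1 : 1 ≤ X)
    (hN : X ^ η / 2 ≤ N) : (N : ℝ) ^ (-τ) ≤ 2 * X ^ (-(η * τ)) := by
  have hX0 : 0 < X := by linarith
  have h0 : 0 < X ^ η := by positivity
  calc (N : ℝ) ^ (-τ) ≤ (X ^ η / 2) ^ (-τ) :=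
        Real.rpow_le_rpow_of_nonpos (by positivity) hN (by linarith)
    _ ≤ 2 * X ^ (-(η * τ)) := by
        rw [Real.div_rpow h0.le (by norm_num), ← Real.rpow_mul hX0.le, div_eq_mul_inv,
          ← Real.rpow_neg (by norm_num), neg_neg, mul_comm]
        have h2 : (2 : ℝ) ^ τ ≤ 2 := by
          calc (2 : ℝ) ^ τ ≤ 2 ^ (1 : ℝ) :=
                Real.rpow_le_rpow_of_exponent_le (by norm_num) (by linarith)
            _ = 2 := Real.rpow_one 2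
        have h3 : η * -τ = -(η * τ) := by ring
        rw [h3]
        exact mul_le_mul_of_nonneg_right h2 (by positivity)

/-- Chebyshev with power savings -/
lemma cheb_pow {C X τ η : ℝ} {N : ℕ} {s : ℤ} {F : ℕ → ℂ} (hC : 0 < C) (hτ : 0 < τ) (hτ1 : τ ≤ 1 / 8)
    (hX1 : 1 ≤ X) (hN : X ^ η / 2 ≤ N)
    (h : ∑ q ∈ Q s X, ‖F q‖ ^ 2 ≤ C * X ^ (1 + η * τ / 4) * (N : ℝ) ^ (-τ)) :
    ∃ E : Finset ℕ, E ⊆ Q s X ∧ (E.card : ℝ) ≤ 2 * C * X ^ (1 - η * τ / 4) ∧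
      ∀ q ∈ Q s X, q ∉ E → ‖F q‖ ≤ X ^ (-(η * τ / 4)) := by
  have hX0 : 0 < X := by linarith
  obtain ⟨E, hE1, hE2, hE3⟩ := cheb_card (t := X ^ (-(η * τ / 4))) (by positivity) h
  refine ⟨E, hE1, hE2.trans ?_, hE3⟩
  rw [div_le_iff₀ (by positivity)]
  calc C * X ^ (1 + η * τ / 4) * (N : ℝ) ^ (-τ) ≤ C * X ^ (1 + η * τ / 4) * (2 * X ^ (-(η * τ))) := by
        gcongr
        exact N_neg hτ hτ1 hX1 hN
    _ = 2 * C * (X ^ (1 + η * τ / 4) * X ^ (-(η * τ))) := by ring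
    _ = 2 * C * X ^ (1 - η * τ / 4) * (X ^ (-(η * τ / 4))) ^ 2 := by
        rw [← Real.rpow_natCast (X ^ (-(η * τ / 4))), ← Real.rpow_mul hX0.le, mul_assoc (2 * C),
          ← Real.rpow_add hX0, ← Real.rpow_add hX0]
        congr 2
        push_cast
        ring

/-- sizes of `M` and `N` -/
lemma MN_sizes {τ η : ℝ} (hτ : 0 < τ) (hτ1 : τ ≤ 1 / 8) (hητ : η ≤ τ) :
    ∃ X₀ : ℝ, ∀ (X : ℝ) (N : ℕ), X₀ ≤ X → (N : ℝ) ≤ X ^ η → N ≤ MM X τ ∧ ((MM X τ * N : ℕ) : ℝ) ≤ X ∧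
      ((MM X τ : ℕ) : ℝ) ≤ X ∧ (N : ℝ) ≤ X := by
  have ev : ∀ᶠ X : ℝ in atTop, 2 ≤ X ^ (1 - τ - η) :=
    (tendsto_rpow_atTop (by linarith)).eventually_ge_atTop _
  obtain ⟨X₀, hX₀⟩ := eventually_atTop.1 (ev.and (eventually_ge_atTop 2))
  refine ⟨X₀, ?_⟩
  intro X N hX hN
  obtain ⟨v1, v2⟩ := hX₀ X hX
  have hX0 : 0 < X := by linarith
  have hX1 : 1 ≤ X := by linarith
  obtain ⟨f1, f2, f3⟩ := floor_half (Real.one_le_rpow hX1 (by linarith : 0 ≤ 1 - τ) : 1 ≤ X ^ (1 - τ))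
  have hM : ((MM X τ : ℕ) : ℝ) = (⌊X ^ (1 - τ)⌋₊ : ℝ) := rfl
  refine ⟨?_, ?_, ?_, ?_⟩
  · have : (N : ℝ) ≤ MM X τ := by
      rw [hM]
      refine le_trans ?_ f1
      rw [le_div_iff₀ (by norm_num)]
      calc (N : ℝ) * 2 ≤ X ^ η * X ^ (1 - τ - η) := mul_le_mul hN v1 (by norm_num) (by positivity)
        _ = X ^ (1 - τ) := by
            rw [← Real.rpow_add hX0]
            congr 1
            ring
    exact_mod_cast this
  · push_cast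
    rw [hM]
    calc (⌊X ^ (1 - τ)⌋₊ : ℝ) * N ≤ X ^ (1 - τ) * X ^ η := mul_le_mul f2 hN (by positivity) (by positivity)
      _ = X ^ (1 - τ + η) := by rw [← Real.rpow_add hX0]
      _ ≤ X ^ (1 : ℝ) := Real.rpow_le_rpow_of_exponent_le hX1 (by linarith)
      _ = X := Real.rpow_one X
  · rw [hM]
    refine f2.trans ?_
    calc X ^ (1 - τ) ≤ X ^ (1 : ℝ) := Real.rpow_le_rpow_of_exponent_le hX1 (by linarith)
      _ = X := Real.rpow_one X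
  · refine hN.trans ?_
    calc X ^ η ≤ X ^ (1 : ℝ) := Real.rpow_le_rpow_of_exponent_le hX1 (by linarith)
      _ = X := Real.rpow_one X

/-- one factor in the numerator -/
lemma one_u {τ η ν : ℝ} (hτ : 0 < τ) (hτ1 : τ ≤ 1 / 8) (hη : 0 < η) (hητ : η ≤ τ) (hν : 0 < ν)
    (hν1 : ν ≤ η * τ / 16) : ∃ C X₀ : ℝ, 0 < C ∧ ∀ (s : ℤ) (X : ℝ) (N : ℕ) (w : ℂ), s = 1 ∨ s = -1 → X₀ ≤ X →
      X ^ η / 2 ≤ N → (N : ℝ) ≤ X ^ η → 1 ≤ N → 1 / 2 + 2 * τ ≤ w.re → ‖w‖ ≤ X ^ (τ / 8) →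
      ∃ E : Finset ℕ, E ⊆ Q s X ∧ (E.card : ℝ) ≤ C * X ^ (1 - ν) ∧ ∀ q ∈ Q s X, q ∉ E →
        ‖LL s q w - DG (Eul.pw (-w)) s q N‖ ≤ 4 * X ^ (-(η * τ / 8)) ∧ ‖DG (Eul.pw (-w)) s q N‖ ≤ X ^ ν := by
  classical
  obtain ⟨C1, X1, hC1, h1⟩ := long_u hτ hτ1
  obtain ⟨C2, hC2, h2⟩ := ms_tail (ε := η * τ / 4) hτ (by positivity)
  obtain ⟨C3, hC3, h3⟩ := size_g hτ hν
  obtain ⟨X4, h4⟩ := MN_sizes hτ hτ1 hητ
  have hητ2 : η * τ ≤ τ := by nlinarith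
  have hητ0 : 0 < η * τ := by positivity
  have ev : ∀ᶠ X : ℝ in atTop, C1 ≤ X ^ (τ / 2) :=
    (tendsto_rpow_atTop (by linarith)).eventually_ge_atTop _
  obtain ⟨X₀, hX₀⟩ := eventually_atTop.1 ((ev.and (eventually_ge_atTop 2)).and
    ((eventually_ge_atTop X1).and (eventually_ge_atTop X4)))
  refine ⟨2 * C2 + C3, X₀, by positivity, ?_⟩
  intro s X N w hs hX hN1 hN2 hN hw hw2
  obtain ⟨⟨v1, v2⟩, v3, v4⟩ := hX₀ X hX
  have hX0 : 0 < X := by linarith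
  have hX1 : 1 ≤ X := by linarith
  obtain ⟨g1, g2, g3, g4⟩ := h4 X N v4 hN2
  obtain ⟨E1, hE1a, hE1b, hE1c⟩ := cheb_pow hC2 hτ hτ1 hX1 hN1 (h2 s X (MM X τ) N w hs hX1 hN g1 g3 hw)
  obtain ⟨E2, hE2a, hE2b, hE2c⟩ := h3 s X N (Eul.pw (-w)) hs hX1 hN g4 (fun m hm => pwn_bd hw hm)
  refine ⟨E1 ∪ E2, Finset.union_subset hE1a hE2a, ?_, ?_⟩
  · have h5 : X ^ (1 - η * τ / 4) ≤ X ^ (1 - ν) :=
      Real.rpow_le_rpow_of_exponent_le hX1 (by linarith)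
    calc ((E1 ∪ E2).card : ℝ) ≤ (E1.card : ℝ) + E2.card := by exact_mod_cast Finset.card_union_le _ _
      _ ≤ 2 * C2 * X ^ (1 - η * τ / 4) + C3 * X ^ (1 - ν) := add_le_add hE1b hE2b
      _ ≤ 2 * C2 * X ^ (1 - ν) + C3 * X ^ (1 - ν) := by gcongr
      _ = _ := by ring
  · intro q hq hq2
    rw [Finset.mem_union, not_or] at hq2
    refine ⟨?_, hE2c q hq hq2.2⟩
    have a1 := h1 s X q w v3 hq hw hw2
    have a2 := hE1c q hq hq2.1
    have a3 : C1 * X ^ (-τ) ≤ X ^ (-(η * τ / 8)) := by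
      calc C1 * X ^ (-τ) ≤ X ^ (τ / 2) * X ^ (-τ) := by gcongr
        _ = X ^ (-(τ / 2)) := by rw [← Real.rpow_add hX0]; congr 1; ring
        _ ≤ X ^ (-(η * τ / 8)) := Real.rpow_le_rpow_of_exponent_le hX1 (by linarith)
    have a4 : X ^ (-(η * τ / 4)) ≤ X ^ (-(η * τ / 8)) :=
      Real.rpow_le_rpow_of_exponent_le hX1 (by linarith)
    have e : LL s q w - DG (Eul.pw (-w)) s q N = (LL s q w - DG (Eul.pw (-w)) s q (MM X τ)) +
        (DG (Eul.pw (-w)) s q (MM X τ) - DG (Eul.pw (-w)) s q N) := by ring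
    rw [e]
    refine (norm_add_le _ _).trans ?_
    have : 0 < X ^ (-(η * τ / 8)) := by positivity
    linarith

/-- one factor in the denominator -/
lemma one_v {τ η ν : ℝ} (hτ : 0 < τ) (hτ1 : τ ≤ 1 / 8) (hη : 0 < η) (hητ : η ≤ τ) (hν : 0 < ν)
    (hν1 : ν ≤ η * τ / 16) : ∃ C X₀ : ℝ, 0 < C ∧ ∀ (s : ℤ) (X : ℝ) (N : ℕ) (w : ℂ), s = 1 ∨ s = -1 → X₀ ≤ X →
      X ^ η / 2 ≤ N → (N : ℝ) ≤ X ^ η → 1 ≤ N → 1 / 2 + 2 * τ ≤ w.re → ‖w‖ ≤ X ^ (τ / 8) →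
      ∃ E : Finset ℕ, E ⊆ Q s X ∧ (E.card : ℝ) ≤ C * X ^ (1 - ν) ∧ ∀ q ∈ Q s X, q ∉ E →
        LL s q w ≠ 0 ∧
        ‖(LL s q w)⁻¹ - DG (muA w) s q N‖ ≤ 4 * X ^ (-(η * τ / 8)) ∧ ‖DG (muA w) s q N‖ ≤ X ^ ν := by
  classical
  obtain ⟨C1, X1, hC1, h1⟩ := long_u hτ hτ1
  obtain ⟨C2, hC2, h2⟩ := ms_inv (ε := η * τ / 4) hτ (by positivity)
  obtain ⟨C3, hC3, h3⟩ := size_g hτ hν
  obtain ⟨X4, h4⟩ := MN_sizes hτ hτ1 hητ
  have hητ2 : η * τ ≤ τ := by nlinarith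
  have hητ0 : 0 < η * τ := by positivity
  have ev : ∀ᶠ X : ℝ in atTop, C1 ≤ X ^ (τ / 2) :=
    (tendsto_rpow_atTop (by linarith)).eventually_ge_atTop _
  have ev2 : ∀ᶠ X : ℝ in atTop, 4 ≤ X ^ (η * τ / 4) :=
    (tendsto_rpow_atTop (by positivity)).eventually_ge_atTop _
  obtain ⟨X₀, hX₀⟩ := eventually_atTop.1 (((ev.and ev2).and (eventually_ge_atTop 2)).and
    ((eventually_ge_atTop X1).and (eventually_ge_atTop X4)))
  refine ⟨2 * C2 + C3, X₀, by positivity, ?_⟩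
  intro s X N w hs hX hN1 hN2 hN hw hw2
  obtain ⟨⟨⟨v1, v1b⟩, v2⟩, v3, v4⟩ := hX₀ X hX
  have hX0 : 0 < X := by linarith
  have hX1 : 1 ≤ X := by linarith
  obtain ⟨g1, g2, g3, g4⟩ := h4 X N v4 hN2
  obtain ⟨E1, hE1a, hE1b, hE1c⟩ := cheb_pow hC2 hτ hτ1 hX1 hN1 (h2 s X (MM X τ) N w hs hX1 hN g1 g2 hw)
  obtain ⟨E2, hE2a, hE2b, hE2c⟩ := h3 s X N (muA w) hs hX1 hN g4 (fun m hm => mun_bd hw hm)
  refine ⟨E1 ∪ E2, Finset.union_subset hE1a hE2a, ?_, ?_⟩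
  · have h5 : X ^ (1 - η * τ / 4) ≤ X ^ (1 - ν) :=
      Real.rpow_le_rpow_of_exponent_le hX1 (by linarith)
    calc ((E1 ∪ E2).card : ℝ) ≤ (E1.card : ℝ) + E2.card := by exact_mod_cast Finset.card_union_le _ _
      _ ≤ 2 * C2 * X ^ (1 - η * τ / 4) + C3 * X ^ (1 - ν) := add_le_add hE1b hE2b
      _ ≤ 2 * C2 * X ^ (1 - ν) + C3 * X ^ (1 - ν) := by gcongr
      _ = _ := by ring
  · intro q hq hq2
    rw [Finset.mem_union, not_or] at hq2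
    have b1 := hE2c q hq hq2.2
    have a1 := h1 s X q w v3 hq hw hw2
    have a2 := hE1c q hq hq2.1
    obtain ⟨Mo, hMo⟩ : ∃ Mo : ℂ, Mo = DG (muA w) s q N := ⟨_, rfl⟩
    obtain ⟨D, hD⟩ : ∃ D : ℂ, D = DG (Eul.pw (-w)) s q (MM X τ) := ⟨_, rfl⟩
    rw [← hMo] at b1 a2
    rw [← hD] at a1 a2
    rw [← hMo]
    have hν0 : 0 < X ^ ν := by positivity
    have a3 : C1 * X ^ (-τ) * X ^ ν ≤ X ^ (-(η * τ / 4)) := by
      calc C1 * X ^ (-τ) * X ^ ν ≤ X ^ (τ / 2) * X ^ (-τ) * X ^ ν := by gcongr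
        _ = X ^ (-(τ / 2) + ν) := by rw [← Real.rpow_add hX0, ← Real.rpow_add hX0]; congr 1; ring
        _ ≤ X ^ (-(η * τ / 4)) := Real.rpow_le_rpow_of_exponent_le hX1 (by linarith)
    have a5 : ‖LL s q w * Mo - 1‖ ≤ 2 * X ^ (-(η * τ / 4)) := by
      have e : LL s q w * Mo - 1 = (LL s q w - D) * Mo + (D * Mo - 1) := by ring
      rw [e]
      refine (norm_add_le _ _).trans ?_
      rw [norm_mul]
      have : ‖LL s q w - D‖ * ‖Mo‖ ≤ C1 * X ^ (-τ) * X ^ ν :=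
        mul_le_mul a1 b1 (norm_nonneg _) (by positivity)
      linarith
    have a6 : 2 * X ^ (-(η * τ / 4)) ≤ 1 / 2 := by
      rw [Real.rpow_neg hX0.le]
      have : (X ^ (η * τ / 4))⁻¹ ≤ 4⁻¹ := inv_anti₀ (by norm_num) v1b
      linarith
    have a7 : ‖LL s q w * Mo - 1‖ ≤ 1 / 2 := a5.trans a6
    have hne : LL s q w ≠ 0 := by
      intro h0
      rw [h0, zero_mul, zero_sub, norm_neg, norm_one] at a7
      norm_num at a7
    have a8 : ‖(LL s q w)⁻¹‖ ≤ 2 * X ^ ν := by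
      have h5 : 1 / 2 ≤ ‖LL s q w * Mo‖ := by
        have h6 := norm_sub_norm_le (1 : ℂ) (1 - LL s q w * Mo)
        have h7 : (1 : ℂ) - (1 - LL s q w * Mo) = LL s q w * Mo := by ring
        rw [h7, norm_one] at h6
        have h8 : ‖1 - LL s q w * Mo‖ = ‖LL s q w * Mo - 1‖ := norm_sub_rev _ _
        rw [h8] at h6
        linarith
      rw [norm_mul] at h5
      rw [norm_inv]
      have hL0 : 0 < ‖LL s q w‖ := norm_pos_iff.2 hne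
      rw [inv_le_comm₀ hL0 (by positivity), mul_inv]
      have h9 : ‖LL s q w‖ * ‖Mo‖ ≤ ‖LL s q w‖ * X ^ ν := mul_le_mul_of_nonneg_left b1 hL0.le
      rw [← div_eq_mul_inv, div_le_iff₀ hν0]
      linarith
    refine ⟨hne, ?_, b1⟩
    have e : (LL s q w)⁻¹ - Mo = -((LL s q w)⁻¹ * (LL s q w * Mo - 1)) := by
      field_simp
      ring
    rw [e, norm_neg, norm_mul]
    calc ‖(LL s q w)⁻¹‖ * ‖LL s q w * Mo - 1‖ ≤ (2 * X ^ ν) * (2 * X ^ (-(η * τ / 4))) :=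
          mul_le_mul a8 a5 (norm_nonneg _) (by positivity)
      _ = 4 * (X ^ ν * X ^ (-(η * τ / 4))) := by ring
      _ = 4 * X ^ (ν + -(η * τ / 4)) := by rw [← Real.rpow_add hX0]
      _ ≤ 4 * X ^ (-(η * τ / 8)) := by
          apply mul_le_mul_of_nonneg_left _ (by norm_num)
          exact Real.rpow_le_rpow_of_exponent_le hX1 (by linarith)

/-- the weight -/
def WW (s : ℤ) (q : ℕ) (u : Fin a → ℂ) (v : Fin b → ℂ) : ℂ :=
  (∏ i, LL s q (u i)) * ∏ l, (LL s q (v l))⁻¹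

/-- the approximation of the weight -/
def WP (s : ℤ) (q N : ℕ) (u : Fin a → ℂ) (v : Fin b → ℂ) : ℂ := ∏ i, DG (gW u v i) s q N

theorem approxW (a b : ℕ) {τ η : ℝ} (hτ : 0 < τ) (hτ1 : τ ≤ 1 / 8) (hη : 0 < η) (hητ : η ≤ τ) :
    ∃ C ν X₀ : ℝ, 0 < C ∧ 0 < ν ∧ ν ≤ η * τ / 32 ∧ ∀ (s : ℤ) (X : ℝ) (N : ℕ) (u : Fin a → ℂ) (v : Fin b → ℂ),
      s = 1 ∨ s = -1 → X₀ ≤ X → X ^ η / 2 ≤ N → (N : ℝ) ≤ X ^ η → 1 ≤ N →
      (∀ i, 1 / 2 + 2 * τ ≤ (u i).re) → (∀ i, 1 / 2 + 2 * τ ≤ (v i).re) →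
      (∀ i, ‖u i‖ ≤ X ^ (τ / 8)) → (∀ i, ‖v i‖ ≤ X ^ (τ / 8)) →
      ∃ E : Finset ℕ, E ⊆ Q s X ∧ (E.card : ℝ) ≤ C * X ^ (1 - ν) ∧ ∀ q ∈ Q s X, q ∉ E →
        (∀ l, LL s q (v l) ≠ 0) ∧ ‖WW s q u v - WP s q N u v‖ ≤ X ^ (-(η * τ / 16)) ∧
        ‖WW s q u v‖ ≤ X ^ (η * τ / 16) := by
  classical
  obtain ⟨r, hr⟩ : ∃ r : ℕ, r = a + b := ⟨_, rfl⟩
  obtain ⟨ν, hν⟩ : ∃ ν : ℝ, ν = η * τ / (32 * (r + 1)) := ⟨_, rfl⟩
  have hητ0 : 0 < η * τ := by positivity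
  have hν0 : 0 < ν := by rw [hν]; positivity
  have hr0 : (0 : ℝ) ≤ r := Nat.cast_nonneg r
  have hν1 : ν ≤ η * τ / 32 := by
    rw [hν]
    apply div_le_div_of_nonneg_left hητ0.le (by norm_num)
    linarith
  have hrν : r * ν ≤ η * τ / 32 := by
    rw [hν, mul_div_assoc', div_le_div_iff₀ (by positivity) (by norm_num)]
    nlinarith
  obtain ⟨C1, X1, hC1, h1⟩ := one_u hτ hτ1 hη hητ hν0 (by linarith)
  obtain ⟨C2, X2, hC2, h2⟩ := one_v hτ hτ1 hη hητ hν0 (by linarith)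
  have ev1 : ∀ᶠ X : ℝ in atTop, 4 ≤ X ^ (η * τ / 8) :=
    (tendsto_rpow_atTop (by positivity)).eventually_ge_atTop _
  have ev2 : ∀ᶠ X : ℝ in atTop, 2 ^ r * (r * 4 + 1) ≤ X ^ (η * τ / 32) :=
    (tendsto_rpow_atTop (by positivity)).eventually_ge_atTop _
  obtain ⟨X₀, hX₀⟩ := eventually_atTop.1 (((ev1.and ev2).and (eventually_ge_atTop 2)).and
    ((eventually_ge_atTop X1).and (eventually_ge_atTop X2)))
  refine ⟨(a + b) * (C1 + C2) + 1, ν, X₀, by positivity, hν0, hν1, ?_⟩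
  intro s X N u v hs hX hN1 hN2 hN hu hv hu2 hv2
  obtain ⟨⟨⟨v1, v1b⟩, v2⟩, v3, v4⟩ := hX₀ X hX
  have hX0 : 0 < X := by linarith
  have hX1 : 1 ≤ X := by linarith
  choose Eu hEu1 hEu2 hEu3 using fun i => h1 s X N (u i) hs v3 hN1 hN2 hN (hu i) (hu2 i)
  choose Ev hEv1 hEv2 hEv3 using fun i => h2 s X N (v i) hs v4 hN1 hN2 hN (hv i) (hv2 i)
  refine ⟨(Finset.univ.biUnion Eu) ∪ (Finset.univ.biUnion Ev), ?_, ?_, ?_⟩
  · refine Finset.union_subset ?_ ?_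
    · exact Finset.biUnion_subset.2 fun i _ => hEu1 i
    · exact Finset.biUnion_subset.2 fun i _ => hEv1 i
  · have c1 : ((Finset.univ.biUnion Eu).card : ℝ) ≤ a * (C1 * X ^ (1 - ν)) := by
      have h3 : ((Finset.univ.biUnion Eu).card : ℝ) ≤ ∑ i : Fin a, ((Eu i).card : ℝ) := by
        exact_mod_cast Finset.card_biUnion_le
      refine h3.trans ((Finset.sum_le_sum fun i _ => hEu2 i).trans (le_of_eq ?_))
      rw [Finset.sum_const, Finset.card_univ, Fintype.card_fin, nsmul_eq_mul]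
    have c2 : ((Finset.univ.biUnion Ev).card : ℝ) ≤ b * (C2 * X ^ (1 - ν)) := by
      have h3 : ((Finset.univ.biUnion Ev).card : ℝ) ≤ ∑ i : Fin b, ((Ev i).card : ℝ) := by
        exact_mod_cast Finset.card_biUnion_le
      refine h3.trans ((Finset.sum_le_sum fun i _ => hEv2 i).trans (le_of_eq ?_))
      rw [Finset.sum_const, Finset.card_univ, Fintype.card_fin, nsmul_eq_mul]
    have hXp : 0 ≤ X ^ (1 - ν) := by positivity
    calc (((Finset.univ.biUnion Eu) ∪ (Finset.univ.biUnion Ev)).card : ℝ)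
        ≤ ((Finset.univ.biUnion Eu).card : ℝ) + (Finset.univ.biUnion Ev).card := by
          exact_mod_cast Finset.card_union_le _ _
      _ ≤ a * (C1 * X ^ (1 - ν)) + b * (C2 * X ^ (1 - ν)) := add_le_add c1 c2
      _ ≤ ((a + b) * (C1 + C2) + 1) * X ^ (1 - ν) := by
          have e : ((a + b) * (C1 + C2) + 1) * X ^ (1 - ν) = a * (C1 * X ^ (1 - ν)) +
              b * (C2 * X ^ (1 - ν)) + (a * C2 * X ^ (1 - ν) + b * C1 * X ^ (1 - ν) + X ^ (1 - ν)) := by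
            ring
          rw [e]
          have : 0 ≤ a * C2 * X ^ (1 - ν) + b * C1 * X ^ (1 - ν) + X ^ (1 - ν) := by positivity
          linarith
  · intro q hq hq2
    rw [Finset.mem_union, not_or] at hq2
    have au : ∀ i, ‖LL s q (u i) - DG (Eul.pw (-(u i))) s q N‖ ≤ 4 * X ^ (-(η * τ / 8)) ∧
        ‖DG (Eul.pw (-(u i))) s q N‖ ≤ X ^ ν := fun i =>
      hEu3 i q hq fun h => hq2.1 (Finset.mem_biUnion.2 ⟨i, Finset.mem_univ i, h⟩)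
    have av : ∀ i, LL s q (v i) ≠ 0 ∧ ‖(LL s q (v i))⁻¹ - DG (muA (v i)) s q N‖ ≤ 4 * X ^ (-(η * τ / 8)) ∧
        ‖DG (muA (v i)) s q N‖ ≤ X ^ ν := fun i =>
      hEv3 i q hq fun h => hq2.2 (Finset.mem_biUnion.2 ⟨i, Finset.mem_univ i, h⟩)
    obtain ⟨G, hG⟩ : ∃ G : Fin (a + b) → ℂ, G = Fin.append (fun i => LL s q (u i))
      (fun l => (LL s q (v l))⁻¹) := ⟨_, rfl⟩
    have hGW : WW s q u v = ∏ i, G i := by
      rw [hG, Fin.prod_univ_add]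
      simp [WW]
    have hGP : ∀ i, ‖G i - DG (gW u v i) s q N‖ ≤ 4 * X ^ (-(η * τ / 8)) ∧
        ‖DG (gW u v i) s q N‖ ≤ X ^ ν := by
      intro i
      rw [hG]
      refine Fin.addCases (fun j => ?_) (fun j => ?_) i
      · unfold gW
        rw [Fin.append_left, Fin.append_left]
        exact au j
      · unfold gW
        rw [Fin.append_right, Fin.append_right]
        exact (av j).2
    have hXν : 1 ≤ X ^ ν := Real.one_le_rpow hX1 hν0.le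
    have h5 : 4 * X ^ (-(η * τ / 8)) ≤ 1 := by
      rw [Real.rpow_neg hX0.le]
      have : (X ^ (η * τ / 8))⁻¹ ≤ 4⁻¹ := inv_anti₀ (by norm_num) v1
      linarith
    have hG2 : ∀ i, ‖G i‖ ≤ 2 * X ^ ν := by
      intro i
      have e : G i = (G i - DG (gW u v i) s q N) + DG (gW u v i) s q N := by ring
      rw [e]
      refine (norm_add_le _ _).trans ?_
      linarith [(hGP i).1, (hGP i).2]
    have hP2 : ∀ i, ‖DG (gW u v i) s q N‖ ≤ 2 * X ^ ν := fun i => by linarith [(hGP i).2]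
    have hpow : (2 * X ^ ν) ^ r ≤ 2 ^ r * X ^ (η * τ / 32) := by
      rw [mul_pow, ← Real.rpow_natCast (X ^ ν), ← Real.rpow_mul hX0.le]
      apply mul_le_mul_of_nonneg_left _ (by positivity)
      apply Real.rpow_le_rpow_of_exponent_le hX1
      linarith
    have hfac : (0 : ℝ) < 2 ^ r := by positivity
    refine ⟨fun l => (av l).1, ?_, ?_⟩
    · rw [hGW]
      unfold WP
      have h6 := Pool.Agent.TH228.GS.prod_sub_le Finset.univ G (fun i => DG (gW u v i) s q N)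
        (K := 2 * X ^ ν) (by linarith) (fun i _ => hG2 i) (fun i _ => hP2 i)
      have hcr : (2 * X ^ ν) ^ (Finset.univ : Finset (Fin (a + b))).card = (2 * X ^ ν) ^ r := by
        rw [Finset.card_univ, Fintype.card_fin, hr]
      rw [hcr] at h6
      refine h6.trans ?_
      have h7 : ∑ i, ‖G i - DG (gW u v i) s q N‖ ≤ r * (4 * X ^ (-(η * τ / 8))) := by
        refine (Finset.sum_le_sum fun i _ => (hGP i).1).trans (le_of_eq ?_)
        rw [Finset.sum_const, Finset.card_univ, Fintype.card_fin, nsmul_eq_mul, ← hr]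
      have h8 : 2 ^ r * (r * 4) ≤ X ^ (η * τ / 32) := by
        refine le_trans ?_ v1b
        apply mul_le_mul_of_nonneg_left _ hfac.le
        linarith
      calc (2 * X ^ ν) ^ r * ∑ i, ‖G i - DG (gW u v i) s q N‖
          ≤ (2 ^ r * X ^ (η * τ / 32)) * (r * (4 * X ^ (-(η * τ / 8)))) :=
            mul_le_mul hpow h7 (Finset.sum_nonneg fun _ _ => norm_nonneg _) (by positivity)
        _ = (2 ^ r * (r * 4)) * (X ^ (η * τ / 32) * X ^ (-(η * τ / 8))) := by ring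
        _ ≤ X ^ (η * τ / 32) * (X ^ (η * τ / 32) * X ^ (-(η * τ / 8))) := by gcongr
        _ = X ^ (-(η * τ / 16)) := by
            rw [← Real.rpow_add hX0, ← Real.rpow_add hX0]
            congr 1
            ring
    · rw [hGW, norm_prod]
      calc ∏ i, ‖G i‖ ≤ ∏ _i : Fin (a + b), (2 * X ^ ν) :=
            Finset.prod_le_prod (fun _ _ => norm_nonneg _) fun i _ => hG2 i
        _ = (2 * X ^ ν) ^ r := by rw [Finset.prod_const, Finset.card_univ, Fintype.card_fin, hr]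
        _ ≤ 2 ^ r * X ^ (η * τ / 32) := hpow
        _ ≤ X ^ (η * τ / 32) * X ^ (η * τ / 32) := by
            apply mul_le_mul_of_nonneg_right _ (by positivity)
            refine le_trans ?_ v1b
            nlinarith
        _ = X ^ (η * τ / 16) := by
            rw [← Real.rpow_add hX0]
            congr 1
            ring

end

end Pool.Agent.V8H6.RW
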